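import Mathlib

-- part Pool.Agent.P.MP_373cf5_nt.Defs
section

namespace PNF

open Polynomial

/-- The partition function `p(n)`. -/
def pn (n : ℕ) : ℕ := Fintype.card (Nat.Partition n)

/-- The constant `π²/6`. -/
noncomputable def aa : ℝ := Real.pi ^ 2 / 6

/-- The generating function of `p(n)` at a complex point. -/
noncomputable def PP (q : ℂ) : ℂ := ∑' n : ℕ, (pn n : ℂ) * q ^ n

/-- Inverse Laplace transform of `GG`. -/
noncomputable def gg (v : ℝ) : ℝ :=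
  (2 * √(aa * v) * Real.sinh (2 * √(aa * v)) - Real.cosh (2 * √(aa * v)) + 1 - 2 * (aa * v)) /
    (2 * √Real.pi * (v * √v))

/-- The model function with two terms removed, so that it decays like `|τ|^(-3/2)`. -/
noncomputable def GG (τ : ℂ) : ℂ := τ ^ (1 / 2 : ℂ) * (Complex.exp (aa / τ) - 1 - aa / τ)

/-- `μ(n) = π √(24 n - 1) / 6`. -/
noncomputable def mu (n : ℕ) : ℝ := Real.pi * √(24 * (n : ℝ) - 1) / 6

/-- First term of the Hardy-Ramanujan expansion. -/
noncomputable def mainTerm (n : ℕ) : ℝ :=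
  12 * √3 / Real.pi * (mu n - 1) * Real.exp (mu n) / ((24 * (n : ℝ) - 1) * √(24 * (n : ℝ) - 1))

/-- The index `n` with `24 n - 1 = D x²`. -/
def nx (D x : ℕ) : ℕ := (D * x ^ 2 + 1) / 24

/-- `κ = π √D / 6`. -/
noncomputable def kap (D : ℕ) : ℝ := Real.pi * √(D : ℝ) / 6

/-- The integer polynomial attached to a multiplicative relation. -/
noncomputable def QQ (A B : Finset ℕ) : ℤ[X] :=
  C (∏ x ∈ B, (x : ℤ) ^ 3) * ∏ x ∈ A, (C (x : ℤ) * X - 1) -
    C (∏ x ∈ A, (x : ℤ) ^ 3) * ∏ x ∈ B, (C (x : ℤ) * X - 1)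

/-- `P` vanishes at `1 / y` modulo `l`. -/
def Bad (P : ℤ[X]) (y l : ℕ) : Prop :=
  (P.map (Int.castRingHom (ZMod l))).eval ((y : ZMod l)⁻¹) = 0

theorem pn_pos (n : ℕ) : 0 < pn n := Fintype.card_pos

theorem pn_zero : pn 0 = 1 := by simp [pn]

theorem aa_pos : 0 < aa := by unfold aa; positivity

theorem aa_lt : aa < 5 / 3 := by
  unfold aa; nlinarith [Real.pi_lt_d2, Real.pi_pos]

theorem aa_gt : 3 / 2 < aa := by
  unfold aa; nlinarith [Real.pi_gt_three]

end PNF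
end

-- part Pool.Agent.P.MP_373cf5_nt.Cauchy
section

namespace PNF

open Complex

theorem cauchy_norm (c : ℂ) (t θ : ℝ) (m : ℕ) :
    ‖c * cexp (-(t + θ * I)) ^ m‖ = ‖c‖ * Real.exp (-t) ^ m := by
  rw [norm_mul, norm_pow, Complex.norm_exp]
  simp

theorem continuous_series (c : ℕ → ℂ) (t : ℝ)
    (hs : Summable fun m : ℕ => ‖c m‖ * Real.exp (-t) ^ m) :
    Continuous fun θ : ℝ => ∑' m : ℕ, c m * cexp (-(t + θ * I)) ^ m :=
  continuous_tsum (fun m => by fun_prop) hs fun m θ => (cauchy_norm (c m) t θ m).le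

theorem cauchy_term (t : ℝ) (m n : ℕ) :
    ∫ θ in (-Real.pi)..Real.pi, cexp (-(t + θ * I)) ^ m * cexp (n * (t + θ * I)) =
      if m = n then (2 * Real.pi : ℂ) else 0 := by
  have e : ∀ θ : ℝ, cexp (-(t + θ * I)) ^ m * cexp (n * (t + θ * I)) =
      cexp ((n - m) * t) * cexp ((n - m) * I * θ) := fun θ => by
    rw [← Complex.exp_nat_mul, ← Complex.exp_add, ← Complex.exp_add]
    congr 1
    ring
  simp only [e]
  split_ifs with h
  · subst h
    simp
    ring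
  · have h0 : ((n : ℂ) - m) * I ≠ 0 :=
      mul_ne_zero (sub_ne_zero.2 fun e => h (by exact_mod_cast e.symm)) I_ne_zero
    have : cexp ((n - m) * I * (Real.pi : ℝ)) = cexp ((n - m) * I * (-Real.pi : ℝ)) := by
      rw [Complex.exp_eq_exp_iff_exists_int]
      exact ⟨n - m, by push_cast; ring⟩
    rw [intervalIntegral.integral_const_mul, integral_exp_mul_complex h0, this]
    simp

theorem cauchy_coeff (c : ℕ → ℂ) (t : ℝ)
    (hs : Summable fun m : ℕ => ‖c m‖ * Real.exp (-t) ^ m) (n : ℕ) :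
    c n = (1 / (2 * Real.pi) : ℂ) * ∫ θ in (-Real.pi)..Real.pi,
      (∑' m : ℕ, c m * cexp (-(t + θ * I)) ^ m) * cexp (n * (t + θ * I)) := by
  have h1 : ∀ θ : ℝ, Summable fun m : ℕ => c m * cexp (-(t + θ * I)) ^ m := fun θ =>
    Summable.of_norm (by simpa only [cauchy_norm] using hs)
  have h := intervalIntegral.hasSum_integral_of_dominated_convergence
    (μ := MeasureTheory.volume) (a := -Real.pi) (b := Real.pi)
    (F := fun (m : ℕ) (θ : ℝ) => c m * cexp (-(t + θ * I)) ^ m * cexp (n * (t + θ * I)))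
    (f := fun θ : ℝ => (∑' m : ℕ, c m * cexp (-(t + θ * I)) ^ m) * cexp (n * (t + θ * I)))
    (fun m _ => ‖c m‖ * Real.exp (-t) ^ m * Real.exp (n * t))
    (fun m => Continuous.aestronglyMeasurable (by fun_prop))
    (fun m => .of_forall fun θ _ => by
      rw [norm_mul, cauchy_norm, Complex.norm_exp]
      simp)
    (.of_forall fun θ _ => hs.mul_right _) intervalIntegrable_const
    (.of_forall fun θ _ => (h1 θ).hasSum.mul_right (cexp (n * (t + θ * I))))
  simp only [mul_assoc, intervalIntegral.integral_const_mul, cauchy_term] at h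
  have hp : (Real.pi : ℂ) ≠ 0 := by exact_mod_cast Real.pi_ne_zero
  rw [← h.tsum_eq, tsum_eq_single n fun m hm => by rw [if_neg hm, mul_zero], if_pos rfl]
  field_simp

end PNF
end

-- part Pool.Agent.P.MP_373cf5_nt.GenFin
section

namespace PNF

open PowerSeries

/-- absolute convergence at `q` with sum `s` -/
def genfinEv (q : ℂ) (f : PowerSeries ℂ) (s : ℂ) : Prop :=
  (Summable fun n : ℕ => ‖coeff n f * q ^ n‖) ∧ ∑' n : ℕ, coeff n f * q ^ n = s

theorem genfin_mul {q : ℂ} {f g : PowerSeries ℂ} {s t : ℂ} (hf : genfinEv q f s)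
    (hg : genfinEv q g t) : genfinEv q (f * g) (s * t) := by
  have h : ∀ n : ℕ, coeff n (f * g) * q ^ n = ∑ kl ∈ Finset.HasAntidiagonal.antidiagonal n,
      (coeff kl.1 f * q ^ kl.1) * (coeff kl.2 g * q ^ kl.2) := by
    intro n
    rw [coeff_mul, Finset.sum_mul]
    refine Finset.sum_congr rfl fun kl hkl => ?_
    rw [← Finset.HasAntidiagonal.mem_antidiagonal.1 hkl, pow_add]
    ring
  have h1 := summable_norm_sum_mul_antidiagonal_of_summable_norm
    (f := fun n : ℕ => coeff n f * q ^ n) (g := fun n : ℕ => coeff n g * q ^ n) hf.1 hg.1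
  have h2 := tsum_mul_tsum_eq_tsum_sum_antidiagonal_of_summable_norm
    (f := fun n : ℕ => coeff n f * q ^ n) (g := fun n : ℕ => coeff n g * q ^ n) hf.1 hg.1
  refine ⟨h1.congr fun n => by rw [h n], ?_⟩
  rw [← hf.2, ← hg.2, h2]
  exact tsum_congr h

theorem genfin_pow (q : ℂ) (k : ℕ) : genfinEv q (X ^ k) (q ^ k) := by
  have h : ∀ n : ℕ, n ≠ k → coeff n (X ^ k : PowerSeries ℂ) * q ^ n = 0 := by
    intro n hn
    rw [coeff_X_pow, if_neg hn, zero_mul]
  refine ⟨(hasSum_single k fun n hn => by rw [h n hn, norm_zero]).summable, ?_⟩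
  rw [tsum_eq_single k h, coeff_X_pow, if_pos rfl, one_mul]

theorem genfin_one (q : ℂ) : genfinEv q 1 1 := by
  simpa using genfin_pow q 0

theorem genfin_sub {q : ℂ} {f g : PowerSeries ℂ} {s t : ℂ} (hf : genfinEv q f s)
    (hg : genfinEv q g t) : genfinEv q (f - g) (s - t) := by
  refine ⟨?_, ?_⟩
  · refine (hf.1.add hg.1).of_nonneg_of_le (fun _ => norm_nonneg _) fun n => ?_
    rw [map_sub, sub_mul]
    exact norm_sub_le _ _
  · simp only [map_sub, sub_mul]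
    rw [hf.1.of_norm.tsum_sub hg.1.of_norm, hf.2, hg.2]

theorem genfin_prod {q : ℂ} {f : ℕ → PowerSeries ℂ} {s : ℕ → ℂ} (h : ∀ i, genfinEv q (f i) (s i))
    (N : ℕ) : genfinEv q (∏ i ∈ Finset.range N, f i) (∏ i ∈ Finset.range N, s i) := by
  induction N with
  | zero => simpa using genfin_one q
  | succ N ih =>
    rw [Finset.prod_range_succ, Finset.prod_range_succ]
    exact genfin_mul ih (h N)

/-- the geometric series in `X ^ (i + 1)` -/
noncomputable def genfinG (i : ℕ) : PowerSeries ℂ :=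
  PowerSeries.mk fun n => if (i + 1) ∣ n then 1 else 0

theorem genfin_G {q : ℂ} (hq : ‖q‖ < 1) (i : ℕ) :
    genfinEv q (genfinG i) (∑' n : ℕ, coeff n (genfinG i) * q ^ n) := by
  refine ⟨(summable_geometric_of_lt_one (norm_nonneg q) hq).of_nonneg_of_le
    (fun _ => norm_nonneg _) fun n => ?_, rfl⟩
  rw [genfinG, coeff_mk]
  split_ifs
  · rw [one_mul, norm_pow]
  · rw [zero_mul, norm_zero]
    positivity

theorem genfin_inv (i : ℕ) : (1 - X ^ (i + 1)) * genfinG i = 1 := by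
  ext n
  rw [sub_mul, one_mul, map_sub, coeff_X_pow_mul', genfinG, coeff_mk, coeff_mk, coeff_one]
  by_cases h : i + 1 ≤ n
  · have h1 : (i + 1 ∣ n - (i + 1)) ↔ (i + 1 ∣ n) :=
      ⟨fun h2 => by simpa [Nat.sub_add_cancel h] using Nat.dvd_add h2 (dvd_refl (i + 1)),
        fun h2 => Nat.dvd_sub h2 dvd_rfl⟩
    rw [if_pos h, if_neg (show n ≠ 0 by omega)]
    simp only [h1, sub_self]
  · rw [if_neg h, sub_zero]
    by_cases h0 : n = 0
    · simp [h0]
    · rw [if_neg h0, if_neg fun h2 => h (Nat.le_of_dvd (by omega) h2)]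

open scoped PowerSeries.WithPiTopology in
theorem genfin_formal (N : ℕ) :
    (PowerSeries.mk fun n => ((Nat.Partition.restricted n (· ≤ N)).card : ℂ))
      = ∏ i ∈ Finset.range N, genfinG i := by
  have h1 := Nat.Partition.hasProd_powerSeriesMk_card_restricted ℂ (· ≤ N)
  have h2 : HasProd (fun i => if i + 1 ≤ N then ∑' j : ℕ, (X : PowerSeries ℂ) ^ ((i + 1) * j) else 1)
      (∏ i ∈ Finset.range N,
        if i + 1 ≤ N then ∑' j : ℕ, (X : PowerSeries ℂ) ^ ((i + 1) * j) else 1) :=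
    hasProd_prod_of_ne_finset_one fun i hi => if_neg (by simpa using hi)
  rw [h1.unique h2]
  refine Finset.prod_congr rfl fun i hi => ?_
  rw [if_pos (by simpa using hi)]
  have h3 : (1 - X ^ (i + 1)) * ∑' j : ℕ, ((X : PowerSeries ℂ) ^ (i + 1)) ^ j = 1 :=
    PowerSeries.WithPiTopology.one_sub_mul_tsum_pow_of_constantCoeff_eq_zero (by simp)
  simp only [pow_mul]
  calc ∑' j : ℕ, ((X : PowerSeries ℂ) ^ (i + 1)) ^ j
      = ((1 - X ^ (i + 1)) * genfinG i) * ∑' j : ℕ, ((X : PowerSeries ℂ) ^ (i + 1)) ^ j := by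
        rw [genfin_inv, one_mul]
    _ = genfinG i * ((1 - X ^ (i + 1)) * ∑' j : ℕ, ((X : PowerSeries ℂ) ^ (i + 1)) ^ j) := by ring
    _ = genfinG i := by rw [h3, mul_one]

/-- Partitions into parts `≤ N`: analytic generating function. -/
theorem restricted_gen (N : ℕ) (q : ℂ) (hq : ‖q‖ < 1) :
    (Summable fun n : ℕ => ((Nat.Partition.restricted n (· ≤ N)).card : ℝ) * ‖q‖ ^ n) ∧
    (∑' n : ℕ, ((Nat.Partition.restricted n (· ≤ N)).card : ℂ) * q ^ n) *
      ∏ k ∈ Finset.range N, (1 - q ^ (k + 1)) = 1 := by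
  have h1 := genfin_prod (genfin_G hq) N
  have h2 := genfin_prod (fun i => genfin_sub (genfin_one q) (genfin_pow q (i + 1))) N
  have h3 := genfin_mul h1 h2
  have h4 : (∏ i ∈ Finset.range N, genfinG i) * ∏ i ∈ Finset.range N, (1 - X ^ (i + 1)) = 1 := by
    rw [← Finset.prod_mul_distrib]
    exact Finset.prod_eq_one fun i _ => by rw [mul_comm, genfin_inv]
  rw [h4] at h3
  have h5 := h3.2.symm.trans (genfin_one q).2
  rw [← genfin_formal] at h1
  obtain ⟨h6, h7⟩ := h1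
  simp only [coeff_mk] at h6 h7
  refine ⟨?_, by rw [h7, h5]⟩
  simpa using h6

end PNF
end

-- part Pool.Agent.P.MP_373cf5_nt.ProdBound
section

namespace PNF

theorem prodBound_geom (r : ℝ) (h0 : 0 ≤ r) (h1 : r < 1) (m : ℕ) :
    r ^ m * (m + 1) * (1 - r) ≤ 1 - r ^ (m + 1) := by
  rw [← mul_neg_geom_sum, mul_comm]
  refine mul_le_mul_of_nonneg_left ?_ (by linarith)
  have h := Finset.card_nsmul_le_sum (Finset.range (m + 1)) (fun i => r ^ i) (r ^ m)
    fun i hi => pow_le_pow_of_le_one h0 h1.le (Nat.lt_succ_iff.1 (Finset.mem_range.1 hi))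
  rw [Finset.card_range, nsmul_eq_mul] at h
  push_cast at h
  linarith

theorem prodBound_col (r : ℝ) (h0 : 0 ≤ r) (h1 : r < 1) (N m : ℕ) :
    ∑ k ∈ Finset.range N, (r ^ (k + 1)) ^ (m + 1) / ((m : ℝ) + 1)
      ≤ r / (1 - r) * (1 / ((m + 1 : ℕ) : ℝ) ^ 2) := by
  have e : ∑ k ∈ Finset.range N, (r ^ (k + 1)) ^ (m + 1) / ((m : ℝ) + 1)
      = r * r ^ m * (∑ k ∈ Finset.range N, (r ^ (m + 1)) ^ k) / ((m : ℝ) + 1) := by
    rw [Finset.mul_sum, Finset.sum_div]
    exact Finset.sum_congr rfl fun k _ => by ring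
  have hS : 0 ≤ ∑ k ∈ Finset.range N, (r ^ (m + 1)) ^ k :=
    Finset.sum_nonneg fun k _ => by positivity
  have h2 : (1 - r ^ (m + 1)) * ∑ k ∈ Finset.range N, (r ^ (m + 1)) ^ k ≤ 1 := by
    rw [mul_neg_geom_sum]
    have : 0 ≤ (r ^ (m + 1)) ^ N := by positivity
    linarith
  have h3 := (mul_le_mul_of_nonneg_right (prodBound_geom r h0 h1 m) hS).trans h2
  have h4 : 0 < 1 - r := by linarith
  have h5 : (0 : ℝ) < (m : ℝ) + 1 := by positivity
  rw [e, div_mul_div_comm, div_le_div_iff₀ h5 (by positivity)]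
  push_cast
  nlinarith [mul_le_mul_of_nonneg_left h3 (mul_nonneg h0 h5.le)]

theorem prod_inv_le (r : ℝ) (h0 : 0 ≤ r) (h1 : r < 1) (N : ℕ) :
    ∏ k ∈ Finset.range N, (1 - r ^ (k + 1))⁻¹ ≤ Real.exp (aa * r / (1 - r)) := by
  have hlt : ∀ k : ℕ, r ^ (k + 1) < 1 := fun k => pow_lt_one₀ h0 h1 (Nat.succ_ne_zero k)
  have h2 := hasSum_sum (s := Finset.range N) fun k _ =>
    Real.hasSum_pow_div_log_of_abs_lt_one (x := r ^ (k + 1))
      (by rw [abs_of_nonneg (by positivity)]; exact hlt k)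
  have h3 : HasSum (fun m : ℕ => (1 : ℝ) / ((m + 1 : ℕ) : ℝ) ^ 2) aa := by
    have h := (hasSum_nat_add_iff' 1).2 hasSum_zeta_two
    simpa [aa] using h
  have h4 := hasSum_le (prodBound_col r h0 h1 N) h2 (h3.mul_left (r / (1 - r)))
  have e : ∏ k ∈ Finset.range N, (1 - r ^ (k + 1))⁻¹
      = Real.exp (∑ k ∈ Finset.range N, -Real.log (1 - r ^ (k + 1))) := by
    rw [Real.exp_sum]
    exact Finset.prod_congr rfl fun k _ => by
      rw [Real.exp_neg, Real.exp_log (sub_pos.2 (hlt k))]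
  rw [e]
  refine Real.exp_le_exp.2 (h4.trans (le_of_eq ?_))
  ring

end PNF
end

-- part Pool.Agent.P.MP_373cf5_nt.GenFun
section

namespace PNF

theorem genFun_le (N n : ℕ) : (Nat.Partition.restricted n (· ≤ N)).card ≤ pn n :=
  Finset.card_le_univ _

theorem genFun_eq {N n : ℕ} (h : n ≤ N) : (Nat.Partition.restricted n (· ≤ N)).card = pn n := by
  rw [Nat.Partition.restricted, Finset.filter_true_of_mem, Finset.card_univ, pn]
  intro x _ i hi
  exact (Nat.Partition.le_of_mem_parts hi).trans h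

theorem genFun_range (r : ℝ) (h0 : 0 ≤ r) (h1 : r < 1) (N : ℕ) :
    ∑ n ∈ Finset.range N, (pn n : ℝ) * r ^ n ≤ Real.exp (aa * r / (1 - r)) := by
  have hn : ‖(r : ℂ)‖ = r := by rw [Complex.norm_real, Real.norm_of_nonneg h0]
  obtain ⟨h2, h3⟩ := restricted_gen N (r : ℂ) (by rwa [hn])
  rw [hn] at h2
  have h4 : (∑' n : ℕ, ((Nat.Partition.restricted n (· ≤ N)).card : ℝ) * r ^ n) *
      ∏ k ∈ Finset.range N, (1 - r ^ (k + 1)) = 1 := by
    exact_mod_cast h3
  calc ∑ n ∈ Finset.range N, (pn n : ℝ) * r ^ n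
      = ∑ n ∈ Finset.range N, ((Nat.Partition.restricted n (· ≤ N)).card : ℝ) * r ^ n :=
        Finset.sum_congr rfl fun n hn' => by rw [genFun_eq (Finset.mem_range.1 hn').le]
    _ ≤ ∑' n : ℕ, ((Nat.Partition.restricted n (· ≤ N)).card : ℝ) * r ^ n :=
        h2.sum_le_tsum _ fun n _ => by positivity
    _ = ∏ k ∈ Finset.range N, (1 - r ^ (k + 1))⁻¹ := by
        rw [Finset.prod_inv_distrib]
        exact eq_inv_of_mul_eq_one_left h4
    _ ≤ _ := prod_inv_le r h0 h1 N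

theorem summable_pn (r : ℝ) (h0 : 0 ≤ r) (h1 : r < 1) :
    Summable fun n : ℕ => (pn n : ℝ) * r ^ n :=
  summable_of_sum_range_le (fun n => by positivity) (genFun_range r h0 h1)

theorem tsum_pn_le (r : ℝ) (h0 : 0 ≤ r) (h1 : r < 1) :
    ∑' n : ℕ, (pn n : ℝ) * r ^ n ≤ Real.exp (aa * r / (1 - r)) :=
  Real.tsum_le_of_sum_range_le (fun n => by positivity) (genFun_range r h0 h1)

theorem PP_mul (q : ℂ) (hq : ‖q‖ < 1) : PP q * ∏' k : ℕ, (1 - q ^ (k + 1)) = 1 := by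
  have h1 : Filter.Tendsto
      (fun N : ℕ => ∑' n : ℕ, ((Nat.Partition.restricted n (· ≤ N)).card : ℂ) * q ^ n)
      Filter.atTop (nhds (PP q)) := by
    refine tendsto_tsum_of_dominated_convergence (summable_pn ‖q‖ (norm_nonneg _) hq)
      (fun n => ?_) (Filter.Eventually.of_forall fun N n => ?_)
    · refine tendsto_const_nhds.congr' ?_
      filter_upwards [Filter.eventually_ge_atTop n] with N hN
      rw [genFun_eq hN]
    · rw [norm_mul, norm_pow, Complex.norm_natCast]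
      exact mul_le_mul_of_nonneg_right (by exact_mod_cast genFun_le N n) (by positivity)
  have h2 := (ModularForm.multipliable_one_sub_pow hq).hasProd.tendsto_prod_nat
  refine tendsto_nhds_unique (h1.mul h2) (tendsto_const_nhds.congr fun N => ?_)
  exact (restricted_gen N q hq).2.symm

theorem norm_PP_sub_one (q : ℂ) (hq : ‖q‖ < 1) :
    ‖PP q - 1‖ ≤ Real.exp (aa * ‖q‖ / (1 - ‖q‖)) - 1 := by
  have h1 := summable_pn ‖q‖ (norm_nonneg _) hq
  have hn : ∀ n : ℕ, ‖(pn n : ℂ) * q ^ n‖ = (pn n : ℝ) * ‖q‖ ^ n := fun n => by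
    rw [norm_mul, norm_pow, Complex.norm_natCast]
  have h2 : Summable fun n : ℕ => ‖(pn n : ℂ) * q ^ n‖ := by simpa only [hn] using h1
  have h3 := tsum_pn_le ‖q‖ (norm_nonneg _) hq
  rw [h1.tsum_eq_zero_add, pn_zero] at h3
  have h4 : PP q - 1 = ∑' n : ℕ, (pn (n + 1) : ℂ) * q ^ (n + 1) := by
    rw [PP, h2.of_norm.tsum_eq_zero_add, pn_zero]
    simp
  have h6 : Summable fun n : ℕ => ‖(pn (n + 1) : ℂ) * q ^ (n + 1)‖ :=
    (summable_nat_add_iff (f := fun n : ℕ => ‖(pn n : ℂ) * q ^ n‖) 1).2 h2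
  have h5 := norm_tsum_le_tsum_norm (f := fun n : ℕ => (pn (n + 1) : ℂ) * q ^ (n + 1)) h6
  simp only [hn] at h5
  rw [h4]
  simp only [Nat.cast_one, pow_zero, mul_one] at h3
  linarith

end PNF
end

-- part Pool.Agent.P.MP_373cf5_nt.Eta
section

namespace PNF

open Complex

theorem eta_branch (τ : ℂ) (hτ : 0 < τ.re) :
    (Complex.sqrt I)⁻¹ * Complex.sqrt (I * τ / (2 * Real.pi)) =
      ((√(2 * Real.pi) : ℝ) : ℂ)⁻¹ * τ ^ (1 / 2 : ℂ) := by
  have hτ0 : τ ≠ 0 := fun h => by simp [h] at hτ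
  have hpi : (0 : ℝ) < 2 * Real.pi := by positivity
  have harg := abs_lt.1 (Complex.abs_arg_lt_pi_div_two_iff.2 (Or.inl hτ))
  have hlog : Complex.log (I * τ) = Complex.log I + Complex.log τ := by
    rw [Complex.log_mul_eq_add_log_iff I_ne_zero hτ0, arg_I]
    constructor <;> linarith [harg.1, harg.2, Real.pi_pos]
  have e : I * τ / (2 * Real.pi) = (((2 * Real.pi)⁻¹ : ℝ) : ℂ) * (I * τ) := by
    push_cast; ring
  have h1 : ((√(2 * Real.pi) : ℝ) : ℂ)⁻¹ = cexp ((Real.log ((2 * Real.pi)⁻¹) : ℂ) * 2⁻¹) := by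
    have : Real.exp (Real.log ((2 * Real.pi)⁻¹) * 2⁻¹) = (√(2 * Real.pi))⁻¹ := by
      rw [← Real.rpow_def_of_pos (inv_pos.2 hpi), Real.inv_rpow hpi.le, Real.sqrt_eq_rpow, one_div]
    rw [← ofReal_inv, ← this]; push_cast; rfl
  rw [e, Complex.sqrt, Complex.sqrt, cpow_def_of_ne_zero I_ne_zero,
    cpow_def_of_ne_zero (mul_ne_zero (ofReal_ne_zero.2 (inv_pos.2 hpi).ne')
      (mul_ne_zero I_ne_zero hτ0)), log_ofReal_mul (inv_pos.2 hpi) (mul_ne_zero I_ne_zero hτ0),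
    hlog, cpow_def_of_ne_zero hτ0, h1, ← Complex.exp_neg, ← Complex.exp_add, ← Complex.exp_add]
  congr 1; ring

/-- Transformation formula of the partition generating function. -/
theorem PP_transform (τ : ℂ) (hτ : 0 < τ.re) :
    PP (cexp (-τ)) = ((√(2 * Real.pi) : ℝ) : ℂ)⁻¹ * τ ^ (1 / 2 : ℂ) * cexp (-τ / 24 + aa / τ) *
      PP (cexp (-(4 * Real.pi ^ 2 / τ))) := by
  have hτ0 : τ ≠ 0 := fun h => by simp [h] at hτ
  have hpi : (Real.pi : ℂ) ≠ 0 := ofReal_ne_zero.2 Real.pi_ne_zero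
  have hz : I * τ / (2 * Real.pi) ∈ UpperHalfPlane.upperHalfPlaneSet := by
    have e : I * τ / (2 * Real.pi) = (((2 * Real.pi)⁻¹ : ℝ) : ℂ) * (I * τ) := by
      push_cast; ring
    show 0 < (I * τ / (2 * Real.pi)).im
    rw [e, im_ofReal_mul]
    have : (I * τ).im = τ.re := by simp
    rw [this]; positivity
  have h := ModularForm.eta_comp_eq_csqrt_I_inv hz
  simp only [Function.comp, Pi.smul_apply, Pi.mul_apply, smul_eq_mul, ModularForm.eta,
    ModularForm.eta_q_eq_pow, Function.Periodic.qParam] at h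
  have e1 : 2 * (Real.pi : ℂ) * I * (I * τ / (2 * Real.pi)) = -τ := by
    field_simp; rw [I_sq]
  have e2 : 2 * (Real.pi : ℂ) * I * (-1 / (I * τ / (2 * Real.pi))) = -(4 * Real.pi ^ 2 / τ) := by
    field_simp; ring
  rw [e1, e2, ← mul_assoc, eta_branch τ hτ] at h
  have h1 := PP_mul (cexp (-τ)) (by rw [norm_exp, Real.exp_lt_one_iff]; simpa using hτ)
  have h2 := PP_mul (cexp (-(4 * Real.pi ^ 2 / τ))) (by
    rw [norm_exp, Real.exp_lt_one_iff]
    have e : (4 * Real.pi ^ 2 / τ : ℂ) = ((4 * Real.pi ^ 2 : ℝ) : ℂ) * τ⁻¹ := by push_cast; ring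
    rw [neg_re, e, re_ofReal_mul, inv_re, neg_lt_zero]
    have := normSq_pos.2 hτ0
    positivity)
  have e3 : cexp (-τ / 24 + aa / τ) * cexp (-(4 * Real.pi ^ 2 / τ) / ((24 : ℝ) : ℂ)) =
      cexp (-τ / ((24 : ℝ) : ℂ)) := by
    rw [← Complex.exp_add]; congr 1
    simp only [aa]; push_cast; field_simp; ring
  have h3 := exp_ne_zero (-(4 * Real.pi ^ 2 / τ) / ((24 : ℝ) : ℂ))
  apply mul_left_cancel₀ h3
  rw [← e3] at h
  linear_combination (PP (cexp (-τ)) * PP (cexp (-(4 * Real.pi ^ 2 / τ)))) * h -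
    cexp (-(4 * Real.pi ^ 2 / τ) / ((24 : ℝ) : ℂ)) * PP (cexp (-τ)) * h2 +
    ((√(2 * Real.pi) : ℝ) : ℂ)⁻¹ * τ ^ (1 / 2 : ℂ) * cexp (-τ / 24 + aa / τ) *
      cexp (-(4 * Real.pi ^ 2 / τ) / ((24 : ℝ) : ℂ)) * PP (cexp (-(4 * Real.pi ^ 2 / τ))) * h1

end PNF
end

-- part Pool.Agent.P.MP_373cf5_nt.Circle
section

namespace PNF

open Complex

theorem circle_real {s L : ℝ} (hs : 0 < s) (hL : 0 ≤ L) (h : aa / s ≤ L + 1) :
    Real.exp (s / 24) * (Real.exp (aa * Real.exp (-s) / (1 - Real.exp (-s))) - 1) ≤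
      8 * Real.exp L := by
  have h0 := aa_pos
  have h1 := aa_lt
  have h2 : 0 < Real.exp (-s) := Real.exp_pos _
  have h3 : Real.exp (-s) < 1 := Real.exp_lt_one_iff.2 (by linarith)
  have h4 : 1 ≤ Real.exp L := Real.one_le_exp hL
  rcases le_total 1 s with h5 | h5
  · have h6 : Real.exp (-s) ≤ 0.37 :=
      (Real.exp_le_exp.2 (by linarith)).trans (Real.exp_neg_one_lt_d9.le.trans (by norm_num))
    have h7 : aa * Real.exp (-s) / (1 - Real.exp (-s)) ≤ 2.7 * Real.exp (-s) := by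
      rw [div_le_iff₀ (by linarith)]
      nlinarith
    have h8 : 0 ≤ aa * Real.exp (-s) / (1 - Real.exp (-s)) :=
      div_nonneg (by positivity) (by linarith)
    have h9 := Real.abs_exp_sub_one_le (x := aa * Real.exp (-s) / (1 - Real.exp (-s)))
      (by rw [abs_of_nonneg h8]; linarith)
    rw [abs_of_nonneg h8] at h9
    have h10 : Real.exp (s / 24) * Real.exp (-s) ≤ 1 := by
      rw [← Real.exp_add]
      exact Real.exp_le_one_iff.2 (by linarith)
    calc _ ≤ Real.exp (s / 24) * (5.4 * Real.exp (-s)) :=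
          mul_le_mul_of_nonneg_left (by linarith [le_abs_self (Real.exp (aa * Real.exp (-s) /
            (1 - Real.exp (-s))) - 1)]) (Real.exp_pos _).le
      _ ≤ _ := by nlinarith
  · have h6 : (s + 1) * Real.exp (-s) ≤ 1 := by
      rw [Real.exp_neg, ← div_eq_mul_inv, div_le_one (Real.exp_pos _)]
      exact Real.add_one_le_exp s
    have h7 : aa * Real.exp (-s) / (1 - Real.exp (-s)) ≤ aa / s := by
      rw [div_le_div_iff₀ (by linarith) hs]
      nlinarith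
    have h8 : Real.exp 2 ≤ 8 := by
      have e1 := Real.exp_one_lt_d9
      have e2 : Real.exp 2 = Real.exp 1 * Real.exp 1 := by rw [← Real.exp_add]; norm_num
      have e3 := Real.exp_pos 1
      nlinarith
    calc _ ≤ Real.exp (s / 24) * Real.exp (L + 1) :=
          mul_le_mul_of_nonneg_left (by linarith [Real.exp_le_exp.2 (h7.trans h)])
            (Real.exp_pos _).le
      _ ≤ Real.exp 2 * Real.exp L := by
          rw [← Real.exp_add, ← Real.exp_add]
          exact Real.exp_le_exp.2 (by linarith)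
      _ ≤ _ := by gcongr

/-- On the whole circle the generating function is the model up to `8 exp(a / (4 t))`. -/
theorem PP_sub_model (t θ : ℝ) (ht : 0 < t) (ht1 : t ≤ 1) (hθ : |θ| ≤ Real.pi) :
    ‖PP (cexp (-(t + θ * I))) - ((√(2 * Real.pi) : ℝ) : ℂ)⁻¹ * (t + θ * I) ^ (1 / 2 : ℂ) *
      cexp (-(t + θ * I) / 24 + aa / (t + θ * I))‖ ≤ 8 * Real.exp (aa / (4 * t)) := by
  obtain ⟨τ, hτ⟩ : ∃ τ : ℂ, τ = t + θ * I := ⟨_, rfl⟩
  rw [← hτ]
  have hre : τ.re = t := by simp [hτ]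
  have hn : normSq τ = t ^ 2 + θ ^ 2 := by rw [hτ, normSq_add_mul_I]
  have hpos : 0 < t ^ 2 + θ ^ 2 := by positivity
  have hπ := Real.pi_pos
  obtain ⟨s, hs⟩ : ∃ s : ℝ, s = 4 * Real.pi ^ 2 * (t / (t ^ 2 + θ ^ 2)) := ⟨_, rfl⟩
  have hs0 : 0 < s := by rw [hs]; positivity
  have hdiv : ∀ c : ℝ, ((c : ℂ) / τ).re = c * (t / (t ^ 2 + θ ^ 2)) := fun c => by
    rw [div_eq_mul_inv, re_ofReal_mul, inv_re, hre, hn]
  have hq : ‖cexp (-(4 * Real.pi ^ 2 / τ))‖ = Real.exp (-s) := by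
    rw [norm_exp, neg_re, hs, ← hdiv]
    push_cast
    rfl
  have h1 := norm_PP_sub_one (cexp (-(4 * Real.pi ^ 2 / τ)))
    (by rw [hq]; exact Real.exp_lt_one_iff.2 (by linarith))
  rw [hq] at h1
  have h2 : ‖cexp (-τ / 24 + aa / τ)‖ ≤ Real.exp (s / 24) := by
    rw [norm_exp, add_re, hdiv]
    refine Real.exp_le_exp.2 ?_
    have e1 : (-τ / 24).re = -t / 24 := by simp [hre]
    have e2 : aa * (t / (t ^ 2 + θ ^ 2)) = s / 24 := by rw [hs, aa]; ring
    rw [e1, e2]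
    linarith
  have h3 : ‖((√(2 * Real.pi) : ℝ) : ℂ)⁻¹ * τ ^ (1 / 2 : ℂ)‖ ≤ 1 := by
    have e1 : ‖τ‖ ≤ 2 * Real.pi := by
      have e2 : ‖τ‖ ≤ ‖(t : ℂ)‖ + ‖θ * I‖ := hτ ▸ norm_add_le _ _
      rw [norm_mul, norm_I, mul_one, norm_real, norm_real, Real.norm_eq_abs, Real.norm_eq_abs,
        abs_of_pos ht] at e2
      linarith [Real.pi_gt_three]
    have e3 : (1 / 2 : ℂ) = ((1 / 2 : ℝ) : ℂ) := by push_cast; rfl
    rw [norm_mul, norm_inv, e3, norm_cpow_real, norm_real, Real.norm_eq_abs,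
      abs_of_nonneg (Real.sqrt_nonneg _), ← Real.sqrt_eq_rpow, inv_mul_le_one₀ (by positivity)]
    exact Real.sqrt_le_sqrt e1
  have h4 : aa / s ≤ aa / (4 * t) + 1 := by
    have e1 : θ ^ 2 ≤ Real.pi ^ 2 := sq_le_sq' (abs_le.1 hθ).1 (abs_le.1 hθ).2
    have e2 : aa / s = (t ^ 2 + θ ^ 2) / (24 * t) := by
      rw [hs, aa]
      field_simp
      norm_num
    have e3 : aa / (4 * t) + 1 = (24 * t + Real.pi ^ 2) / (24 * t) := by
      rw [aa]
      field_simp
      ring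
    rw [e2, e3]
    gcongr
    nlinarith
  rw [PP_transform τ (hre ▸ ht), ← mul_sub_one, norm_mul, norm_mul]
  refine le_trans ?_ (circle_real hs0 (div_nonneg aa_pos.le (by positivity)) h4)
  calc _ ≤ 1 * Real.exp (s / 24) *
        (Real.exp (aa * Real.exp (-s) / (1 - Real.exp (-s))) - 1) := by gcongr
    _ = _ := by rw [one_mul]

end PNF
end

-- part Pool.Agent.P.MP_373cf5_nt.GaussA
section

namespace PNF

open Complex MeasureTheory Set

theorem gaussA_split (b : ℝ) (τ : ℂ) (u : ℝ) :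
    (Real.cosh (b * u) : ℂ) * cexp (-τ * u ^ 2) =
      (cexp (-τ * u ^ 2 + b * u + 0) + cexp (-τ * u ^ 2 + (-b : ℂ) * u + 0)) / 2 := by
  rw [add_zero, add_zero, exp_add, exp_add, Real.cosh_eq, neg_mul (b : ℂ)]
  push_cast
  ring

theorem gaussA_full (b : ℝ) (τ : ℂ) (hτ : 0 < τ.re) :
    ∫ u : ℝ, (Real.cosh (b * u) : ℂ) * cexp (-τ * u ^ 2) =
      (Real.pi / τ) ^ (1 / 2 : ℂ) * cexp ((b : ℂ) ^ 2 / (4 * τ)) := by
  have h : (-τ).re < 0 := by simpa using hτ
  simp_rw [gaussA_split]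
  rw [integral_div, integral_add (integrable_cexp_quadratic hτ _ _)
    (integrable_cexp_quadratic hτ _ _), integral_cexp_quadratic h, integral_cexp_quadratic h,
    neg_neg, neg_sq, zero_sub, mul_neg, div_neg, neg_neg]
  ring

theorem integrable_cosh_gauss (b : ℝ) (τ : ℂ) (hτ : 0 < τ.re) :
    Integrable fun u : ℝ => (Real.cosh (b * u) : ℂ) * cexp (-τ * u ^ 2) := by
  simp_rw [gaussA_split]
  exact ((integrable_cexp_quadratic hτ _ _).add (integrable_cexp_quadratic hτ _ _)).div_const 2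

theorem integral_cosh_gauss (b : ℝ) (τ : ℂ) (hτ : 0 < τ.re) :
    ∫ u in Ioi (0 : ℝ), ((Real.cosh (b * u) : ℂ) - 1) * cexp (-τ * u ^ 2) =
      (Real.pi / τ) ^ (1 / 2 : ℂ) * (cexp ((b : ℂ) ^ 2 / (4 * τ)) - 1) / 2 := by
  have h1 := gaussA_full b τ hτ
  have h2 := integrable_cosh_gauss b τ hτ
  have h3 : ∫ u in Iic (0 : ℝ), (Real.cosh (b * u) : ℂ) * cexp (-τ * u ^ 2) =
      ∫ u in Ioi (0 : ℝ), (Real.cosh (b * u) : ℂ) * cexp (-τ * u ^ 2) := by
    have h4 := integral_comp_neg_Ioi (0 : ℝ)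
      fun u : ℝ => (Real.cosh (b * u) : ℂ) * cexp (-τ * u ^ 2)
    rw [neg_zero] at h4
    rw [← h4]
    simp only [mul_neg, Real.cosh_neg, ofReal_neg, neg_sq]
  rw [← integral_add_compl (s := Ioi 0) measurableSet_Ioi h2, compl_Ioi, h3] at h1
  simp_rw [sub_mul, one_mul]
  rw [integral_sub h2.integrableOn (integrable_cexp_neg_mul_sq hτ).integrableOn,
    integral_gaussian_complex_Ioi hτ]
  linear_combination h1 / 2

theorem pi_div_cpow (τ : ℂ) (hτ : 0 < τ.re) :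
    τ * (Real.pi / τ) ^ (1 / 2 : ℂ) = ((√Real.pi : ℝ) : ℂ) * τ ^ (1 / 2 : ℂ) := by
  have h0 : τ ≠ 0 := fun h => by simp [h] at hτ
  have hπ : (Real.pi : ℂ) ≠ 0 := ofReal_ne_zero.2 Real.pi_ne_zero
  have ha : τ.arg ≠ Real.pi := fun h => by
    have := (arg_eq_pi_iff.1 h).1
    linarith
  have h1 : ((√Real.pi : ℝ) : ℂ) = cexp ((Real.log Real.pi : ℝ) * (1 / 2)) := by
    rw [Real.sqrt_eq_rpow, Real.rpow_def_of_pos Real.pi_pos]
    push_cast
    rfl
  rw [cpow_def_of_ne_zero (div_ne_zero hπ h0), cpow_def_of_ne_zero h0, div_eq_mul_inv,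
    log_ofReal_mul Real.pi_pos (inv_ne_zero h0), log_inv _ ha, h1, ← exp_add]
  nth_rewrite 1 [← exp_log h0]
  rw [← exp_add]
  congr 1
  ring

end PNF
end

-- part Pool.Agent.P.MP_373cf5_nt.GaussB
section

namespace PNF

open Complex MeasureTheory Set

theorem gaussB_nonneg {f f' : ℝ → ℝ} (hf : ∀ x, HasDerivAt f (f' x) x) (h0 : f 0 = 0)
    (hp : ∀ x, 0 ≤ x → 0 ≤ f' x) {z : ℝ} (hz : 0 ≤ z) : 0 ≤ f z := by
  have hm : MonotoneOn f (Ici 0) :=
    monotoneOn_of_deriv_nonneg (convex_Ici 0)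
      (fun x _ => (hf x).continuousAt.continuousWithinAt)
      (fun x _ => (hf x).differentiableAt.differentiableWithinAt)
      fun x hx => by rw [(hf x).deriv]; exact hp x (interior_subset hx)
  have := hm self_mem_Ici hz hz
  rwa [h0] at this

theorem gaussB_sinh_le {z : ℝ} (hz : 0 ≤ z) : Real.sinh z ≤ z * Real.cosh z := by
  have := gaussB_nonneg (f := fun z => z * Real.cosh z - Real.sinh z)
    (f' := fun z => z * Real.sinh z) (fun x => by
      have h := ((hasDerivAt_id' x).mul (Real.hasDerivAt_cosh x)).sub (Real.hasDerivAt_sinh x)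
      exact h.congr_deriv (by ring)) (by simp)
    (fun x hx => mul_nonneg hx (Real.sinh_nonneg_iff.2 hx)) hz
  linarith

theorem gaussB_cosh_le {z : ℝ} (hz : 0 ≤ z) : Real.cosh z - 1 ≤ z * Real.sinh z := by
  have := gaussB_nonneg (f := fun z => z * Real.sinh z - Real.cosh z + 1)
    (f' := fun z => z * Real.cosh z) (fun x => by
      have h := (((hasDerivAt_id' x).mul (Real.hasDerivAt_sinh x)).sub
        (Real.hasDerivAt_cosh x)).add_const 1
      exact h.congr_deriv (by ring)) (by simp)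
    (fun x hx => mul_nonneg hx (Real.cosh_pos x).le) hz
  linarith

theorem integrableOn_parts (b : ℝ) (hb : 0 ≤ b) (τ : ℂ) (hτ : 0 < τ.re) :
    IntegrableOn (fun u : ℝ =>
      (((b * u * Real.sinh (b * u) - Real.cosh (b * u) + 1) / u ^ 2 : ℝ) : ℂ) * cexp (-τ * u ^ 2))
      (Ioi 0) := by
  refine Integrable.mono' (((integrable_cosh_gauss b τ hτ).norm.const_mul (b ^ 2)).integrableOn)
    (Measurable.aestronglyMeasurable (by fun_prop)) ?_
  filter_upwards [ae_restrict_mem measurableSet_Ioi] with u hu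
  have hu0 : 0 < u := hu
  have hz : 0 ≤ b * u := mul_nonneg hb hu0.le
  have h1 := gaussB_sinh_le hz
  have h2 := gaussB_cosh_le hz
  have h3 := Real.one_le_cosh (b * u)
  rw [norm_mul, norm_mul, ← mul_assoc, norm_real, norm_real,
    Real.norm_of_nonneg (div_nonneg (by linarith) (sq_nonneg _)),
    Real.norm_of_nonneg (Real.cosh_pos _).le]
  refine mul_le_mul_of_nonneg_right ?_ (norm_nonneg _)
  rw [div_le_iff₀ (by positivity)]
  nlinarith [mul_le_mul_of_nonneg_left h1 hz]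

theorem gaussB_phi {b u : ℝ} (hb : 0 ≤ b) (hu : 0 ≤ u) :
    ‖(Real.cosh (b * u) - 1) / u‖ ≤ b * Real.sinh (b * u) := by
  have hz : 0 ≤ b * u := mul_nonneg hb hu
  rw [Real.norm_of_nonneg (div_nonneg (sub_nonneg.2 (Real.one_le_cosh _)) hu)]
  refine div_le_of_le_mul₀ hu (mul_nonneg hb (Real.sinh_nonneg_iff.2 hz)) ?_
  linarith [gaussB_cosh_le hz]

theorem gaussB_deriv (b : ℝ) (τ : ℂ) {u : ℝ} (hu : 0 < u) :
    HasDerivAt (fun u : ℝ => (((Real.cosh (b * u) - 1) / u : ℝ) : ℂ) * cexp (-τ * u ^ 2))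
      ((((b * u * Real.sinh (b * u) - Real.cosh (b * u) + 1) / u ^ 2 : ℝ) : ℂ) * cexp (-τ * u ^ 2)
        - 2 * τ * (((Real.cosh (b * u) : ℂ) - 1) * cexp (-τ * u ^ 2))) u := by
  have h1 : HasDerivAt (fun u : ℝ => (Real.cosh (b * u) - 1) / u)
      ((b * u * Real.sinh (b * u) - Real.cosh (b * u) + 1) / u ^ 2) u := by
    have h := ((((hasDerivAt_id' u).const_mul b).cosh).sub_const 1).div (hasDerivAt_id' u) hu.ne'
    exact h.congr_deriv (by ring)
  have h2 : HasDerivAt (fun u : ℝ => cexp (-τ * (u : ℂ) ^ 2))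
      (cexp (-τ * (u : ℂ) ^ 2) * (-τ * (2 * u))) u := by
    have h := (((hasDerivAt_id' (u : ℂ)).pow 2).const_mul (-τ)).cexp.comp_ofReal
    exact h.congr_deriv (by simp)
  refine (h1.ofReal_comp.mul h2).congr_deriv ?_
  have hu' : (u : ℂ) ≠ 0 := ofReal_ne_zero.2 hu.ne'
  rw [ofReal_div (Real.cosh (b * u) - 1), ofReal_sub (Real.cosh (b * u)) 1, ofReal_one]
  field_simp
  ring

theorem integral_parts (b : ℝ) (hb : 0 ≤ b) (τ : ℂ) (hτ : 0 < τ.re) :
    ∫ u in Ioi (0 : ℝ),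
      (((b * u * Real.sinh (b * u) - Real.cosh (b * u) + 1) / u ^ 2 : ℝ) : ℂ) * cexp (-τ * u ^ 2) =
      τ * (Real.pi / τ) ^ (1 / 2 : ℂ) * (cexp ((b : ℂ) ^ 2 / (4 * τ)) - 1) := by
  have i1 := integrableOn_parts b hb τ hτ
  have i2 : IntegrableOn (fun u : ℝ =>
      2 * τ * (((Real.cosh (b * u) : ℂ) - 1) * cexp (-τ * u ^ 2))) (Ioi 0) := by
    simp only [sub_mul, one_mul]
    exact (((integrable_cosh_gauss b τ hτ).sub (integrable_cexp_neg_mul_sq hτ)).const_mul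
      _).integrableOn
  have hc : ContinuousWithinAt (fun u : ℝ =>
      (((Real.cosh (b * u) - 1) / u : ℝ) : ℂ) * cexp (-τ * u ^ 2)) (Ici 0) 0 := by
    have h1 : ContinuousWithinAt (fun u : ℝ => (Real.cosh (b * u) - 1) / u) (Ici 0) 0 := by
      have h2 : Continuous fun u : ℝ => b * Real.sinh (b * u) := by fun_prop
      rw [ContinuousWithinAt, div_zero]
      refine squeeze_zero_norm' (eventually_nhdsWithin_of_forall fun u hu => gaussB_phi hb hu) ?_
      simpa using (h2.tendsto 0).mono_left nhdsWithin_le_nhds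
    exact (continuous_ofReal.continuousAt.comp_continuousWithinAt h1).mul
      (Continuous.continuousWithinAt (by fun_prop))
  have ht : Filter.Tendsto (fun u : ℝ =>
      (((Real.cosh (b * u) - 1) / u : ℝ) : ℂ) * cexp (-τ * u ^ 2)) Filter.atTop (nhds 0) := by
    have h1 : Filter.Tendsto (fun u : ℝ => u * (b + -τ.re * u)) Filter.atTop Filter.atBot :=
      Filter.tendsto_id.atTop_mul_atBot₀ (Filter.tendsto_atBot_add_const_left _ b
        (Filter.tendsto_id.const_mul_atTop_of_neg (neg_neg_of_pos hτ)))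
    have h2 := (Real.tendsto_exp_atBot.comp h1).const_mul b
    rw [mul_zero] at h2
    refine squeeze_zero_norm' ?_ h2
    filter_upwards [Filter.eventually_ge_atTop 0] with u hu
    have h3 : Real.sinh (b * u) ≤ Real.exp (b * u) := by
      rw [← Real.sinh_add_cosh]
      linarith [Real.cosh_pos (b * u)]
    have h4 : (-τ * (u : ℂ) ^ 2).re = -τ.re * u ^ 2 := by
      rw [← ofReal_pow, re_mul_ofReal, neg_re]
    rw [norm_mul, norm_real, norm_exp, h4, Function.comp_apply,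
      show u * (b + -τ.re * u) = b * u + -τ.re * u ^ 2 by ring, Real.exp_add, ← mul_assoc]
    exact mul_le_mul_of_nonneg_right ((gaussB_phi hb hu).trans
      (mul_le_mul_of_nonneg_left h3 hb)) (Real.exp_pos _).le
  have h := integral_Ioi_of_hasDerivAt_of_tendsto hc (fun u hu => gaussB_deriv b τ hu)
    (i1.sub i2) ht
  rw [integral_sub i1 i2, integral_const_mul, integral_cosh_gauss b τ hτ, div_zero, ofReal_zero,
    zero_mul, sub_zero, sub_eq_zero] at h
  rw [h]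
  ring

end PNF
end

-- part Pool.Agent.P.MP_373cf5_nt.Laplace
section

namespace PNF

open Complex MeasureTheory Set

theorem laplace_real {u : ℝ} (hu : 0 < u) : 2 * u * gg (u ^ 2) =
    (√Real.pi)⁻¹ * ((2 * √aa * u * Real.sinh (2 * √aa * u) - Real.cosh (2 * √aa * u) + 1) / u ^ 2 -
      2 * aa) := by
  have h1 : √(aa * u ^ 2) = √aa * u := by
    rw [Real.sqrt_mul aa_pos.le, Real.sqrt_sq hu.le]
  have h2 : (0 : ℝ) < √Real.pi := Real.sqrt_pos.2 Real.pi_pos
  unfold gg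
  rw [h1, Real.sqrt_sq hu.le, ← mul_assoc 2 √aa u]
  field_simp

theorem laplace_eq (τ : ℂ) {u : ℝ} (hu : u ∈ Ioi (0 : ℝ)) :
    (2 * u ^ ((2 : ℝ) - 1)) • ((gg (u ^ (2 : ℝ)) : ℂ) * cexp (-τ * ((u ^ (2 : ℝ) : ℝ) : ℂ))) =
      (((√Real.pi)⁻¹ : ℝ) : ℂ) *
        ((((2 * √aa * u * Real.sinh (2 * √aa * u) - Real.cosh (2 * √aa * u) + 1) / u ^ 2 : ℝ) : ℂ) *
          cexp (-τ * u ^ 2) - 2 * aa * cexp (-τ * u ^ 2)) := by
  have h1 : (2 : ℝ) - 1 = 1 := by norm_num
  rw [h1, Real.rpow_one, Real.rpow_two, Complex.real_smul, ← mul_assoc, ← ofReal_mul,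
    laplace_real hu, ofReal_mul, ofReal_sub, ofReal_pow, ofReal_mul 2 aa, ofReal_ofNat]
  ring

theorem integrableOn_gg (τ : ℂ) (hτ : 0 < τ.re) :
    IntegrableOn (fun v : ℝ => (gg v : ℂ) * cexp (-τ * v)) (Ioi 0) := by
  rw [← integrableOn_Ioi_comp_rpow_iff _ (two_ne_zero (α := ℝ)), abs_two]
  refine (integrableOn_congr_fun (fun u hu => laplace_eq τ hu) measurableSet_Ioi).2 ?_
  exact ((integrableOn_parts (2 * √aa) (by positivity) τ hτ).sub
    ((integrable_cexp_neg_mul_sq hτ).integrableOn.const_mul _)).const_mul _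

theorem laplace_gg (τ : ℂ) (hτ : 0 < τ.re) :
    ∫ v in Ioi (0 : ℝ), (gg v : ℂ) * cexp (-τ * v) = GG τ := by
  rw [← integral_comp_rpow_Ioi_of_pos (two_pos (α := ℝ)),
    setIntegral_congr_fun measurableSet_Ioi (fun u hu => laplace_eq τ hu), integral_const_mul,
    integral_sub (integrableOn_parts (2 * √aa) (by positivity) τ hτ)
      ((integrable_cexp_neg_mul_sq hτ).integrableOn.const_mul _), integral_const_mul,
    integral_parts (2 * √aa) (by positivity) τ hτ, integral_gaussian_complex_Ioi hτ]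
  have hτ0 : τ ≠ 0 := by rintro rfl; simp at hτ
  have h2 : ((√Real.pi : ℝ) : ℂ) ≠ 0 := ofReal_ne_zero.2 (Real.sqrt_pos.2 Real.pi_pos).ne'
  have h3 : ((2 * √aa : ℝ) : ℂ) ^ 2 / (4 * τ) = aa / τ := by
    rw [← ofReal_pow, mul_pow, Real.sq_sqrt aa_pos.le]
    push_cast
    field_simp
    ring
  have h4 : ((Real.pi : ℂ) / τ) ^ (1 / 2 : ℂ) = ((√Real.pi : ℝ) : ℂ) * τ ^ (1 / 2 : ℂ) / τ := by
    rw [← pi_div_cpow τ hτ]; field_simp
  rw [h3, h4, GG, ofReal_inv]
  field_simp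

end PNF
end

-- part Pool.Agent.P.MP_373cf5_nt.GGBound
section

namespace PNF

open Complex MeasureTheory Set

theorem ggb_ne (t θ : ℝ) (ht : 0 < t) : (t : ℂ) + θ * I ≠ 0 := fun h => by
  have := congrArg Complex.re h
  simp at this
  exact ht.ne' this

theorem ggb_norm (τ : ℂ) : ‖τ ^ (1 / 2 : ℂ)‖ = √‖τ‖ := by
  rw [show (1 / 2 : ℂ) = ((1 / 2 : ℝ) : ℂ) by push_cast; rfl, Complex.norm_cpow_real,
    Real.sqrt_eq_rpow]

theorem continuous_GG (t : ℝ) (ht : 0 < t) : Continuous fun θ : ℝ => GG (t + θ * I) := by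
  have h1 : Continuous fun θ : ℝ => (t : ℂ) + θ * I := by fun_prop
  have h2 : Continuous fun θ : ℝ => (aa : ℂ) / ((t : ℂ) + θ * I) :=
    continuous_const.div h1 fun θ => ggb_ne t θ ht
  unfold GG
  exact (h1.cpow continuous_const fun θ => Or.inl (by simpa using ht)).mul
    ((h2.cexp.sub continuous_const).sub h2)

theorem norm_GG_le (t θ : ℝ) (ht : 0 < t) (hθ : Real.pi ≤ |θ|) :
    ‖GG (t + θ * I)‖ ≤ 8 * (1 + ‖θ‖) ^ (-(3 / 2) : ℝ) := by
  have hR : |θ| ≤ ‖(t : ℂ) + θ * I‖ := by simpa using abs_im_le_norm ((t : ℂ) + θ * I)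
  have h3 := Real.pi_gt_three
  have a1 := aa_pos
  have a2 := aa_lt
  have hn : ‖(aa : ℂ) / ((t : ℂ) + θ * I)‖ = aa / ‖(t : ℂ) + θ * I‖ := by
    rw [norm_div, Complex.norm_real, Real.norm_of_nonneg a1.le]
  have h1 := Complex.norm_exp_sub_one_sub_id_le (x := (aa : ℂ) / ((t : ℂ) + θ * I))
    (by rw [hn, div_le_one (by linarith)]; linarith)
  unfold GG
  rw [norm_mul, ggb_norm]
  rw [hn] at h1
  refine (mul_le_mul_of_nonneg_left h1 (Real.sqrt_nonneg _)).trans ?_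
  generalize ‖(t : ℂ) + θ * I‖ = R at hR
  obtain ⟨ρ, hρ, rfl⟩ : ∃ ρ : ℝ, 0 < ρ ∧ R = ρ ^ 2 :=
    ⟨√R, Real.sqrt_pos.2 (by linarith), (Real.sq_sqrt (by linarith)).symm⟩
  obtain ⟨s, hs, e⟩ : ∃ s : ℝ, 0 < s ∧ 1 + ‖θ‖ = s ^ 2 :=
    ⟨√(1 + ‖θ‖), Real.sqrt_pos.2 (by positivity), (Real.sq_sqrt (by positivity)).symm⟩
  have e2 : (s ^ 2) ^ (-(3 / 2) : ℝ) = (s ^ 3)⁻¹ := by
    rw [← Real.rpow_natCast, ← Real.rpow_mul hs.le, ← Real.rpow_natCast, ← Real.rpow_neg hs.le]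
    norm_num
  have h4 : s ≤ 4 / 3 * ρ := by
    refine (pow_le_pow_iff_left₀ hs.le (by positivity) two_ne_zero).1 ?_
    rw [← e, Real.norm_eq_abs]
    nlinarith
  have h5 : s ^ 3 ≤ (4 / 3 * ρ) ^ 3 := pow_le_pow_left₀ hs.le h4 3
  have h6 : aa ^ 2 ≤ 25 / 9 := by nlinarith
  rw [e, e2, Real.sqrt_sq hρ.le, ← div_eq_mul_inv, le_div_iff₀ (by positivity),
    show ρ * (aa / ρ ^ 2) ^ 2 * s ^ 3 = aa ^ 2 * s ^ 3 / ρ ^ 3 by field_simp,
    div_le_iff₀ (by positivity)]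
  nlinarith [mul_le_mul h6 h5 (by positivity) (by norm_num), pow_pos hρ 3]

theorem integrable_GG (t : ℝ) (ht : 0 < t) : Integrable fun θ : ℝ => GG (t + θ * I) := by
  have hc := continuous_GG t ht
  rw [← integrableOn_univ, ← union_compl_self (Icc (-Real.pi) Real.pi)]
  refine hc.integrableOn_Icc.union ?_
  refine (((integrable_one_add_norm (E := ℝ) (μ := volume) (r := 3 / 2)
    (by rw [Module.finrank_self]; norm_num)).const_mul 8).integrableOn).mono'
    hc.aestronglyMeasurable.restrict ?_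
  filter_upwards [ae_restrict_mem measurableSet_Icc.compl] with θ h
  exact norm_GG_le t θ ht (not_le.1 fun h' => h (abs_le.1 h')).le

theorem norm_low_le (t θ : ℝ) (ht : 0 < t) (ht1 : t ≤ 1) (hθ : |θ| ≤ Real.pi) :
    ‖((t : ℂ) + θ * I) ^ (1 / 2 : ℂ) * (1 + aa / (t + θ * I))‖ ≤ 6 / t := by
  have h1 : t ≤ ‖(t : ℂ) + θ * I‖ := by simpa using re_le_norm ((t : ℂ) + θ * I)
  have h2 : ‖(t : ℂ) + θ * I‖ ≤ 4 := by
    rw [Complex.norm_add_mul_I]
    refine Real.sqrt_le_iff.2 ⟨by norm_num, ?_⟩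
    have := Real.pi_lt_d2
    nlinarith [sq_abs θ, abs_nonneg θ]
  have h3 : √‖(t : ℂ) + θ * I‖ ≤ 2 := Real.sqrt_le_iff.2 ⟨by norm_num, by linarith⟩
  have h4 : ‖1 + (aa : ℂ) / (t + θ * I)‖ ≤ 3 / t := by
    refine (norm_add_le _ _).trans ?_
    rw [norm_one, norm_div, Complex.norm_real, Real.norm_of_nonneg aa_pos.le]
    have h5 : aa / ‖(t : ℂ) + θ * I‖ ≤ 2 / t :=
      div_le_div₀ (by norm_num) (by linarith [aa_lt]) ht h1
    have h6 : 1 ≤ 1 / t := by rwa [le_div_iff₀ ht, one_mul]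
    have h7 : 3 / t = 1 / t + 2 / t := by ring
    linarith
  rw [norm_mul, ggb_norm]
  refine (mul_le_mul h3 h4 (norm_nonneg _) (by norm_num)).trans_eq ?_
  ring

end PNF
end

-- part Pool.Agent.P.MP_373cf5_nt.Invert
section

namespace PNF

open Complex MeasureTheory Set
open scoped FourierTransform

/-- The function whose Fourier transform is `GG` on a vertical line. -/
noncomputable def invert_f (t : ℝ) : ℝ → ℂ :=
  (Ioi (0 : ℝ)).indicator fun v : ℝ => (gg v : ℂ) * cexp (-(t : ℂ) * v)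

theorem invert_integrable (t : ℝ) (ht : 0 < t) : Integrable (invert_f t) :=
  (integrable_indicator_iff measurableSet_Ioi).2 (integrableOn_gg t (by simpa using ht))

theorem invert_fourier (t : ℝ) (ht : 0 < t) (w : ℝ) :
    𝓕 (invert_f t) w = GG (t + ((2 * Real.pi * w : ℝ) : ℂ) * I) := by
  rw [Real.fourier_real_eq_integral_exp_smul, ← laplace_gg _ (by simpa using ht),
    ← integral_indicator measurableSet_Ioi]
  refine integral_congr_ae (Filter.Eventually.of_forall fun v => ?_)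
  by_cases hv : v ∈ Ioi (0 : ℝ)
  · simp only [invert_f, indicator_of_mem hv, smul_eq_mul]
    rw [mul_left_comm, ← Complex.exp_add]
    congr 2
    push_cast
    ring
  · simp only [invert_f, indicator_of_notMem hv, smul_zero]

theorem invert_continuousAt (t lam : ℝ) (hl : 0 < lam) : ContinuousAt (invert_f t) lam := by
  have h1 : ContinuousAt gg lam := by
    unfold gg
    refine ContinuousAt.div (by fun_prop) (by fun_prop) ?_
    have := Real.sqrt_pos.2 hl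
    have := Real.sqrt_pos.2 Real.pi_pos
    positivity
  have h2 : ContinuousAt (fun v : ℝ => (gg v : ℂ) * cexp (-(t : ℂ) * v)) lam :=
    (continuous_ofReal.continuousAt.comp h1).mul (by fun_prop)
  refine h2.congr ?_
  filter_upwards [Ioi_mem_nhds hl] with v hv
  simp only [invert_f, indicator_of_mem hv]

theorem invert_GG (t lam : ℝ) (ht : 0 < t) (hl : 0 < lam) :
    (1 / (2 * Real.pi) : ℂ) * ∫ θ : ℝ, GG (t + θ * I) * cexp (lam * (t + θ * I)) = (gg lam : ℂ) := by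
  have hpi : (2 * Real.pi : ℝ) ≠ 0 := by positivity
  have hF : 𝓕 (invert_f t) = fun w : ℝ => GG (t + ((2 * Real.pi * w : ℝ) : ℂ) * I) :=
    funext (invert_fourier t ht)
  have h1 : Integrable (𝓕 (invert_f t)) := by
    rw [hF]
    exact (integrable_GG t ht).comp_mul_left' hpi
  have h2 := (invert_integrable t ht).fourierInv_fourier_eq h1 (invert_continuousAt t lam hl)
  rw [Real.fourierInv_eq', hF] at h2
  have h3 := Measure.integral_comp_mul_left
    (fun θ : ℝ => GG (t + θ * I) * cexp (lam * (t + θ * I))) (2 * Real.pi)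
  have h4 : ∫ w : ℝ, GG (t + ((2 * Real.pi * w : ℝ) : ℂ) * I) *
      cexp (lam * (t + ((2 * Real.pi * w : ℝ) : ℂ) * I)) = cexp (t * lam) * invert_f t lam := by
    rw [← h2, ← integral_const_mul]
    refine integral_congr_ae (Filter.Eventually.of_forall fun w => ?_)
    simp only [smul_eq_mul]
    rw [← mul_assoc, ← Complex.exp_add, mul_comm]
    congr 2
    simp only [RCLike.inner_apply, conj_trivial]
    push_cast
    ring
  rw [h4, abs_of_pos (by positivity), Complex.real_smul] at h3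
  have h5 : invert_f t lam = (gg lam : ℂ) * cexp (-(t : ℂ) * lam) := by
    simp only [invert_f, indicator_of_mem (mem_Ioi.2 hl)]
  rw [h5, mul_left_comm, ← Complex.exp_add] at h3
  have h6 : (t : ℂ) * lam + -(t : ℂ) * lam = 0 := by ring
  rw [h6, Complex.exp_zero, mul_one] at h3
  rw [h3]
  push_cast
  rw [one_div]

end PNF
end

-- part Pool.Agent.P.MP_373cf5_nt.Tail
section

namespace PNF

open Complex MeasureTheory Set

theorem tail_norm_exp (t lam θ : ℝ) : ‖cexp (lam * (t + θ * I))‖ = Real.exp (lam * t) := by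
  rw [Complex.norm_exp]
  simp

theorem tail_slit {t : ℝ} (ht : 0 < t) (θ : ℝ) : (t : ℂ) + θ * I ∈ slitPlane := by
  left
  simpa using ht

theorem model_integral : ∃ C : ℝ, 0 < C ∧ ∀ t lam : ℝ, 0 < t → t ≤ 1 → 0 < lam →
    ‖(1 / (2 * Real.pi) : ℂ) * (∫ θ in (-Real.pi)..Real.pi,
        ((t : ℂ) + θ * I) ^ (1 / 2 : ℂ) * cexp (aa / (t + θ * I)) * cexp (lam * (t + θ * I))) -
      (gg lam : ℂ)‖ ≤ C * Real.exp (lam * t) / t := by
  have hK : Integrable fun θ : ℝ => 8 * (1 + ‖θ‖) ^ (-(3 / 2) : ℝ) :=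
    (integrable_one_add_norm (by rw [Module.finrank_self]; norm_num)).const_mul 8
  set K : ℝ := ∫ θ : ℝ, 8 * (1 + ‖θ‖) ^ (-(3 / 2) : ℝ) with hKdef
  have hK0 : 0 ≤ K := integral_nonneg fun θ => by positivity
  refine ⟨6 + K + 1, by positivity, fun t lam ht ht1 hl => ?_⟩
  have hπ := Real.pi_pos
  have hle : -Real.pi ≤ Real.pi := by linarith
  have hc : Continuous fun θ : ℝ => (t : ℂ) + θ * I := by fun_prop
  have hce : Continuous fun θ : ℝ => cexp (lam * (t + θ * I)) := by fun_prop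
  have hi : Integrable fun θ : ℝ => GG (t + θ * I) * cexp (lam * (t + θ * I)) :=
    (integrable_GG t ht).mul_bdd (c := Real.exp (lam * t)) hce.aestronglyMeasurable
      (Filter.Eventually.of_forall fun θ => (tail_norm_exp t lam θ).le)
  have hlow : Continuous fun θ : ℝ =>
      ((t : ℂ) + θ * I) ^ (1 / 2 : ℂ) * (1 + aa / (t + θ * I)) * cexp (lam * (t + θ * I)) :=
    ((hc.cpow continuous_const (tail_slit ht)).mul (continuous_const.add
      (continuous_const.div hc fun θ => slitPlane_ne_zero (tail_slit ht θ)))).mul hce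
  have hsplit : (∫ θ in (-Real.pi)..Real.pi,
        ((t : ℂ) + θ * I) ^ (1 / 2 : ℂ) * cexp (aa / (t + θ * I)) * cexp (lam * (t + θ * I)))
      = (∫ θ in (-Real.pi)..Real.pi, GG (t + θ * I) * cexp (lam * (t + θ * I)))
        + ∫ θ in (-Real.pi)..Real.pi,
          ((t : ℂ) + θ * I) ^ (1 / 2 : ℂ) * (1 + aa / (t + θ * I)) * cexp (lam * (t + θ * I)) := by
    rw [← intervalIntegral.integral_add hi.intervalIntegrable (hlow.intervalIntegrable _ _)]
    refine intervalIntegral.integral_congr fun θ _ => ?_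
    simp only [GG]
    ring
  have hcomp := integral_add_compl (s := Ioc (-Real.pi) Real.pi) measurableSet_Ioc hi
  rw [← intervalIntegral.integral_of_le hle] at hcomp
  have b1 : ‖∫ θ in (-Real.pi)..Real.pi,
      ((t : ℂ) + θ * I) ^ (1 / 2 : ℂ) * (1 + aa / (t + θ * I)) * cexp (lam * (t + θ * I))‖
      ≤ 6 / t * Real.exp (lam * t) * (2 * Real.pi) := by
    refine (intervalIntegral.norm_integral_le_of_norm_le_const
      (C := 6 / t * Real.exp (lam * t)) fun θ hθ => ?_).trans (le_of_eq ?_)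
    · rw [uIoc_of_le hle] at hθ
      rw [norm_mul, tail_norm_exp]
      exact mul_le_mul_of_nonneg_right (norm_low_le t θ ht ht1 (abs_le.2 ⟨hθ.1.le, hθ.2⟩))
        (Real.exp_pos _).le
    · rw [abs_of_nonneg (by linarith)]
      ring
  have b2 : ‖∫ θ in (Ioc (-Real.pi) Real.pi)ᶜ, GG (t + θ * I) * cexp (lam * (t + θ * I))‖
      ≤ K * Real.exp (lam * t) := by
    refine (norm_integral_le_of_norm_le (hK.mul_const (Real.exp (lam * t))).integrableOn
      ?_).trans ?_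
    · filter_upwards [ae_restrict_mem measurableSet_Ioc.compl] with θ hθ
      rw [norm_mul, tail_norm_exp]
      refine mul_le_mul_of_nonneg_right (norm_GG_le t θ ht ?_) (Real.exp_pos _).le
      by_contra h
      have h' := abs_lt.1 (not_le.1 h)
      exact hθ ⟨h'.1, h'.2.le⟩
    · rw [hKdef, ← integral_mul_const]
      exact setIntegral_le_integral (hK.mul_const _)
        (Filter.Eventually.of_forall fun θ => by positivity)
  rw [← invert_GG t lam ht hl, hsplit, ← hcomp, ← mul_sub, add_sub_add_left_eq_sub, norm_mul]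
  have hn : ‖(1 / (2 * Real.pi) : ℂ)‖ = 1 / (2 * Real.pi) := by
    simp [abs_of_pos hπ]
  rw [hn]
  have he := Real.exp_pos (lam * t)
  have h3 : 1 / (2 * Real.pi) ≤ 1 := by
    rw [div_le_one (by positivity)]
    linarith [Real.pi_gt_three]
  have h4 : K * Real.exp (lam * t) ≤ K * Real.exp (lam * t) / t := by
    rw [le_div_iff₀ ht]
    exact mul_le_of_le_one_right (by positivity) ht1
  calc _ ≤ 1 / (2 * Real.pi) * (6 / t * Real.exp (lam * t) * (2 * Real.pi)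
        + K * Real.exp (lam * t)) :=
        mul_le_mul_of_nonneg_left ((norm_sub_le _ _).trans (add_le_add b1 b2)) (by positivity)
    _ = 6 * Real.exp (lam * t) / t + 1 / (2 * Real.pi) * (K * Real.exp (lam * t)) := by
        field_simp
    _ ≤ 6 * Real.exp (lam * t) / t + K * Real.exp (lam * t) / t :=
        add_le_add le_rfl ((mul_le_of_le_one_left (by positivity) h3).trans h4)
    _ ≤ (6 + K + 1) * Real.exp (lam * t) / t := by
        rw [← add_div]
        gcongr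
        linarith

end PNF
end

-- part Pool.Agent.P.MP_373cf5_nt.HRA
section

namespace PNF

open Complex

theorem hra_cont (t lam : ℝ) (ht : 0 < t) : Continuous fun θ : ℝ =>
    ((t : ℂ) + θ * I) ^ (1 / 2 : ℂ) * cexp (aa / (t + θ * I)) * cexp (lam * (t + θ * I)) := by
  have h0 : Continuous fun θ : ℝ => (t : ℂ) + θ * I := by fun_prop
  have h1 : ∀ θ : ℝ, (t : ℂ) + θ * I ∈ slitPlane := fun θ =>
    Complex.mem_slitPlane_iff.2 (Or.inl (by simpa using ht))
  refine ((h0.cpow continuous_const h1).mul ?_).mul (by fun_prop)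
  exact (continuous_const.div h0 fun θ => slitPlane_ne_zero (h1 θ)).cexp

/-- Circle method: `p(n)` against the model coefficient, for every admissible radius. -/
theorem pn_sub_gg : ∃ C : ℝ, 0 < C ∧ ∀ n : ℕ, 1 ≤ n → ∀ t : ℝ, 0 < t → t ≤ 1 →
    |(pn n : ℝ) - gg ((n : ℝ) - 1 / 24) / √(2 * Real.pi)| ≤
      C * (Real.exp (((n : ℝ) - 1 / 24) * t + aa / (4 * t)) +
        Real.exp (((n : ℝ) - 1 / 24) * t) / t) := by
  obtain ⟨C, hC, hM⟩ := model_integral
  refine ⟨C + 24, by linarith, fun n hn t ht ht1 => ?_⟩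
  obtain ⟨lam, hlam⟩ : ∃ lam : ℝ, lam = (n : ℝ) - 1 / 24 := ⟨_, rfl⟩
  rw [← hlam]
  have hn1 : (1 : ℝ) ≤ n := by exact_mod_cast hn
  have hl0 : 0 < lam := by linarith
  have hpi := Real.pi_pos
  have hs : Summable fun m : ℕ => ‖(pn m : ℂ)‖ * Real.exp (-t) ^ m := by
    simpa using summable_pn (Real.exp (-t)) (Real.exp_pos _).le
      (Real.exp_lt_one_iff.2 (by linarith))
  have hc := cauchy_coeff (fun m => (pn m : ℂ)) t hs n
  have hcont := continuous_series (fun m => (pn m : ℂ)) t hs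
  obtain ⟨s, hsd⟩ : ∃ s : ℝ, s = √(2 * Real.pi) := ⟨_, rfl⟩
  have hs1 : 1 ≤ s := by
    rw [hsd]
    exact Real.one_le_sqrt.2 (by linarith [Real.pi_gt_three])
  rw [← hsd]
  obtain ⟨g, hg⟩ : ∃ g : ℝ → ℂ, g = fun θ : ℝ =>
      ((t : ℂ) + θ * I) ^ (1 / 2 : ℂ) * cexp (aa / (t + θ * I)) * cexp (lam * (t + θ * I)) :=
    ⟨_, rfl⟩
  obtain ⟨f, hf⟩ : ∃ f : ℝ → ℂ, f = fun θ : ℝ =>
      (∑' m : ℕ, (pn m : ℂ) * cexp (-(t + θ * I)) ^ m) * cexp (n * (t + θ * I)) := ⟨_, rfl⟩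
  have hgc : Continuous g := hg ▸ hra_cont t lam ht
  have hfc : Continuous f := by
    rw [hf]
    exact hcont.mul (by fun_prop)
  have h1 := hM t lam ht ht1 hl0
  rw [← hg] at h1
  rw [← hf] at hc
  have hb : ∀ θ ∈ Set.uIoc (-Real.pi) Real.pi, ‖f θ - (s : ℂ)⁻¹ * g θ‖ ≤
      24 * Real.exp (lam * t + aa / (4 * t)) := by
    intro θ hθ
    rw [Set.uIoc_of_le (by linarith)] at hθ
    have h2 := PP_sub_model t θ ht ht1 (abs_le.2 ⟨hθ.1.le, hθ.2⟩)
    rw [← hsd] at h2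
    have e : f θ - (s : ℂ)⁻¹ * g θ = (PP (cexp (-(t + θ * I))) -
        (s : ℂ)⁻¹ * (t + θ * I) ^ (1 / 2 : ℂ) * cexp (-(t + θ * I) / 24 + aa / (t + θ * I))) *
          cexp (n * (t + θ * I)) := by
      have e1 : cexp (-(t + θ * I) / 24 + aa / (t + θ * I)) * cexp (n * (t + θ * I)) =
          cexp (aa / (t + θ * I)) * cexp (lam * (t + θ * I)) := by
        rw [← Complex.exp_add, ← Complex.exp_add, hlam]
        congr 1
        push_cast
        ring
      rw [hf, hg, sub_mul, mul_assoc (_ * _) (cexp _), e1]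
      simp only [PP]
      ring
    have e2 : ‖cexp (n * (t + θ * I))‖ ≤ 3 * Real.exp (lam * t) := by
      rw [Complex.norm_exp]
      have e3 : ((n : ℂ) * (t + θ * I)).re = t / 24 + lam * t := by
        rw [hlam]; simp; ring
      rw [e3, Real.exp_add]
      refine mul_le_mul_of_nonneg_right ?_ (Real.exp_pos _).le
      exact (Real.exp_le_exp.2 (by linarith)).trans (Real.exp_one_lt_d9.le.trans (by norm_num))
    rw [e, norm_mul, Real.exp_add]
    refine (mul_le_mul h2 e2 (norm_nonneg _) (by positivity)).trans (le_of_eq ?_)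
    ring
  have h3 := intervalIntegral.norm_integral_le_of_norm_le_const hb
  have hgc' : Continuous fun θ : ℝ => (s : ℂ)⁻¹ * g θ := continuous_const.mul hgc
  rw [intervalIntegral.integral_sub (hfc.intervalIntegrable _ _)
    (hgc'.intervalIntegrable _ _), intervalIntegral.integral_const_mul,
    sub_neg_eq_add, abs_of_pos (by linarith)] at h3
  have e4 : (((pn n : ℝ) - gg lam / s : ℝ) : ℂ) =
      (1 / (2 * Real.pi) : ℂ) * ((∫ θ in (-Real.pi)..Real.pi, f θ) -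
        (s : ℂ)⁻¹ * ∫ θ in (-Real.pi)..Real.pi, g θ) +
      (s : ℂ)⁻¹ * ((1 / (2 * Real.pi) : ℂ) * (∫ θ in (-Real.pi)..Real.pi, g θ) - (gg lam : ℂ)) := by
    push_cast
    rw [hc]
    ring
  have n1 : ‖(1 / (2 * Real.pi) : ℂ)‖ = 1 / (2 * Real.pi) := by
    rw [norm_div, norm_one, norm_mul, Complex.norm_real, Real.norm_eq_abs, abs_of_pos hpi]
    simp
  have n2 : ‖(s : ℂ)⁻¹‖ ≤ 1 := by
    rw [norm_inv, Complex.norm_real, Real.norm_eq_abs, abs_of_pos (by linarith)]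
    exact inv_le_one_of_one_le₀ hs1
  rw [← Real.norm_eq_abs, ← Complex.norm_real, e4]
  refine (norm_add_le _ _).trans ?_
  rw [norm_mul, norm_mul, n1]
  have a1 := mul_le_mul_of_nonneg_left h3 (show 0 ≤ 1 / (2 * Real.pi) by positivity)
  have a2 : 1 / (2 * Real.pi) * (24 * Real.exp (lam * t + aa / (4 * t)) * (Real.pi + Real.pi)) =
      24 * Real.exp (lam * t + aa / (4 * t)) := by
    field_simp
    ring
  have a3 := mul_le_mul n2 h1 (norm_nonneg _) zero_le_one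
  have a4 : 0 ≤ Real.exp (lam * t) / t := by positivity
  have a5 := Real.exp_pos (lam * t + aa / (4 * t))
  rw [a2] at a1
  rw [one_mul, mul_div_assoc] at a3
  nlinarith [mul_nonneg hC.le a5.le]

end PNF
end

-- part Pool.Agent.P.MP_373cf5_nt.HRB
section

namespace PNF

theorem two_sqrt_eq_mu (n : ℕ) (hn : 1 ≤ n) : 2 * √(aa * ((n : ℝ) - 1 / 24)) = mu n := by
  have h1 : aa * ((n : ℝ) - 1 / 24) = (Real.pi / 12) ^ 2 * (24 * (n : ℝ) - 1) := by
    unfold aa; ring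
  have hp : (0 : ℝ) ≤ Real.pi / 12 := by have := Real.pi_pos; positivity
  rw [h1, Real.sqrt_mul (sq_nonneg _), Real.sqrt_sq hp]
  unfold mu; ring

theorem hrb_exp_bound (m : ℝ) (hm : 0 ≤ m) : (m + 1) * Real.exp (-m) ≤ 1 := by
  have h := Real.add_one_le_exp m
  have h2 : Real.exp m * Real.exp (-m) = 1 := by rw [← Real.exp_add]; simp
  have h3 := Real.exp_pos (-m)
  nlinarith

theorem hrb_sqrt24 (x : ℝ) (_hx : 0 ≤ x) : √(24 * x) = 2 * √2 * √3 * √x := by
  have h : (24 : ℝ) * x = 2 ^ 2 * (2 * (3 * x)) := by ring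
  rw [h, Real.sqrt_mul (by norm_num), Real.sqrt_sq (by norm_num), Real.sqrt_mul (by norm_num),
    Real.sqrt_mul (by norm_num)]
  ring

theorem hrb_diff (n : ℕ) (hn : 1 ≤ n) :
    gg ((n : ℝ) - 1 / 24) / √(2 * Real.pi) - mainTerm n =
      (1 - (mu n + 1) * Real.exp (-(mu n)) / 2 - 2 * (aa * ((n : ℝ) - 1 / 24))) /
        (2 * √2 * Real.pi * (((n : ℝ) - 1 / 24) * √((n : ℝ) - 1 / 24))) := by
  have hn' : (1 : ℝ) ≤ n := by exact_mod_cast hn
  have hl : (0 : ℝ) < (n : ℝ) - 1 / 24 := by linarith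
  have h24 : 24 * (n : ℝ) - 1 = 24 * ((n : ℝ) - 1 / 24) := by ring
  unfold gg mainTerm
  rw [two_sqrt_eq_mu n hn, h24, hrb_sqrt24 _ hl.le, Real.sqrt_mul (by norm_num : (0 : ℝ) ≤ 2),
    Real.sinh_eq, Real.cosh_eq]
  set lam : ℝ := (n : ℝ) - 1 / 24 with hlam
  set m : ℝ := mu n
  have hs : 0 < √lam := Real.sqrt_pos.mpr hl
  have h2 : 0 < √(2 : ℝ) := Real.sqrt_pos.mpr (by norm_num)
  have h3 : 0 < √(3 : ℝ) := Real.sqrt_pos.mpr (by norm_num)
  have hpi : 0 < √Real.pi := Real.sqrt_pos.mpr Real.pi_pos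
  have hpp : Real.pi = √Real.pi * √Real.pi := (Real.mul_self_sqrt Real.pi_pos.le).symm
  set s := √lam
  set r2 := √(2 : ℝ)
  set r3 := √(3 : ℝ)
  set p := √Real.pi
  rw [hpp]
  field_simp
  ring

theorem gg_sub_main : ∃ C : ℝ, 0 < C ∧ ∀ n : ℕ, 1 ≤ n →
    |gg ((n : ℝ) - 1 / 24) / √(2 * Real.pi) - mainTerm n| ≤ C := by
  refine ⟨10, by norm_num, fun n hn => ?_⟩
  rw [hrb_diff n hn]
  have hn' : (1 : ℝ) ≤ n := by exact_mod_cast hn
  have hm : 0 ≤ mu n := by unfold mu; have := Real.pi_pos; positivity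
  have he := hrb_exp_bound _ hm
  have he0 : 0 ≤ (mu n + 1) * Real.exp (-(mu n)) := by positivity
  set E := (mu n + 1) * Real.exp (-(mu n))
  set lam : ℝ := (n : ℝ) - 1 / 24 with hlam
  have hl : (23 / 24 : ℝ) ≤ lam := by linarith
  have hs : (1 / 2 : ℝ) ≤ √lam := by
    apply Real.le_sqrt_of_sq_le; linarith
  have h2 : (1 : ℝ) ≤ √2 := by
    apply Real.le_sqrt_of_sq_le; norm_num
  have hpi := Real.pi_gt_three
  have ha := aa_lt
  have ha0 := aa_pos
  have hD1 : (6 : ℝ) ≤ 2 * √2 * Real.pi := by nlinarith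
  have hD2 : lam / 2 ≤ lam * √lam := by nlinarith
  have hD : 3 * lam ≤ 2 * √2 * Real.pi * (lam * √lam) := by nlinarith
  have hDpos : 0 < 2 * √2 * Real.pi * (lam * √lam) := by linarith
  rw [abs_div, abs_of_pos hDpos, div_le_iff₀ hDpos, abs_le]
  have hal : aa * lam ≤ 5 / 3 * lam := by nlinarith
  have hal0 : 0 ≤ aa * lam := by nlinarith
  constructor <;> linarith

end PNF
end

-- part Pool.Agent.P.MP_373cf5_nt.HR
section

namespace PNF

/-- Hardy-Ramanujan first term with the square-root error. -/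
theorem hardy_ramanujan : ∃ C : ℝ, 0 < C ∧ ∀ n : ℕ, 1 ≤ n →
    |(pn n : ℝ) - mainTerm n| ≤ C * Real.exp (mu n / 2) := by
  obtain ⟨C₁, hC₁, h₁⟩ := pn_sub_gg
  obtain ⟨C₂, hC₂, h₂⟩ := gg_sub_main
  refine ⟨5 * C₁ + C₂, by positivity, fun n hn => ?_⟩
  have hn' : (1 : ℝ) ≤ n := by exact_mod_cast hn
  set lam : ℝ := (n : ℝ) - 1 / 24 with hlam
  have hl : 23 / 24 ≤ lam := by rw [hlam]; linarith
  have hl0 : 0 < lam := by linarith
  have ha := aa_pos
  have ha1 := aa_lt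
  have ha2 := aa_gt
  have hmu : 2 * √(aa * lam) = mu n := two_sqrt_eq_mu n hn
  have hs : 0 < √(aa * lam) := Real.sqrt_pos.mpr (by positivity)
  have hm0 : 0 < mu n := by linarith
  have hsq : mu n ^ 2 = 4 * aa * lam := by
    rw [← hmu, mul_pow, Real.sq_sqrt (by positivity)]; ring
  set m := mu n with hm
  have ht0 : 0 < m / (4 * lam) := by positivity
  have ht1 : m / (4 * lam) ≤ 1 := by
    rw [div_le_one (by positivity)]
    have : m ^ 2 ≤ (4 * lam) ^ 2 := by rw [hsq]; nlinarith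
    exact (pow_le_pow_iff_left₀ hm0.le (by positivity) two_ne_zero).mp this
  have e1 : lam * (m / (4 * lam)) = m / 4 := by field_simp
  have e2 : aa / (4 * (m / (4 * lam))) = m / 4 := by
    field_simp
    linarith
  have key := h₁ n hn _ ht0 ht1
  rw [← hlam, e1, e2] at key
  have e3 : m / 4 + m / 4 = m / 2 := by ring
  rw [e3] at key
  have e4 : Real.exp (m / 4) / (m / (4 * lam)) ≤ 4 * Real.exp (m / 2) := by
    rw [div_le_iff₀ ht0]
    have h5 : m / 4 + 1 ≤ Real.exp (m / 4) := Real.add_one_le_exp _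
    have h6 : Real.exp (m / 2) = Real.exp (m / 4) * Real.exp (m / 4) := by
      rw [← Real.exp_add, e3]
    have h7 : 0 < Real.exp (m / 4) := Real.exp_pos _
    have h8 : 1 ≤ 4 * Real.exp (m / 4) * (m / (4 * lam)) := by
      have : 4 * Real.exp (m / 4) * (m / (4 * lam)) = Real.exp (m / 4) * m / lam := by
        field_simp
      rw [this, le_div_iff₀ hl0]
      nlinarith
    rw [h6]
    nlinarith
  have h9 : 1 ≤ Real.exp (m / 2) := Real.one_le_exp (by positivity)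
  have k2 := h₂ n hn
  rw [← hlam] at k2
  have tri := abs_sub_le (pn n : ℝ) (gg lam / √(2 * Real.pi)) (mainTerm n)
  have : C₁ * (Real.exp (m / 2) + Real.exp (m / 4) / (m / (4 * lam))) ≤
      C₁ * (5 * Real.exp (m / 2)) := by
    apply mul_le_mul_of_nonneg_left _ hC₁.le
    linarith
  nlinarith

end PNF
end

-- part Pool.Agent.P.MP_373cf5_nt.HRrel
section

namespace PNF

theorem nx_spec (D x : ℕ) (hD : D % 24 = 23) (hx : x.Prime) (h5 : 5 ≤ x) :
    24 * nx D x = D * x ^ 2 + 1 := by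
  have h2 : ¬ 2 ∣ x := fun h => by
    have := (Nat.prime_dvd_prime_iff_eq Nat.prime_two hx).1 h
    omega
  have h3 : ¬ 3 ∣ x := fun h => by
    have := (Nat.prime_dvd_prime_iff_eq Nat.prime_three hx).1 h
    omega
  have h4 : x ^ 2 % 24 = 1 := by
    have h6 : x % 24 = 1 ∨ x % 24 = 5 ∨ x % 24 = 7 ∨ x % 24 = 11 ∨ x % 24 = 13 ∨ x % 24 = 17 ∨
        x % 24 = 19 ∨ x % 24 = 23 := by omega
    rw [Nat.pow_mod]
    rcases h6 with h | h | h | h | h | h | h | h <;> rw [h]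
  have h6 : (D * x ^ 2) % 24 = 23 := by rw [Nat.mul_mod, hD, h4]
  unfold nx
  omega

theorem hrRel_main {μ y : ℝ} (h2 : 2 ≤ μ) (h3 : μ ≤ y) (h4 : y ≤ 2 * μ) :
    Real.exp μ / (16 * μ ^ 2) ≤ 12 * √3 / Real.pi * (μ - 1) * Real.exp μ / y ^ 3 ∧
      12 * √3 / Real.pi * (μ - 1) * Real.exp μ / y ^ 3 ≤ 7 * Real.exp μ := by
  have hμ : 0 < μ := by linarith
  have hy : 0 < y := by linarith
  have he := Real.exp_pos μ
  have s1 : (1 : ℝ) ≤ √3 := Real.one_le_sqrt.2 (by norm_num)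
  have s2 : √3 ≤ 7 / 4 := Real.sqrt_le_iff.2 ⟨by norm_num, by norm_num⟩
  have c1 : (1 : ℝ) ≤ 12 * √3 / Real.pi := by
    rw [le_div_iff₀ Real.pi_pos]
    linarith [Real.pi_le_four]
  have c2 : 12 * √3 / Real.pi ≤ 7 := by
    rw [div_le_iff₀ Real.pi_pos]
    linarith [Real.pi_gt_three]
  generalize 12 * √3 / Real.pi = c at c1 c2
  constructor
  · have h5 : y ^ 3 ≤ (2 * μ) ^ 3 := pow_le_pow_left₀ hy.le h4 3
    calc Real.exp μ / (16 * μ ^ 2) = 1 * (μ / 2) * Real.exp μ / (2 * μ) ^ 3 := by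
          field_simp
          ring
      _ ≤ c * (μ - 1) * Real.exp μ / y ^ 3 := by
          have h6 : μ / 2 ≤ μ - 1 := by linarith
          have h7 : 0 ≤ μ - 1 := by linarith
          gcongr
  · rw [div_le_iff₀ (by positivity)]
    have h5 : μ - 1 ≤ y ^ 3 := by
      have h6 : y ^ 1 ≤ y ^ 3 := pow_le_pow_right₀ (by linarith) (by norm_num)
      linarith
    have h6 : c * (μ - 1) ≤ 7 * y ^ 3 := mul_le_mul c2 h5 (by linarith) (by norm_num)
    nlinarith

theorem hr_rel : ∃ C₀ : ℝ, 1 ≤ C₀ ∧ ∀ D x : ℕ, D % 24 = 23 → x.Prime → 5 ≤ x →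
    (pn (nx D x) : ℝ) ≤ C₀ * Real.exp (kap D * x) ∧
    ∃ e : ℝ, |e| ≤ C₀ * Real.exp (-(kap D * x) / 3) ∧
      (pn (nx D x) : ℝ) = 12 * √3 / (Real.pi * (D * √(D : ℝ))) *
        ((kap D * x - 1) / (x : ℝ) ^ 3) * Real.exp (kap D * x) * (1 + e) := by
  obtain ⟨C, hC, h⟩ := hardy_ramanujan
  refine ⟨1152 * C + 7, by linarith, fun D x hD hx h5 => ?_⟩
  have h1 := nx_spec D x hD hx h5
  have h2 := h (nx D x) (by omega)
  have h3 : 24 * (nx D x : ℝ) - 1 = D * (x : ℝ) ^ 2 := by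
    have : (24 * (nx D x : ℝ)) = D * (x : ℝ) ^ 2 + 1 := by exact_mod_cast h1
    linarith
  have hx5 : (5 : ℝ) ≤ x := by exact_mod_cast h5
  have hD1 : (1 : ℝ) ≤ D := by exact_mod_cast (show 1 ≤ D by omega)
  have hs : (1 : ℝ) ≤ √(D : ℝ) := Real.one_le_sqrt.2 hD1
  have hss : √(D : ℝ) * √(D : ℝ) = D := Real.mul_self_sqrt (by linarith)
  have h4 : √(D * (x : ℝ) ^ 2) = √(D : ℝ) * x := by
    rw [Real.sqrt_mul (by linarith), Real.sqrt_sq (by linarith)]
  have hmu : mu (nx D x) = kap D * x := by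
    unfold mu kap
    rw [h3, h4]
    ring
  have hy : (5 : ℝ) ≤ √(D : ℝ) * x := by nlinarith
  have hk : kap D * x = Real.pi * (√(D : ℝ) * x) / 6 := by
    unfold kap
    ring
  have hm : mainTerm (nx D x) =
      12 * √3 / Real.pi * (kap D * x - 1) * Real.exp (kap D * x) / (√(D : ℝ) * x) ^ 3 := by
    unfold mainTerm
    rw [hmu, h3, h4]
    congr 1
    linear_combination (-(√(D : ℝ)) * (x : ℝ) ^ 3) * hss
  have hm' : mainTerm (nx D x) = 12 * √3 / (Real.pi * (D * √(D : ℝ))) *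
      ((kap D * x - 1) / (x : ℝ) ^ 3) * Real.exp (kap D * x) := by
    rw [hm, show (√(D : ℝ) * x) ^ 3 = D * √(D : ℝ) * (x : ℝ) ^ 3 by
      linear_combination (√(D : ℝ) * (x : ℝ) ^ 3) * hss]
    have := Real.pi_pos
    field_simp
  have hp3 := Real.pi_gt_three
  have hp4 := Real.pi_le_four
  have hμ2 : 2 ≤ kap D * x := by rw [hk]; nlinarith
  obtain ⟨b1, b2⟩ := hrRel_main (μ := kap D * x) (y := √(D : ℝ) * x) hμ2
    (by rw [hk]; nlinarith) (by rw [hk]; nlinarith)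
  rw [← hm] at b1 b2
  rw [← hm']
  rw [hmu] at h2
  generalize kap D * x = μ at *
  generalize mainTerm (nx D x) = m at *
  generalize (pn (nx D x) : ℝ) = p at *
  have hμ : 0 < μ := by linarith
  have hm0 : 0 < m := lt_of_lt_of_le (by positivity) b1
  have e1 : Real.exp (μ / 2) ≤ Real.exp μ := Real.exp_le_exp.2 (by linarith)
  refine ⟨?_, (p - m) / m, ?_, by field_simp; ring⟩
  · have := (abs_le.1 h2).2
    nlinarith [Real.exp_pos μ]
  · rw [abs_div, abs_of_pos hm0]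
    have e2 : μ ^ 2 ≤ 72 * Real.exp (μ / 6) := by
      have := Real.quadratic_le_exp_of_nonneg (show 0 ≤ μ / 6 by linarith)
      nlinarith
    have e3 : Real.exp (μ / 2) * Real.exp (μ / 6) = Real.exp (-μ / 3) * Real.exp μ := by
      rw [← Real.exp_add, ← Real.exp_add]
      congr 1
      ring
    calc |p - m| / m ≤ C * Real.exp (μ / 2) / (Real.exp μ / (16 * μ ^ 2)) := by gcongr
      _ = 16 * C * Real.exp (μ / 2) * μ ^ 2 / Real.exp μ := by field_simp
      _ ≤ 16 * C * Real.exp (μ / 2) * (72 * Real.exp (μ / 6)) / Real.exp μ := by gcongr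
      _ = 1152 * C * (Real.exp (μ / 2) * Real.exp (μ / 6)) / Real.exp μ := by ring
      _ = 1152 * C * Real.exp (-μ / 3) := by rw [e3]; field_simp
      _ ≤ _ := by nlinarith [Real.exp_pos (-μ / 3)]

end PNF
end

-- part Pool.Agent.P.MP_373cf5_nt.Rel
section

namespace PNF

open Polynomial

theorem rel_err {η : ℝ} (hη : 0 ≤ η) {A : Finset ℕ} {e : ℕ → ℝ} {d : ℕ} (hd : A.card ≤ d)
    (he : ∀ x ∈ A, |e x| ≤ η) (hdη : d * η ≤ 1) : |∏ x ∈ A, (1 + e x) - 1| ≤ 2 * (d * η) := by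
  have h0 : 0 ≤ d * η := by positivity
  have h1 : ∑ x ∈ A, ‖e x‖ ≤ d * η := by
    refine (Finset.sum_le_card_nsmul A _ η he).trans ?_
    rw [nsmul_eq_mul]
    gcongr
  have h2 := Real.abs_exp_sub_one_le (x := d * η) (by rwa [abs_of_nonneg h0])
  rw [abs_of_nonneg h0] at h2
  refine (Finset.norm_prod_one_add_sub_one_le A e).trans (le_trans ?_ ((le_abs_self _).trans h2))
  gcongr

theorem rel_size {κ Y : ℝ} (hκ : 0 ≤ κ) (hY : 1 ≤ Y) {A B : Finset ℕ} {d : ℕ}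
    (hA : ∀ x ∈ A, (x : ℝ) ≤ Y) (hB : ∀ x ∈ B, (x : ℝ) ≤ Y) (dA : A.card ≤ d) (dB : B.card ≤ d) :
    |(∏ x ∈ B, (x : ℝ) ^ 3) * ∏ x ∈ A, (κ * x - 1)| ≤ ((κ + 2) * Y) ^ d * Y ^ (3 * d) := by
  rw [abs_mul, mul_comm, Finset.abs_prod, Finset.abs_prod, pow_mul]
  have h1 : 1 ≤ (κ + 2) * Y := by nlinarith
  have h0 : ∀ (S : Finset ℕ) (f : ℕ → ℝ) (M : ℝ), 1 ≤ M → S.card ≤ d → (∀ x ∈ S, |f x| ≤ M) →
      ∏ x ∈ S, |f x| ≤ M ^ d := fun S f M hM hS h =>
    (Finset.prod_le_prod (fun _ _ => abs_nonneg _) h).trans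
      ((Finset.prod_const M).trans_le (pow_le_pow_right₀ hM hS))
  refine mul_le_mul (h0 _ _ _ h1 dA fun x hx => ?_) (h0 _ _ _ (one_le_pow₀ hY) dB fun x hx => ?_)
    (by positivity) (by positivity)
  · have h2 := mul_le_mul_of_nonneg_left (hA x hx) hκ
    have h3 : 0 ≤ κ * x := by positivity
    exact abs_le.2 ⟨by linarith, by linarith⟩
  · rw [abs_of_nonneg (by positivity)]
    exact pow_le_pow_left₀ (by positivity) (hB x hx) 3

theorem rel_small (κ c η Y : ℝ) (hκ : 0 ≤ κ) (hc : 0 < c) (hη : 0 ≤ η) (hY : 1 ≤ Y)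
    (A B : Finset ℕ) (w : ℕ → ℕ) (e : ℕ → ℝ) (d : ℕ)
    (hAB : ∀ x ∈ A ∪ B, 1 ≤ x ∧ (x : ℝ) ≤ Y) (hcard : A.card = B.card) (hd : A.card ≤ d)
    (hsum : ∑ x ∈ A, x = ∑ x ∈ B, x) (hprod : ∏ x ∈ A, w x = ∏ x ∈ B, w x)
    (hw : ∀ x ∈ A ∪ B, (w x : ℝ) = c * ((κ * x - 1) / (x : ℝ) ^ 3) * Real.exp (κ * x) * (1 + e x))
    (he : ∀ x ∈ A ∪ B, |e x| ≤ η) (hdη : d * η ≤ 1) :
    |aeval κ (QQ A B)| ≤ 4 * ((κ + 2) * Y) ^ d * Y ^ (3 * d) * (d * η) := by
  have key : ∀ S : Finset ℕ, S ⊆ A ∪ B → ((∏ x ∈ S, w x : ℕ) : ℝ) * ∏ x ∈ S, (x : ℝ) ^ 3 =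
      c ^ S.card * Real.exp (κ * (∑ x ∈ S, x : ℕ)) *
        ((∏ x ∈ S, (κ * x - 1)) * ∏ x ∈ S, (1 + e x)) := by
    intro S hS
    rw [Nat.cast_prod, Nat.cast_sum, Finset.mul_sum, Real.exp_sum, ← Finset.prod_const,
      ← Finset.prod_mul_distrib, ← Finset.prod_mul_distrib, ← Finset.prod_mul_distrib,
      ← Finset.prod_mul_distrib]
    refine Finset.prod_congr rfl fun x hx => ?_
    have h0 : (x : ℝ) ≠ 0 := Nat.cast_ne_zero.2 (by have := (hAB x (hS hx)).1; omega)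
    rw [hw x (hS hx)]
    field_simp
  have l := Finset.subset_union_left (s₁ := A) (s₂ := B)
  have r := Finset.subset_union_right (s₁ := A) (s₂ := B)
  have kA := key A l
  have kB := key B r
  rw [← hprod, ← hcard, ← hsum] at kB
  have u := rel_size hκ hY (fun x hx => (hAB x (l hx)).2) (fun x hx => (hAB x (r hx)).2) hd
    (hcard ▸ hd)
  have v := rel_size hκ hY (fun x hx => (hAB x (r hx)).2) (fun x hx => (hAB x (l hx)).2)
    (hcard ▸ hd) hd
  have a := rel_err hη hd (fun x hx => he x (l hx)) hdη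
  have b := rel_err hη (hcard ▸ hd) (fun x hx => he x (r hx)) hdη
  have e1 : aeval κ (QQ A B) =
      -((∏ x ∈ B, (x : ℝ) ^ 3) * ∏ x ∈ A, (κ * x - 1)) * (∏ x ∈ A, (1 + e x) - 1) +
        ((∏ x ∈ A, (x : ℝ) ^ 3) * ∏ x ∈ B, (κ * x - 1)) * (∏ x ∈ B, (1 + e x) - 1) := by
    have e2 : aeval κ (QQ A B) = (∏ x ∈ B, (x : ℝ) ^ 3) * ∏ x ∈ A, (κ * x - 1) -
        (∏ x ∈ A, (x : ℝ) ^ 3) * ∏ x ∈ B, (κ * x - 1) := by
      simp [QQ, map_prod, mul_comm κ]
    rw [e2]
    refine mul_left_cancel₀ (a := c ^ A.card * Real.exp (κ * (∑ x ∈ A, x : ℕ)))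
      (by positivity) ?_
    linear_combination (-∏ x ∈ B, (x : ℝ) ^ 3) * kA + (∏ x ∈ A, (x : ℝ) ^ 3) * kB
  rw [e1]
  refine (abs_add_le _ _).trans ?_
  rw [abs_mul, abs_neg, abs_mul (_ * _)]
  linarith [mul_le_mul u a (abs_nonneg _) (by positivity),
    mul_le_mul v b (abs_nonneg _) (by positivity)]

end PNF
end

-- part Pool.Agent.P.MP_373cf5_nt.Coeff
section

namespace PNF

open Polynomial

theorem coeff_natDegree_prod (A : Finset ℕ) :
    (∏ x ∈ A, (C (x : ℤ) * X - 1 : ℤ[X])).natDegree ≤ A.card := by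
  refine (natDegree_prod_le _ _).trans ?_
  rw [Finset.card_eq_sum_ones]
  refine Finset.sum_le_sum fun x _ => ?_
  compute_degree

theorem natDegree_QQ_le (A B : Finset ℕ) (d : ℕ) (hA : A.card ≤ d) (hB : B.card ≤ d) :
    (QQ A B).natDegree ≤ d :=
  (natDegree_sub_le _ _).trans (max_le
    ((natDegree_C_mul_le _ _).trans ((coeff_natDegree_prod A).trans hA))
    ((natDegree_C_mul_le _ _).trans ((coeff_natDegree_prod B).trans hB)))

theorem coeff_prod_lin (a c : ℕ → ℝ) (M : ℝ) (A : Finset ℕ)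
    (h : ∀ x ∈ A, |a x| + |c x| ≤ M) (k : ℕ) :
    |(∏ x ∈ A, (C (a x) * X + C (c x))).coeff k| ≤ M ^ A.card := by
  induction A using Finset.induction_on generalizing k with
  | empty =>
    rw [Finset.prod_empty, coeff_one]
    split_ifs <;> simp
  | insert y A hy ih =>
    have h1 := h y (Finset.mem_insert_self _ _)
    have ih' := ih fun x hx => h x (Finset.mem_insert_of_mem hx)
    have h0 : 0 ≤ M ^ A.card := (abs_nonneg _).trans (ih' 0)
    have ha := abs_nonneg (a y)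
    have hc := abs_nonneg (c y)
    rw [Finset.prod_insert hy, Finset.card_insert_of_notMem hy, add_mul, mul_assoc, coeff_add,
      coeff_C_mul, coeff_C_mul, pow_succ']
    refine (abs_add_le _ _).trans ?_
    rw [abs_mul, abs_mul]
    have h2 : |(X * ∏ x ∈ A, (C (a x) * X + C (c x))).coeff k| ≤ M ^ A.card := by
      cases k with
      | zero => simpa using h0
      | succ k => rw [coeff_X_mul]; exact ih' k
    calc _ ≤ |a y| * M ^ A.card + |c y| * M ^ A.card :=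
          add_le_add (mul_le_mul_of_nonneg_left h2 ha) (mul_le_mul_of_nonneg_left (ih' k) hc)
      _ = (|a y| + |c y|) * M ^ A.card := by ring
      _ ≤ _ := mul_le_mul_of_nonneg_right h1 h0

theorem coeff_term_le (κ Y : ℝ) (hκ : 0 ≤ κ) (hY : 1 ≤ Y) (A B : Finset ℕ)
    (h1 : ∀ x ∈ A, (x : ℝ) ≤ Y) (h2 : ∀ x ∈ B, (x : ℝ) ≤ Y) (d : ℕ) (hA : A.card ≤ d)
    (hB : B.card ≤ d) (k : ℕ) :
    |(taylor κ ((C (∏ x ∈ B, (x : ℤ) ^ 3) * ∏ x ∈ A, (C (x : ℤ) * X - 1)).map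
      (Int.castRingHom ℝ))).coeff k| ≤ ((κ + 2) * Y) ^ d * Y ^ (3 * d) := by
  have e : taylor κ ((C (∏ x ∈ B, (x : ℤ) ^ 3) * ∏ x ∈ A, (C (x : ℤ) * X - 1)).map
      (Int.castRingHom ℝ)) = C (∏ x ∈ B, (x : ℝ) ^ 3) *
        ∏ x ∈ A, (C (x : ℝ) * X + C ((x : ℝ) * κ - 1)) := by
    rw [Polynomial.map_mul, Polynomial.map_prod, taylor_mul, map_C, taylor_C]
    congr 1
    · simp
    · rw [← taylorAlgHom_apply, map_prod]
      refine Finset.prod_congr rfl fun x _ => ?_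
      rw [taylorAlgHom_apply, Polynomial.map_sub, Polynomial.map_mul, map_C, map_X,
        Polynomial.map_one, map_sub, taylor_mul, taylor_C, taylor_X, taylor_one]
      simp only [eq_intCast, Int.cast_natCast, map_sub, map_mul, map_one]
      ring
  have hM : 1 ≤ (κ + 2) * Y := by nlinarith
  have h3 := coeff_prod_lin (fun x => (x : ℝ)) (fun x => (x : ℝ) * κ - 1) ((κ + 2) * Y) A
    (fun x hx => by
      have h4 := h1 x hx
      have h5 : (0 : ℝ) ≤ x := Nat.cast_nonneg x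
      have h6 : (x : ℝ) * κ ≤ Y * κ := mul_le_mul_of_nonneg_right h4 hκ
      have h7 : 0 ≤ (x : ℝ) * κ := mul_nonneg h5 hκ
      have h8 : |(x : ℝ) * κ - 1| ≤ x * κ + 1 := abs_le.2 ⟨by linarith, by linarith⟩
      rw [abs_of_nonneg h5]
      linarith) k
  have h4 : ∏ x ∈ B, (x : ℝ) ^ 3 ≤ Y ^ (3 * d) := by
    calc _ ≤ ∏ _x ∈ B, Y ^ 3 := Finset.prod_le_prod (fun x _ => by positivity) fun x hx =>
            pow_le_pow_left₀ (Nat.cast_nonneg x) (h2 x hx) 3
      _ = Y ^ (3 * B.card) := by rw [Finset.prod_const, pow_mul]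
      _ ≤ _ := pow_le_pow_right₀ hY (by omega)
  rw [e, coeff_C_mul, abs_mul, mul_comm, abs_of_nonneg (a := ∏ x ∈ B, (x : ℝ) ^ 3) (by positivity)]
  exact mul_le_mul (h3.trans (pow_le_pow_right₀ hM hA)) h4 (by positivity) (by positivity)

theorem taylor_coeff_le (κ Y : ℝ) (hκ : 0 ≤ κ) (hY : 1 ≤ Y) (A B : Finset ℕ)
    (h : ∀ x ∈ A ∪ B, (x : ℝ) ≤ Y) (d : ℕ) (hA : A.card ≤ d) (hB : B.card ≤ d) (k : ℕ) :
    |(taylor κ ((QQ A B).map (Int.castRingHom ℝ))).coeff k| ≤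
      2 * ((κ + 2) * Y) ^ d * Y ^ (3 * d) := by
  have h1 : ∀ x ∈ A, (x : ℝ) ≤ Y := fun x hx => h x (Finset.mem_union_left _ hx)
  have h2 : ∀ x ∈ B, (x : ℝ) ≤ Y := fun x hx => h x (Finset.mem_union_right _ hx)
  have h3 := coeff_term_le κ Y hκ hY A B h1 h2 d hA hB k
  have h4 := coeff_term_le κ Y hκ hY B A h2 h1 d hB hA k
  rw [QQ, Polynomial.map_sub, map_sub, coeff_sub]
  refine (abs_sub _ _).trans ?_
  linarith

theorem coeff_QQ_le (Y : ℝ) (hY : 1 ≤ Y) (A B : Finset ℕ)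
    (h : ∀ x ∈ A ∪ B, (x : ℝ) ≤ Y) (d : ℕ) (hA : A.card ≤ d) (hB : B.card ≤ d) (k : ℕ) :
    |((QQ A B).coeff k : ℝ)| ≤ 2 * (2 * Y) ^ d * Y ^ (3 * d) := by
  have := taylor_coeff_le 0 Y le_rfl hY A B h d hA hB k
  rwa [taylor_zero, coeff_map, zero_add] at this

theorem QQ_ne_zero (A B : Finset ℕ) (hdisj : Disjoint A B) (hB : B.Nonempty)
    (h0 : ∀ x ∈ A ∪ B, x ≠ 0) : QQ A B ≠ 0 := by
  intro h
  obtain ⟨b, hb⟩ := hB
  have hb0 : (b : ℚ) ≠ 0 := Nat.cast_ne_zero.2 (h0 b (Finset.mem_union_right _ hb))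
  have h1 := congrArg (aeval ((b : ℚ)⁻¹)) h
  have h2 : ∏ x ∈ B, ((x : ℚ) * (b : ℚ)⁻¹ - 1) = 0 :=
    Finset.prod_eq_zero hb (by rw [mul_inv_cancel₀ hb0, sub_self])
  simp only [QQ, map_sub, map_mul, map_prod, aeval_X, map_one, map_zero, map_pow,
    map_natCast, h2, mul_zero, sub_zero] at h1
  rcases mul_eq_zero.1 h1 with h3 | h3
  · obtain ⟨x, hx, h4⟩ := Finset.prod_eq_zero_iff.1 h3
    exact h0 x (Finset.mem_union_right _ hx) (Nat.cast_eq_zero.1 (pow_eq_zero_iff (by norm_num) |>.1 h4))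
  · obtain ⟨x, hx, h4⟩ := Finset.prod_eq_zero_iff.1 h3
    have h5 : (x : ℚ) = b := (mul_inv_eq_one₀ hb0).1 (sub_eq_zero.1 h4)
    exact Finset.disjoint_left.1 hdisj hx (Nat.cast_injective h5 ▸ hb)

end PNF
end

-- part Pool.Agent.P.MP_373cf5_nt.BigPrimes
section

namespace PNF

theorem card_big_primes (F : ℤ) (hF : F ≠ 0) (X K : ℕ) (hX : 2 ≤ X)
    (h : |(F : ℝ)| ≤ (X : ℝ) ^ K) (V : Finset ℕ)
    (hV : ∀ l ∈ V, l.Prime ∧ X < l ∧ (l : ℤ) ∣ F) : V.card ≤ K := by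
  have h1 : ∏ l ∈ V, l ∣ F.natAbs := by
    apply Finset.prod_primes_dvd
    · intro a ha; exact (hV a ha).1.prime
    · intro a ha; exact Int.natCast_dvd.mp (hV a ha).2.2
  have h2 : ∏ l ∈ V, l ≤ F.natAbs := Nat.le_of_dvd (Int.natAbs_pos.mpr hF) h1
  have h3 : X ^ V.card ≤ ∏ l ∈ V, l :=
    Finset.pow_card_le_prod V (fun l => l) X (fun l hl => (hV l hl).2.1.le)
  have h4 : F.natAbs ≤ X ^ K := by
    have : ((F.natAbs : ℕ) : ℝ) ≤ ((X ^ K : ℕ) : ℝ) := by
      rw [Nat.cast_natAbs]; push_cast; exact h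
    exact_mod_cast this
  exact (Nat.pow_le_pow_iff_right (by omega)).mp (h3.trans (h2.trans h4))

end PNF
end

-- part Pool.Agent.P.MP_373cf5_nt.Edges
section

namespace PNF

open Polynomial Classical

/-- the homogenised value `y ^ d P (1 / y)` -/
noncomputable def edges_F (P : ℤ[X]) (d y : ℕ) : ℤ :=
  ∑ k ∈ Finset.range (d + 1), P.coeff k * (y : ℤ) ^ (d - k)

theorem edges_cast (P : ℤ[X]) (d y : ℕ) (hd : P.natDegree ≤ d) (R : Type) [Field R]
    (hy : (y : R) ≠ 0) :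
    (edges_F P d y : R) = (y : R) ^ d * (P.map (Int.castRingHom R)).eval ((y : R)⁻¹) := by
  rw [eval_eq_sum_range' (n := d + 1) (Nat.lt_succ_of_le (natDegree_map_le.trans hd)),
    Finset.mul_sum, edges_F]
  push_cast
  refine Finset.sum_congr rfl fun k hk => ?_
  have hk' : k ≤ d := Nat.lt_succ_iff.1 (Finset.mem_range.1 hk)
  rw [coeff_map, eq_intCast, pow_sub₀ _ hy hk', inv_pow]
  ring

theorem edges_bound (P : ℤ[X]) (d y : ℕ) (H Y : ℝ) (hH : ∀ k, |(P.coeff k : ℝ)| ≤ H)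
    (hY : 1 ≤ Y) (hy : (y : ℝ) ≤ Y) : |(edges_F P d y : ℝ)| ≤ (d + 1) * H * Y ^ d := by
  have h0 : 0 ≤ H := (abs_nonneg _).trans (hH 0)
  rw [edges_F]
  push_cast
  refine (Finset.abs_sum_le_sum_abs _ _).trans ?_
  have h : ∀ k ∈ Finset.range (d + 1), |(P.coeff k : ℝ) * (y : ℝ) ^ (d - k)| ≤ H * Y ^ d := by
    intro k _
    rw [abs_mul, abs_of_nonneg (by positivity : (0 : ℝ) ≤ (y : ℝ) ^ (d - k))]
    refine mul_le_mul (hH k) ?_ (by positivity) h0
    exact (pow_le_pow_left₀ (by positivity) hy _).trans (pow_le_pow_right₀ hY (Nat.sub_le _ _))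
  refine (Finset.sum_le_sum h).trans (le_of_eq ?_)
  simp only [Finset.sum_const, Finset.card_range, nsmul_eq_mul]
  push_cast
  ring

theorem edges_roots (P : ℤ[X]) (hP : P ≠ 0) (d : ℕ) (hd : P.natDegree ≤ d) (V : Finset ℕ)
    (hV : ∀ x ∈ V, 0 < x) : (V.filter fun y => edges_F P d y = 0).card ≤ d := by
  have hm : P.map (Int.castRingHom ℚ) ≠ 0 :=
    (Polynomial.map_ne_zero_iff (RingHom.injective_int _)).2 hP
  refine le_trans (Finset.card_le_card_of_injOn (t := (P.map (Int.castRingHom ℚ)).roots.toFinset)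
    (fun y => ((y : ℚ))⁻¹) ?_ ?_) ?_
  · intro y hy
    rw [Finset.coe_filter] at hy
    have hy0 : (y : ℚ) ≠ 0 := by exact_mod_cast (hV y hy.1).ne'
    have h := edges_cast P d y hd ℚ hy0
    rw [hy.2, Int.cast_zero] at h
    simp only [Finset.mem_coe, Multiset.mem_toFinset, mem_roots hm, IsRoot.def]
    exact (mul_eq_zero.1 h.symm).resolve_left (pow_ne_zero _ hy0)
  · intro a _ b _ hab
    exact_mod_cast inv_injective hab
  · exact (Multiset.toFinset_card_le _).trans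
      ((card_roots' _).trans (natDegree_map_le.trans hd))

theorem edges_dvd (P : ℤ[X]) (d y l : ℕ) (hd : P.natDegree ≤ d) (hy : y.Prime) (hl : l.Prime)
    (hne : l ≠ y) (hb : Bad P y l) : (l : ℤ) ∣ edges_F P d y := by
  have : Fact l.Prime := ⟨hl⟩
  have hy0 : (y : ZMod l) ≠ 0 := by
    rw [Ne, ZMod.natCast_eq_zero_iff]
    exact fun h => hne ((Nat.prime_dvd_prime_iff_eq hl hy).1 h)
  rw [← ZMod.intCast_zmod_eq_zero_iff_dvd, edges_cast P d y hd (ZMod l) hy0]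
  exact mul_eq_zero_of_right _ hb

theorem edges (P : ℤ[X]) (hP : P ≠ 0) (d K X₀ : ℕ) (hX : 2 ≤ X₀) (hd : P.natDegree ≤ d)
    (H Y : ℝ) (hH : ∀ k, |(P.coeff k : ℝ)| ≤ H) (hY : 1 ≤ Y)
    (hK : (d + 1) * H * Y ^ d ≤ (X₀ : ℝ) ^ K) (V : Finset ℕ)
    (hV : ∀ x ∈ V, x.Prime ∧ X₀ < x ∧ (x : ℝ) ≤ Y) :
    ∃ V' ⊆ V, V.card ≤ V'.card + d + K ∧ (∀ l ∈ V', ¬ (l : ℤ) ∣ P.leadingCoeff) ∧
      ∀ y ∈ V', (V'.filter fun l => l ≠ y ∧ Bad P y l).card ≤ K := by
  have h0 : 0 ≤ H := (abs_nonneg _).trans (hH 0)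
  refine ⟨V.filter fun y => edges_F P d y ≠ 0 ∧ ¬ (y : ℤ) ∣ P.leadingCoeff,
    Finset.filter_subset _ _, ?_, fun l hl => (Finset.mem_filter.1 hl).2.2, fun y hy => ?_⟩
  · have h1 := edges_roots P hP d hd V fun x hx => (hV x hx).1.pos
    have h2 : (V.filter fun l : ℕ => (l : ℤ) ∣ P.leadingCoeff).card ≤ K := by
      refine card_big_primes P.leadingCoeff (leadingCoeff_ne_zero.2 hP) X₀ K hX ?_ _
        fun l hl => ?_
      · refine (hH _).trans (le_trans ?_ hK)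
        have h3 : (1 : ℝ) ≤ Y ^ d := one_le_pow₀ hY
        have h4 : (0 : ℝ) ≤ d := by positivity
        have h5 : H ≤ (d + 1) * H := by nlinarith
        exact h5.trans (le_mul_of_one_le_right (by positivity) h3)
      · rw [Finset.mem_filter] at hl
        exact ⟨(hV l hl.1).1, (hV l hl.1).2.1, hl.2⟩
    have h3 : V ⊆ (V.filter fun y => edges_F P d y ≠ 0 ∧ ¬ (y : ℤ) ∣ P.leadingCoeff) ∪
        (V.filter fun y => edges_F P d y = 0) ∪
        (V.filter fun l : ℕ => (l : ℤ) ∣ P.leadingCoeff) := by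
      intro y hy
      simp only [Finset.mem_union, Finset.mem_filter]
      tauto
    have h4 := (Finset.card_le_card h3).trans ((Finset.card_union_le _ _).trans
      (Nat.add_le_add_right (Finset.card_union_le _ _) _))
    omega
  · rw [Finset.mem_filter] at hy
    refine card_big_primes (edges_F P d y) hy.2.1 X₀ K hX
      ((edges_bound P d y H Y hH hY (hV y hy.1).2.2).trans hK) _ fun l hl => ?_
    rw [Finset.mem_filter, Finset.mem_filter] at hl
    exact ⟨(hV l hl.1.1).1, (hV l hl.1.1).2.1,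
      edges_dvd P d y l hd (hV y hy.1).1 (hV l hl.1.1).1 hl.2.1 hl.2.2⟩

end PNF
end

-- part Pool.Agent.P.MP_373cf5_nt.Indep
section

namespace PNF

open Classical

theorem indep_half (V : Finset ℕ) (E : ℕ → ℕ → Prop) (K : ℕ)
    (hout : ∀ y ∈ V, (V.filter fun l => l ≠ y ∧ E y l).card ≤ K) :
    V.card ≤ 2 * (V.filter fun l => (V.filter fun y => l ≠ y ∧ E y l).card ≤ 2 * K).card := by
  have h1 : ∑ l ∈ V, (V.filter fun y => l ≠ y ∧ E y l).card =
      ∑ y ∈ V, (V.filter fun l => l ≠ y ∧ E y l).card := by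
    simp only [Finset.card_filter]
    exact Finset.sum_comm
  have h2 : ∑ y ∈ V, (V.filter fun l => l ≠ y ∧ E y l).card ≤ V.card * K := by
    have := Finset.sum_le_card_nsmul V _ K hout
    rwa [smul_eq_mul] at this
  have h3 : (V.filter fun l => ¬ (V.filter fun y => l ≠ y ∧ E y l).card ≤ 2 * K).card *
      (2 * K + 1) ≤ ∑ l ∈ V, (V.filter fun y => l ≠ y ∧ E y l).card := by
    refine le_trans ?_ (Finset.sum_le_sum_of_subset (Finset.filter_subset
      (fun l => ¬ (V.filter fun y => l ≠ y ∧ E y l).card ≤ 2 * K) V))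
    have := Finset.card_nsmul_le_sum
      (V.filter fun l => ¬ (V.filter fun y => l ≠ y ∧ E y l).card ≤ 2 * K)
      (fun l => (V.filter fun y => l ≠ y ∧ E y l).card) (2 * K + 1)
      fun l hl => Nat.succ_le_of_lt (not_le.1 (Finset.mem_filter.1 hl).2)
    rwa [smul_eq_mul] at this
  have h4 := Finset.card_filter_add_card_filter_not (s := V)
    (fun l => (V.filter fun y => l ≠ y ∧ E y l).card ≤ 2 * K)
  have h5 := h3.trans (h1.le.trans h2)
  generalize (V.filter fun l => ¬ (V.filter fun y => l ≠ y ∧ E y l).card ≤ 2 * K).card = b at h4 h5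
  generalize (V.filter fun l => (V.filter fun y => l ≠ y ∧ E y l).card ≤ 2 * K).card = a at h4 ⊢
  rw [← h4] at h5 ⊢
  by_contra hc
  have h6 : a + 1 ≤ b := by omega
  nlinarith [Nat.mul_le_mul_right K h6]

/-- independent subsets of a given size -/
noncomputable def indepF (W : Finset ℕ) (E : ℕ → ℕ → Prop) (t : ℕ) : Finset (Finset ℕ) :=
  (W.powersetCard t).filter fun A => ∀ y ∈ A, ∀ l ∈ A, l ≠ y → ¬ E y l

theorem indep_step (V W : Finset ℕ) (E : ℕ → ℕ → Prop) (K d t : ℕ) (hW : W ⊆ V)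
    (hout : ∀ y ∈ V, (V.filter fun l => l ≠ y ∧ E y l).card ≤ K)
    (hin : ∀ l ∈ W, (V.filter fun y => l ≠ y ∧ E y l).card ≤ 2 * K)
    (hc : V.card ≤ 2 * W.card) (hV : 4 * d * (3 * K + 1) ≤ V.card) (ht : t < d) :
    V.card * (indepF W E t).card ≤ 4 * d * (indepF W E (t + 1)).card := by
  obtain ⟨m, hm⟩ : ∃ m, m = W.card - d * (3 * K + 1) := ⟨_, rfl⟩
  have hm4 : V.card ≤ 4 * m := by
    rw [mul_assoc] at hV
    omega
  have key : (indepF W E t).card * m ≤ (indepF W E (t + 1)).card * (t + 1) := by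
    refine Finset.card_mul_le_card_mul (fun A B => A ⊆ B) (fun A hA => ?_) fun B hB => ?_
    · obtain ⟨hA1, hA2⟩ := Finset.mem_filter.1 hA
      obtain ⟨hAW, hAt⟩ := Finset.mem_powersetCard.1 hA1
      obtain ⟨Z, hZ⟩ : ∃ Z, Z = A.biUnion fun a => insert a
        ((V.filter fun l => l ≠ a ∧ E a l) ∪ V.filter fun y => a ≠ y ∧ E y a) := ⟨_, rfl⟩
      have hZc : Z.card ≤ d * (3 * K + 1) := by
        rw [hZ]
        refine (Finset.card_biUnion_le_card_mul _ _ (3 * K + 1) fun a ha => ?_).trans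
          (Nat.mul_le_mul_right _ (by omega))
        have h1 := hout a (hW (hAW ha))
        have h2 := hin a (hAW ha)
        have h3 := Finset.card_insert_le a
          ((V.filter fun l => l ≠ a ∧ E a l) ∪ V.filter fun y => a ≠ y ∧ E y a)
        have h4 := Finset.card_union_le (V.filter fun l => l ≠ a ∧ E a l)
          (V.filter fun y => a ≠ y ∧ E y a)
        omega
      have hs : m ≤ (W \ Z).card := by
        have := Finset.le_card_sdiff Z W
        omega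
      have hn : ∀ v ∈ W \ Z, ∀ a ∈ A, v ≠ a ∧ ¬ E a v ∧ ¬ E v a := fun v hv a ha => by
        obtain ⟨hvW, hvZ⟩ := Finset.mem_sdiff.1 hv
        rw [hZ, Finset.mem_biUnion] at hvZ
        have h1 : v ≠ a := fun h => hvZ ⟨a, ha, by simp [h]⟩
        refine ⟨h1, fun h => hvZ ⟨a, ha, ?_⟩, fun h => hvZ ⟨a, ha, ?_⟩⟩
        · simp [hW hvW, h1, h]
        · simp [hW hvW, h1.symm, h]
      refine hs.trans (Finset.card_le_card_of_injOn (fun v => insert v A) (fun v hv => ?_)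
        fun v hv v' hv' h => ?_)
      · have hv1 : v ∈ W \ Z := hv
        have hvA : v ∉ A := fun h => (hn v hv1 v h).1 rfl
        refine Finset.mem_coe.2 ((Finset.mem_bipartiteAbove _).2
          ⟨Finset.mem_filter.2 ⟨Finset.mem_powersetCard.2 ⟨?_, ?_⟩, fun y hy l hl hne => ?_⟩,
            Finset.subset_insert _ _⟩)
        · exact Finset.insert_subset (Finset.mem_sdiff.1 hv1).1 hAW
        · rw [Finset.card_insert_of_notMem hvA, hAt]
        · rcases Finset.mem_insert.1 hy with rfl | hy' <;> rcases Finset.mem_insert.1 hl with rfl | hl'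
          · exact absurd rfl hne
          · exact (hn _ hv1 l hl').2.2
          · exact (hn _ hv1 y hy').2.1
          · exact hA2 y hy' l hl' hne
      · have hv1 : v ∈ W \ Z := hv
        have h1 : v ∈ insert v' A := by
          have h' : insert v A = insert v' A := h
          rw [← h']
          exact Finset.mem_insert_self _ _
        rcases Finset.mem_insert.1 h1 with h2 | h2
        · exact h2
        · exact absurd rfl (hn v hv1 v h2).1
    · have hBt := (Finset.mem_powersetCard.1 (Finset.mem_filter.1 hB).1).2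
      have h1 : (indepF W E t).bipartiteBelow (fun A B => A ⊆ B) B ⊆ B.powersetCard t :=
        fun A hA => by
          obtain ⟨h2, h3⟩ := (Finset.mem_bipartiteBelow _).1 hA
          exact Finset.mem_powersetCard.2
            ⟨h3, (Finset.mem_powersetCard.1 (Finset.mem_filter.1 h2).1).2⟩
      refine (Finset.card_le_card h1).trans ?_
      rw [Finset.card_powersetCard, hBt, Nat.choose_succ_self_right]
  calc V.card * (indepF W E t).card ≤ 4 * m * (indepF W E t).card := Nat.mul_le_mul_right _ hm4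
    _ = 4 * ((indepF W E t).card * m) := by ring
    _ ≤ 4 * ((indepF W E (t + 1)).card * d) :=
      Nat.mul_le_mul_left _ (key.trans (Nat.mul_le_mul_left _ ht))
    _ = 4 * d * (indepF W E (t + 1)).card := by ring

theorem indep_count (V : Finset ℕ) (E : ℕ → ℕ → Prop) (K d : ℕ)
    (hout : ∀ y ∈ V, (V.filter fun l => l ≠ y ∧ E y l).card ≤ K)
    (hV : 4 * d * (3 * K + 1) ≤ V.card) :
    ∃ F : Finset (Finset ℕ),
      (∀ A ∈ F, A ⊆ V ∧ A.card = d ∧ ∀ y ∈ A, ∀ l ∈ A, l ≠ y → ¬ E y l) ∧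
      V.card ^ d ≤ (4 * d) ^ d * F.card := by
  have hc := indep_half V E K hout
  have hW := Finset.filter_subset (fun l => (V.filter fun y => l ≠ y ∧ E y l).card ≤ 2 * K) V
  have hin : ∀ l ∈ V.filter fun l => (V.filter fun y => l ≠ y ∧ E y l).card ≤ 2 * K,
      (V.filter fun y => l ≠ y ∧ E y l).card ≤ 2 * K := fun l hl => (Finset.mem_filter.1 hl).2
  generalize (V.filter fun l => (V.filter fun y => l ≠ y ∧ E y l).card ≤ 2 * K) = W at hc hW hin
  refine ⟨indepF W E d, fun A hA => ?_, ?_⟩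
  · obtain ⟨hA1, hA2⟩ := Finset.mem_filter.1 hA
    obtain ⟨hAW, hAt⟩ := Finset.mem_powersetCard.1 hA1
    exact ⟨hAW.trans hW, hAt, hA2⟩
  · have main : ∀ t ≤ d, V.card ^ t ≤ (4 * d) ^ t * (indepF W E t).card := by
      intro t
      induction t with
      | zero =>
        intro _
        have : ∅ ∈ indepF W E 0 := Finset.mem_filter.2 ⟨by simp, by simp⟩
        simpa using Finset.card_pos.2 ⟨_, this⟩
      | succ t ih =>
        intro ht
        have h1 := indep_step V W E K d t hW hout hin hc hV ht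
        calc V.card ^ (t + 1) = V.card ^ t * V.card := pow_succ _ _
          _ ≤ (4 * d) ^ t * (indepF W E t).card * V.card := Nat.mul_le_mul_right _ (ih (by omega))
          _ = (4 * d) ^ t * (V.card * (indepF W E t).card) := by ring
          _ ≤ (4 * d) ^ t * (4 * d * (indepF W E (t + 1)).card) := Nat.mul_le_mul_left _ h1
          _ = (4 * d) ^ (t + 1) * (indepF W E (t + 1)).card := by ring
    exact main d le_rfl

end PNF
end

-- part Pool.Agent.P.MP_373cf5_nt.Pigeon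
section

namespace PNF

theorem pigeon_fac {n B : ℕ} (h0 : n ≠ 0) (h : n ≤ 2 ^ B) (l : ℕ) : n.factorization l ≤ B := by
  by_cases hl : l.Prime
  · have h1 : l ^ n.factorization l ≤ n := Nat.ordProj_le l h0
    have h2 : 2 ^ n.factorization l ≤ l ^ n.factorization l := Nat.pow_le_pow_left hl.two_le _
    exact (Nat.pow_le_pow_iff_right (by norm_num)).1 (h2.trans (h1.trans h))
  · simp [Nat.factorization_eq_zero_of_not_prime _ hl]

theorem pigeon (F : Finset (Finset ℕ)) (V S : Finset ℕ) (w : ℕ → ℕ) (d B Y : ℕ)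
    (hF : ∀ A ∈ F, A ⊆ V ∧ A.card = d)
    (hw : ∀ x ∈ V, w x ≠ 0 ∧ w x ≤ 2 ^ B ∧ (w x).primeFactors ⊆ S) (hY : ∀ x ∈ V, x ≤ Y)
    (hc : (d * B + 1) ^ S.card * (d * Y + 1) < F.card) :
    ∃ A₀ ∈ F, ∃ A A' : Finset ℕ, A ⊆ A₀ ∧ A' ⊆ V ∧ Disjoint A A' ∧ A.Nonempty ∧
      A.card = A'.card ∧ ∑ x ∈ A, x = ∑ x ∈ A', x ∧ ∏ x ∈ A, w x = ∏ x ∈ A', w x := by
  classical
  have hcard : ((Fintype.piFinset fun _ : S => Finset.range (d * B + 1)) ×ˢ
      Finset.range (d * Y + 1)).card < F.card := by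
    simpa [Finset.card_product, Fintype.card_piFinset] using hc
  obtain ⟨A₀, h₀, A₁, h₁, hne, he⟩ := Finset.exists_ne_map_eq_of_card_lt_of_maps_to hcard
    (f := fun A : Finset ℕ => ((fun l : S => ∑ x ∈ A, (w x).factorization l), ∑ x ∈ A, x))
    (fun A hA => by
      obtain ⟨hAV, hd⟩ := hF A hA
      simp only [Finset.coe_product, Set.mem_prod, Finset.mem_coe, Fintype.mem_piFinset,
        Finset.mem_range, Nat.lt_succ_iff]
      refine ⟨fun l => ?_, ?_⟩
      · have := Finset.sum_le_card_nsmul A (fun x => (w x).factorization l) B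
          fun x hx => pigeon_fac (hw x (hAV hx)).1 (hw x (hAV hx)).2.1 l
        rwa [hd, smul_eq_mul] at this
      · have := Finset.sum_le_card_nsmul A (fun x => x) Y fun x hx => hY x (hAV hx)
        rwa [hd, smul_eq_mul] at this)
  obtain ⟨s₀, c₀⟩ := hF A₀ h₀
  obtain ⟨s₁, c₁⟩ := hF A₁ h₁
  obtain ⟨e1, e2⟩ := Prod.mk.inj he
  have n₀ : ∀ x ∈ A₀, w x ≠ 0 := fun x hx => (hw x (s₀ hx)).1
  have n₁ : ∀ x ∈ A₁, w x ≠ 0 := fun x hx => (hw x (s₁ hx)).1
  have e3 : ∏ x ∈ A₀, w x = ∏ x ∈ A₁, w x := by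
    refine Nat.eq_of_factorization_eq (Finset.prod_ne_zero_iff.2 n₀)
      (Finset.prod_ne_zero_iff.2 n₁) fun l => ?_
    rw [Nat.factorization_prod n₀, Nat.factorization_prod n₁, Finset.sum_apply', Finset.sum_apply']
    by_cases hl : l ∈ S
    · exact congrFun e1 ⟨l, hl⟩
    · have z : ∀ x ∈ V, (w x).factorization l = 0 := fun x hx => by
        rw [← Finsupp.notMem_support_iff, Nat.support_factorization]
        exact fun h => hl ((hw x hx).2.2 h)
      rw [Finset.sum_eq_zero fun x hx => z x (s₀ hx), Finset.sum_eq_zero fun x hx => z x (s₁ hx)]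
  refine ⟨A₀, h₀, A₀ \ A₁, A₁ \ A₀, Finset.sdiff_subset, Finset.sdiff_subset.trans s₁,
    disjoint_sdiff_sdiff, ?_, ?_, ?_, ?_⟩
  · rw [Finset.sdiff_nonempty]
    exact fun h => hne (Finset.eq_of_subset_of_card_le h (by omega))
  · have a := Finset.card_sdiff_add_card_inter A₀ A₁
    have b := Finset.card_sdiff_add_card_inter A₁ A₀
    rw [Finset.inter_comm] at b
    omega
  · have a := Finset.sum_inter_add_sum_sdiff A₀ A₁ (fun x => x)
    have b := Finset.sum_inter_add_sum_sdiff A₁ A₀ (fun x => x)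
    rw [Finset.inter_comm] at b
    omega
  · have a := Finset.prod_inter_mul_prod_sdiff A₀ A₁ w
    have b := Finset.prod_inter_mul_prod_sdiff A₁ A₀ w
    rw [Finset.inter_comm] at b
    have c : ∏ x ∈ A₀ ∩ A₁, w x ≠ 0 :=
      Finset.prod_ne_zero_iff.2 fun x hx => n₀ x (Finset.mem_inter.1 hx).1
    exact mul_left_cancel₀ c (by rw [a, b, e3])

end PNF
end

-- part Pool.Agent.P.MP_373cf5_nt.ResNZ
section

namespace PNF

open Polynomial

theorem res_ne_zero (P : ℤ[X]) (A B : Finset ℕ) (hp : ∀ x ∈ A ∪ B, x.Prime)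
    (hdisj : Disjoint A B) (l : ℕ) (hl : l ∈ A) (hlc : ¬ (l : ℤ) ∣ P.leadingCoeff)
    (hind : ∀ y ∈ A, l ≠ y → ¬ Bad P y l) : resultant P (QQ A B) ≠ 0 := by
  have hlp : l.Prime := hp l (Finset.mem_union_left _ hl)
  have : Fact l.Prime := ⟨hlp⟩
  have hne : ∀ y : ℕ, y.Prime → l ≠ y → (y : ZMod l) ≠ 0 := fun y hy h h0 =>
    h ((Nat.prime_dvd_prime_iff_eq hlp hy).1 ((ZMod.natCast_eq_zero_iff y l).1 h0))
  set φ := Int.castRingHom (ZMod l) with hφ
  have hlc' : φ P.leadingCoeff ≠ 0 := fun h => hlc ((ZMod.intCast_zmod_eq_zero_iff_dvd _ l).1 h)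
  have hdeg : (P.map φ).natDegree = P.natDegree := natDegree_map_of_leadingCoeff_ne_zero φ hlc'
  have hQ : (QQ A B).map φ = C (∏ x ∈ B, (x : ZMod l) ^ 3) * ∏ x ∈ A, (C (x : ZMod l) * X - 1) := by
    have h0 : ∏ x ∈ A, (x : ZMod l) ^ 3 = 0 := Finset.prod_eq_zero hl (by simp)
    have h1 : ∀ T : Finset ℕ, φ (∏ x ∈ T, (x : ℤ) ^ 3) = ∏ x ∈ T, (x : ZMod l) ^ 3 := fun T => by
      simp [hφ]
    have h2 : ∀ T : Finset ℕ, (∏ x ∈ T, (C (x : ℤ) * X - 1)).map φ =
        ∏ x ∈ T, (C (x : ZMod l) * X - 1) := fun T => by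
      rw [Polynomial.map_prod]
      refine Finset.prod_congr rfl fun x _ => ?_
      rw [Polynomial.map_sub, Polynomial.map_mul, map_C, map_X, Polynomial.map_one, map_natCast φ]
    rw [QQ, Polynomial.map_sub, Polynomial.map_mul, Polynomial.map_mul, map_C, map_C, h1, h1, h2,
      h0, C_0, zero_mul, sub_zero]
  have hu : ∏ x ∈ B, (x : ZMod l) ^ 3 ≠ 0 := Finset.prod_ne_zero_iff.2 fun x hx =>
    pow_ne_zero _ (hne x (hp x (Finset.mem_union_right _ hx))
      fun h => Finset.disjoint_left.1 hdisj hl (h ▸ hx))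
  have hcop : IsCoprime (P.map φ) ((QQ A B).map φ) := by
    rw [hQ, isCoprime_mul_unit_left_right (isUnit_C.2 hu.isUnit)]
    refine IsCoprime.prod_right fun y hy => ?_
    rcases eq_or_ne l y with rfl | hy'
    · simpa using isCoprime_one_right.neg_right
    · have hy0 := hne y (hp y (Finset.mem_union_left _ hy)) hy'
      have e : C (y : ZMod l) * X - 1 = C (y : ZMod l) * (X - C (y : ZMod l)⁻¹) := by
        rw [mul_sub, ← C_mul, mul_inv_cancel₀ hy0, C_1]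
      rw [e, isCoprime_mul_unit_left_right (isUnit_C.2 hy0.isUnit)]
      exact ((irreducible_X_sub_C _).coprime_iff_not_dvd.2
        fun h => hind y hy hy' (dvd_iff_isRoot.1 h)).symm
  intro h0
  have h1 := resultant_map_map P (QQ A B) P.natDegree (QQ A B).natDegree φ
  obtain ⟨k, hk⟩ := Nat.exists_eq_add_of_le (natDegree_map_le (f := φ) (p := QQ A B))
  rw [h0, map_zero, hk, resultant_add_right_deg _ _ _ _ _ le_rfl, ← hdeg] at h1
  refine mul_ne_zero (pow_ne_zero _ ?_) (resultant_ne_zero _ _ hcop) h1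
  rwa [hdeg, coeff_map]

end PNF
end

-- part Pool.Agent.P.MP_373cf5_nt.ResBound
section

namespace PNF

open Polynomial

theorem resBound_det {N : ℕ} (A : Matrix (Fin N) (Fin N) ℝ) (i₀ : Fin N) {H ε : ℝ} (hH : 1 ≤ H)
    (hε : 0 ≤ ε) (hA : ∀ i j, |A i j| ≤ H) (h0 : ∀ j, |A i₀ j| ≤ ε) :
    |A.det| ≤ (N.factorial : ℝ) * H ^ N * ε := by
  rcases hε.eq_or_lt with rfl | hε'
  · rw [Matrix.det_eq_zero_of_row_eq_zero i₀ fun j => abs_nonpos_iff.1 (h0 j)]
    simp
  · have e : A = A.updateRow i₀ (ε • fun j => A i₀ j / ε) := by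
      have : (ε • fun j => A i₀ j / ε) = A i₀ := by
        ext j
        simp only [Pi.smul_apply, smul_eq_mul]
        field_simp
      rw [this, Matrix.updateRow_eq_self]
    have hb : |(A.updateRow i₀ fun j => A i₀ j / ε).det| ≤ (N.factorial : ℝ) * H ^ N := by
      have := Matrix.det_le (A := A.updateRow i₀ fun j => A i₀ j / ε) (abv := AbsoluteValue.abs)
        (x := H) (fun i j => by
          rw [AbsoluteValue.abs_apply, Matrix.updateRow_apply]
          split_ifs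
          · rw [abs_div, abs_of_pos hε']
            exact ((div_le_one hε').2 (h0 j)).trans hH
          · exact hA i j)
      simpa using this
    rw [e, Matrix.det_updateRow_smul, abs_mul, abs_of_pos hε', mul_comm]
    exact mul_le_mul_of_nonneg_right hb hε

theorem res_bound (f g : ℤ[X]) (hf : f ≠ 0) (hres : resultant f g ≠ 0) (d : ℕ)
    (hfd : f.natDegree ≤ d) (hgd : g.natDegree ≤ d) (κ H ε : ℝ) (hH : 1 ≤ H)
    (hfc : ∀ k, |(taylor κ (f.map (Int.castRingHom ℝ))).coeff k| ≤ H)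
    (hgc : ∀ k, |(taylor κ (g.map (Int.castRingHom ℝ))).coeff k| ≤ H)
    (hf0 : |aeval κ f| ≤ ε) (hg0 : |aeval κ g| ≤ ε) :
    1 ≤ ((2 * d).factorial : ℝ) * H ^ (2 * d) * ε := by
  have hε : 0 ≤ ε := (abs_nonneg _).trans hf0
  have hinj : Function.Injective (Int.castRingHom ℝ) := Int.cast_injective
  have hone : ∀ a : ℤ, a ≠ 0 → (1 : ℝ) ≤ |(a : ℝ)| := fun a ha => by
    exact_mod_cast Int.one_le_abs ha
  have hmono : ∀ N ≤ 2 * d, (N.factorial : ℝ) * H ^ N * ε ≤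
      ((2 * d).factorial : ℝ) * H ^ (2 * d) * ε := fun N hN => by
    have h1 : (N.factorial : ℝ) ≤ ((2 * d).factorial : ℝ) := by
      exact_mod_cast Nat.factorial_le hN
    have h2 : H ^ N ≤ H ^ (2 * d) := pow_le_pow_right₀ hH hN
    have h3 : 0 ≤ H ^ N := by positivity
    gcongr
  have hc : ∀ p : ℤ[X], (taylor κ (p.map (Int.castRingHom ℝ))).coeff 0 = aeval κ p := fun p => by
    rw [taylor_coeff_zero, eval_map, aeval_def]; rfl
  set f' := taylor κ (f.map (Int.castRingHom ℝ)) with hf'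
  set g' := taylor κ (g.map (Int.castRingHom ℝ)) with hg'
  have hr : resultant f' g' f.natDegree g.natDegree = ((resultant f g : ℤ) : ℝ) := by
    have := resultant_taylor (f.map (Int.castRingHom ℝ)) (g.map (Int.castRingHom ℝ)) κ
    rw [natDegree_taylor, natDegree_taylor, natDegree_map_eq_of_injective hinj,
      natDegree_map_eq_of_injective hinj, resultant_map_map] at this
    exact this
  refine le_trans ?_ (hmono (f.natDegree + g.natDegree) (by omega))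
  rcases Nat.eq_zero_or_pos (f.natDegree + g.natDegree) with h0 | h0
  · have hf1 : f.natDegree = 0 := by omega
    rw [h0]
    rw [eq_C_of_natDegree_eq_zero hf1] at hf hf0
    have := hone (f.coeff 0) (fun h => hf (by rw [h, map_zero]))
    rw [aeval_C] at hf0
    simpa using this.trans hf0
  · refine (hone _ hres).trans ?_
    rw [← hr, resultant]
    have hH0 : |(0 : ℝ)| ≤ H := by rw [abs_zero]; linarith
    have hε0 : |(0 : ℝ)| ≤ ε := by rw [abs_zero]; exact hε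
    refine resBound_det _ ⟨0, h0⟩ hH hε (fun i j => ?_) fun j => ?_
    · induction j using Fin.addCases with
      | left j =>
        simp only [sylvester, Matrix.of_apply, Fin.addCases_left]
        split_ifs
        · exact hgc _
        · exact hH0
      | right j =>
        simp only [sylvester, Matrix.of_apply, Fin.addCases_right]
        split_ifs
        · exact hfc _
        · exact hH0
    · induction j using Fin.addCases with
      | left j =>
        simp only [sylvester, Matrix.of_apply, Fin.addCases_left, Nat.zero_sub]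
        split_ifs
        · rw [hg', hc]; exact hg0
        · exact hε0
      | right j =>
        simp only [sylvester, Matrix.of_apply, Fin.addCases_right, Nat.zero_sub]
        split_ifs
        · rw [hf', hc]; exact hf0
        · exact hε0

end PNF
end

-- part Pool.Agent.P.MP_373cf5_nt.Core
section

namespace PNF

theorem core_edge_num (X d : ℕ) (hX : 16 ≤ X) (hd : 1 ≤ d) :
    ((d : ℝ) + 1) * (2 * (2 * (8 * X : ℝ)) ^ d * (8 * X : ℝ) ^ (3 * d)) * (8 * X : ℝ) ^ d ≤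
      (X : ℝ) ^ (12 * d) := by
  have hX' : (16 : ℝ) ≤ X := by exact_mod_cast hX
  have h1 : ((d : ℝ) + 1) ≤ 2 ^ d := by
    have : d + 1 ≤ 2 ^ d := Nat.lt_two_pow_self
    exact_mod_cast this
  have h2 : (2 : ℝ) ≤ 2 ^ d := by
    calc (2 : ℝ) = 2 ^ 1 := by norm_num
      _ ≤ 2 ^ d := pow_le_pow_right₀ (by norm_num) hd
  have h3 : (2 * 2 * (2 * (8 * X)) * (8 * X) ^ 3 * (8 * X) : ℝ) ≤ (X : ℝ) ^ 12 := by
    have h4 : (16 : ℝ) ^ 7 ≤ (X : ℝ) ^ 7 := pow_le_pow_left₀ (by norm_num) hX' 7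
    have h5 : (0 : ℝ) ≤ (X : ℝ) ^ 5 := by positivity
    have h6 : (X : ℝ) ^ 12 = (X : ℝ) ^ 7 * (X : ℝ) ^ 5 := by ring
    have h7 : (2 * 2 * (2 * (8 * X)) * (8 * X) ^ 3 * (8 * X) : ℝ) = 262144 * (X : ℝ) ^ 5 := by ring
    rw [h6, h7]
    apply mul_le_mul_of_nonneg_right _ h5
    linarith [show (262144 : ℝ) ≤ 16 ^ 7 by norm_num]
  calc ((d : ℝ) + 1) * (2 * (2 * (8 * X : ℝ)) ^ d * (8 * X : ℝ) ^ (3 * d)) * (8 * X : ℝ) ^ d
      ≤ 2 ^ d * (2 ^ d * (2 * (8 * X : ℝ)) ^ d * (8 * X : ℝ) ^ (3 * d)) * (8 * X : ℝ) ^ d := by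
        gcongr
    _ = (2 * 2 * (2 * (8 * X)) * (8 * X) ^ 3 * (8 * X) : ℝ) ^ d := by
        rw [pow_mul]; simp only [mul_pow]; ring
    _ ≤ ((X : ℝ) ^ 12) ^ d := pow_le_pow_left₀ (by positivity) h3 d
    _ = (X : ℝ) ^ (12 * d) := by rw [pow_mul]

theorem core (κ c η : ℝ) (hκ : 0 ≤ κ) (hc : 0 < c) (hη : 0 ≤ η) (X d B : ℕ) (hX : 16 ≤ X)
    (hd : 1 ≤ d) (V S : Finset ℕ) (w : ℕ → ℕ) (e : ℕ → ℝ)
    (hV : ∀ x ∈ V, x.Prime ∧ X < x ∧ x ≤ 8 * X)
    (hw : ∀ x ∈ V, w x ≠ 0 ∧ w x ≤ 2 ^ B ∧ (w x).primeFactors ⊆ S)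
    (hwe : ∀ x ∈ V, (w x : ℝ) = c * ((κ * x - 1) / (x : ℝ) ^ 3) * Real.exp (κ * x) * (1 + e x) ∧
      |e x| ≤ η)
    (hdη : d * η ≤ 1) (h1 : 200 * d ^ 2 ≤ V.card)
    (h2 : (d * B + 1) ^ S.card * (d * (8 * X) + 1) * (8 * d) ^ d < V.card ^ d)
    (h3 : ((2 * d).factorial : ℝ) *
      (2 * ((κ + 2) * (8 * X : ℝ)) ^ d * (8 * X : ℝ) ^ (3 * d)) ^ (2 * d) *
      (4 * ((κ + 2) * (8 * X : ℝ)) ^ d * (8 * X : ℝ) ^ (3 * d) * (d * η)) < 1) : False := by
  classical
  set T := (d * B + 1) ^ S.card * (d * (8 * X) + 1) with hT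
  have hX' : (16 : ℝ) ≤ X := by exact_mod_cast hX
  have hY : (1 : ℝ) ≤ 8 * X := by linarith
  have hdd : d ≤ d ^ 2 := by nlinarith
  -- facts on a relation inside `V`
  have hrel : ∀ A A' : Finset ℕ, A ⊆ V → A' ⊆ V → A.card ≤ d → A.card = A'.card →
      ∑ x ∈ A, x = ∑ x ∈ A', x → ∏ x ∈ A, w x = ∏ x ∈ A', w x →
      (QQ A A').natDegree ≤ d ∧
      (∀ k, |(Polynomial.taylor κ ((QQ A A').map (Int.castRingHom ℝ))).coeff k| ≤
        2 * ((κ + 2) * (8 * X : ℝ)) ^ d * (8 * X : ℝ) ^ (3 * d)) ∧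
      (∀ k, |((QQ A A').coeff k : ℝ)| ≤ 2 * (2 * (8 * X : ℝ)) ^ d * (8 * X : ℝ) ^ (3 * d)) ∧
      |Polynomial.aeval κ (QQ A A')| ≤
        4 * ((κ + 2) * (8 * X : ℝ)) ^ d * (8 * X : ℝ) ^ (3 * d) * (d * η) := by
    intro A A' hA hA' hAd hc' hs hp
    have hU : ∀ x ∈ A ∪ A', x ∈ V := fun x hx => by
      rcases Finset.mem_union.mp hx with h | h
      exacts [hA h, hA' h]
    have hb : ∀ x ∈ A ∪ A', (x : ℝ) ≤ 8 * X := fun x hx => by
      exact_mod_cast (hV x (hU x hx)).2.2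
    refine ⟨natDegree_QQ_le A A' d hAd (hc' ▸ hAd),
      fun k => taylor_coeff_le κ _ hκ hY A A' hb d hAd (hc' ▸ hAd) k,
      fun k => coeff_QQ_le _ hY A A' hb d hAd (hc' ▸ hAd) k, ?_⟩
    exact rel_small κ c η _ hκ hc hη hY A A' w e d
      (fun x hx => ⟨(hV x (hU x hx)).1.one_le, hb x hx⟩) hc' hAd hs hp
      (fun x hx => (hwe x (hU x hx)).1) (fun x hx => (hwe x (hU x hx)).2) hdη
  have h8 : 0 < (8 * d) ^ d := by positivity
  -- first relation
  obtain ⟨F₁, hF₁, hc₁⟩ := indep_count V (fun _ _ => False) 0 d (by simp) (by omega)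
  have hT₁ : T < F₁.card := by
    have h4 : (4 * d) ^ d ≤ (8 * d) ^ d := Nat.pow_le_pow_left (by omega) d
    have h5 : T * (8 * d) ^ d < F₁.card * (8 * d) ^ d := by
      calc T * (8 * d) ^ d < V.card ^ d := h2
        _ ≤ (4 * d) ^ d * F₁.card := hc₁
        _ ≤ (8 * d) ^ d * F₁.card := Nat.mul_le_mul_right _ h4
        _ = F₁.card * (8 * d) ^ d := mul_comm _ _
    exact lt_of_mul_lt_mul_right h5 (Nat.zero_le _)
  obtain ⟨A₀, hA₀, A₁, B₁, hA₁, hB₁, hdis₁, hne₁, hcard₁, hsum₁, hprod₁⟩ :=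
    pigeon F₁ V S w d B (8 * X) (fun A hA => ⟨(hF₁ A hA).1, (hF₁ A hA).2.1⟩) hw
      (fun x hx => (hV x hx).2.2) hT₁
  have hA₁V : A₁ ⊆ V := hA₁.trans (hF₁ A₀ hA₀).1
  have hA₁d : A₁.card ≤ d := (Finset.card_le_card hA₁).trans (hF₁ A₀ hA₀).2.1.le
  obtain ⟨p1, p2, p3, p4⟩ := hrel A₁ B₁ hA₁V hB₁ hA₁d hcard₁ hsum₁ hprod₁
  have hP : QQ A₁ B₁ ≠ 0 := by
    apply QQ_ne_zero A₁ B₁ hdis₁
    · rw [← Finset.card_pos, ← hcard₁]; exact hne₁.card_pos
    · intro x hx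
      rcases Finset.mem_union.mp hx with h | h
      exacts [(hV x (hA₁V h)).1.ne_zero, (hV x (hB₁ h)).1.ne_zero]
  -- second relation
  obtain ⟨V', hV'V, hV'c, hlc, hout⟩ := edges (QQ A₁ B₁) hP d (12 * d) X (by omega) p1 _ _ p3 hY
    (core_edge_num X d hX hd) V
    (fun x hx => ⟨(hV x hx).1, (hV x hx).2.1, by exact_mod_cast (hV x hx).2.2⟩)
  obtain ⟨F₂, hF₂, hc₂⟩ := indep_count V' (Bad (QQ A₁ B₁)) (12 * d) d
    (fun y hy => by convert hout y hy) (by nlinarith)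
  have hT₂ : T < F₂.card := by
    have h4 : V.card ^ d ≤ (2 * V'.card) ^ d := Nat.pow_le_pow_left (by omega) d
    have h5 : T * (8 * d) ^ d < F₂.card * (8 * d) ^ d := by
      calc T * (8 * d) ^ d < V.card ^ d := h2
        _ ≤ (2 * V'.card) ^ d := h4
        _ = 2 ^ d * V'.card ^ d := mul_pow _ _ _
        _ ≤ 2 ^ d * ((4 * d) ^ d * F₂.card) := Nat.mul_le_mul_left _ hc₂
        _ = F₂.card * (8 * d) ^ d := by
          rw [show 8 * d = 2 * (4 * d) by ring, mul_pow 2 (4 * d)]; ring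
    exact lt_of_mul_lt_mul_right h5 (Nat.zero_le _)
  obtain ⟨A₃, hA₃, A₂, B₂, hA₂, hB₂, hdis₂, hne₂, hcard₂, hsum₂, hprod₂⟩ :=
    pigeon F₂ V' S w d B (8 * X) (fun A hA => ⟨(hF₂ A hA).1, (hF₂ A hA).2.1⟩)
      (fun x hx => hw x (hV'V hx)) (fun x hx => (hV x (hV'V hx)).2.2) hT₂
  have hA₂V : A₂ ⊆ V' := hA₂.trans (hF₂ A₃ hA₃).1
  have hA₂d : A₂.card ≤ d := (Finset.card_le_card hA₂).trans (hF₂ A₃ hA₃).2.1.le
  obtain ⟨q1, q2, -, q4⟩ := hrel A₂ B₂ (hA₂V.trans hV'V) (hB₂.trans hV'V) hA₂d hcard₂ hsum₂ hprod₂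
  obtain ⟨l, hl⟩ := hne₂
  have hres : Polynomial.resultant (QQ A₁ B₁) (QQ A₂ B₂) ≠ 0 := by
    apply res_ne_zero (QQ A₁ B₁) A₂ B₂ _ hdis₂ l hl (hlc l (hA₂V hl))
    · intro y hy hly
      exact (hF₂ A₃ hA₃).2.2 y (hA₂ hy) l (hA₂ hl) hly
    · intro x hx
      rcases Finset.mem_union.mp hx with h | h
      exacts [(hV x (hV'V (hA₂V h))).1, (hV x (hV'V (hB₂ h))).1]
  have hH : (1 : ℝ) ≤ 2 * ((κ + 2) * (8 * X : ℝ)) ^ d * (8 * X : ℝ) ^ (3 * d) := by
    have a1 : (1 : ℝ) ≤ ((κ + 2) * (8 * X : ℝ)) ^ d := one_le_pow₀ (by nlinarith)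
    have a2 : (1 : ℝ) ≤ (8 * X : ℝ) ^ (3 * d) := one_le_pow₀ hY
    nlinarith
  have := res_bound (QQ A₁ B₁) (QQ A₂ B₂) hP hres d p1 q1 κ _ _ hH p2 q2 p4 q4
  linarith

end PNF
end

-- part Pool.Agent.P.MP_373cf5_nt.NumA
section

namespace PNF

/-- The pigeonhole inequality. -/
theorem num_pigeon (N X M d B r : ℕ) (ρ : ℝ) (hX : 2 ≤ X) (hN : 92 ≤ N) (hd : 1 ≤ d)
    (hρ : ρ = ((r : ℝ) + 1) * Real.log N / Real.log X) (hdρ : 9 * ρ ≤ d)
    (hdB : d * B ≤ 8 * N) (hdX : d * X ≤ N) (hM : 4 * (d : ℝ) ^ 2 + 4 * √(X : ℝ) ≤ M) :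
    (d * B + 1) ^ r * (d * (8 * X) + 1) * (8 * d) ^ d < M ^ d := by
  have hN2 : 8 * N + 1 ≤ N ^ 2 := by nlinarith
  have h1 : (d * B + 1) ^ r * (d * (8 * X) + 1) ≤ N ^ (2 * (r + 1)) := by
    rw [pow_mul, pow_succ (N ^ 2)]
    refine Nat.mul_le_mul (Nat.pow_le_pow_left (by omega) r) ?_
    nlinarith
  have hX' : (1 : ℝ) < X := by exact_mod_cast hX
  have hN' : (1 : ℝ) < N := by exact_mod_cast (by omega : 1 < N)
  have lX := Real.log_pos hX'
  have lN := Real.log_pos hN'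
  have hy : 0 < √(√(X : ℝ)) := by positivity
  have ly : Real.log √(√(X : ℝ)) = Real.log X / 4 := by
    rw [Real.log_sqrt (by positivity), Real.log_sqrt (by positivity)]
    ring
  have h2 : (N : ℝ) ^ (2 * (r + 1)) < √(√(X : ℝ)) ^ d := by
    rw [← Real.log_lt_log_iff (by positivity) (by positivity), Real.log_pow, Real.log_pow, ly]
    have e : ρ * Real.log X = ((r : ℝ) + 1) * Real.log N := by
      rw [hρ]
      field_simp
    have h3 := mul_le_mul_of_nonneg_right hdρ lX.le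
    have h4 : 0 < ((r : ℝ) + 1) * Real.log N := by positivity
    push_cast
    nlinarith
  have h5 : √(√(X : ℝ)) * (8 * d) ≤ M := by
    have h6 := Real.sq_sqrt (Real.sqrt_nonneg (X : ℝ))
    nlinarith [sq_nonneg ((d : ℝ) - √(√(X : ℝ)))]
  have hd' : (0 : ℝ) < d := by exact_mod_cast hd
  have h7 : (((d * B + 1) ^ r * (d * (8 * X) + 1) : ℕ) : ℝ) ≤ (N : ℝ) ^ (2 * (r + 1)) := by
    exact_mod_cast h1
  have h8 : (((d * B + 1) ^ r * (d * (8 * X) + 1) : ℕ) : ℝ) * (8 * d) ^ d < (M : ℝ) ^ d :=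
    calc _ < √(√(X : ℝ)) ^ d * (8 * d) ^ d :=
          mul_lt_mul_of_pos_right (h7.trans_lt h2) (by positivity)
      _ = (√(√(X : ℝ)) * (8 * d)) ^ d := (mul_pow _ _ _).symm
      _ ≤ _ := pow_le_pow_left₀ (by positivity) h5 d
  exact_mod_cast h8

end PNF
end

-- part Pool.Agent.P.MP_373cf5_nt.NumB
section

namespace PNF

/-- The smallness inequality. -/
theorem num_small (N X d : ℕ) (κ C₀ η : ℝ) (hN : 92 ≤ N) (hd : 1 ≤ d) (hC : 1 ≤ C₀)
    (hκ : 0 ≤ κ) (hκX : (κ + 2) * (8 * X : ℝ) ≤ N) (hX : 8 * X ≤ N) (hdN : 2 * d ≤ N)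
    (hη0 : 0 ≤ η) (hη : η ≤ C₀ * Real.exp (-√(N : ℝ) / 6))
    (hlog : 19 * (d : ℝ) ^ 2 * Real.log N ≤ √(N : ℝ) / 12) (hC' : 12 * C₀ ≤ √(N : ℝ)) :
    d * η ≤ 1 ∧ ((2 * d).factorial : ℝ) *
      (2 * ((κ + 2) * (8 * X : ℝ)) ^ d * (8 * X : ℝ) ^ (3 * d)) ^ (2 * d) *
      (4 * ((κ + 2) * (8 * X : ℝ)) ^ d * (8 * X : ℝ) ^ (3 * d) * (d * η)) < 1 := by
  have hNR : (92 : ℝ) ≤ N := by exact_mod_cast hN
  have hN1 : (1 : ℝ) ≤ N := by linarith
  have hN0 : (0 : ℝ) < N := by linarith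
  have hXR : (8 * X : ℝ) ≤ N := by exact_mod_cast hX
  have hX0 : (0 : ℝ) ≤ 8 * X := by positivity
  have hdR : (2 * d : ℝ) ≤ N := by exact_mod_cast hdN
  have hd0 : (0 : ℝ) ≤ d := by positivity
  have hk0 : (0 : ℝ) ≤ (κ + 2) * (8 * X : ℝ) := by positivity
  have hNd : (N : ℝ) ≤ (N : ℝ) ^ d := le_self_pow₀ hN1 (by omega)
  have h1 : ((κ + 2) * (8 * X : ℝ)) ^ d ≤ (N : ℝ) ^ d := pow_le_pow_left₀ hk0 hκX d
  have h2 : (8 * X : ℝ) ^ (3 * d) ≤ (N : ℝ) ^ (3 * d) := pow_le_pow_left₀ hX0 hXR _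
  have h12 : ((κ + 2) * (8 * X : ℝ)) ^ d * (8 * X : ℝ) ^ (3 * d) ≤ (N : ℝ) ^ (4 * d) := by
    calc _ ≤ (N : ℝ) ^ d * (N : ℝ) ^ (3 * d) := mul_le_mul h1 h2 (by positivity) (by positivity)
      _ = (N : ℝ) ^ (4 * d) := by rw [← pow_add]; congr 1; ring
  have h5 : (N : ℝ) ^ (5 * d) = (N : ℝ) ^ d * (N : ℝ) ^ (4 * d) := by
    rw [← pow_add]; congr 1; ring
  have h4p : (0 : ℝ) ≤ (N : ℝ) ^ (4 * d) := by positivity
  have hP0 : (0 : ℝ) ≤ ((κ + 2) * (8 * X : ℝ)) ^ d * (8 * X : ℝ) ^ (3 * d) := by positivity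
  have hH4 : 4 * ((κ + 2) * (8 * X : ℝ)) ^ d * (8 * X : ℝ) ^ (3 * d) ≤ (N : ℝ) ^ (5 * d) := by
    rw [h5, mul_assoc]
    exact mul_le_mul (by linarith) h12 hP0 (by positivity)
  have hH2 : 2 * ((κ + 2) * (8 * X : ℝ)) ^ d * (8 * X : ℝ) ^ (3 * d) ≤ (N : ℝ) ^ (5 * d) := by
    rw [h5, mul_assoc]
    exact mul_le_mul (by linarith) h12 hP0 (by positivity)
  have hF : ((2 * d).factorial : ℝ) ≤ (N : ℝ) ^ (2 * d) := by
    have : (2 * d).factorial ≤ N ^ (2 * d) :=
      (Nat.factorial_le_pow _).trans (Nat.pow_le_pow_left hdN _)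
    exact_mod_cast this
  have hHp : (2 * ((κ + 2) * (8 * X : ℝ)) ^ d * (8 * X : ℝ) ^ (3 * d)) ^ (2 * d) ≤
      (N : ℝ) ^ (5 * d * (2 * d)) := by
    rw [pow_mul (N : ℝ) (5 * d) (2 * d)]
    exact pow_le_pow_left₀ (by positivity) hH2 _
  have hdN' : (d : ℝ) ≤ (N : ℝ) ^ d := by linarith
  have hL : 4 * ((κ + 2) * (8 * X : ℝ)) ^ d * (8 * X : ℝ) ^ (3 * d) * (d * η) ≤
      (N : ℝ) ^ (5 * d) * ((N : ℝ) ^ d * η) :=
    mul_le_mul hH4 (mul_le_mul_of_nonneg_right hdN' hη0) (by positivity) (by positivity)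
  have hE : (N : ℝ) ^ (19 * d ^ 2) ≤ Real.exp (√(N : ℝ) / 12) := by
    have : (N : ℝ) ^ (19 * d ^ 2) = Real.exp (19 * (d : ℝ) ^ 2 * Real.log N) := by
      rw [show 19 * (d : ℝ) ^ 2 * Real.log N = ((19 * d ^ 2 : ℕ) : ℝ) * Real.log N by
        push_cast; ring, Real.exp_nat_mul, Real.exp_log hN0]
    rw [this]
    exact Real.exp_le_exp.2 hlog
  have hkey : (N : ℝ) ^ (19 * d ^ 2) * η < 1 := by
    have hlt : C₀ < Real.exp (√(N : ℝ) / 12) := by
      have := Real.add_one_le_exp (√(N : ℝ) / 12)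
      linarith
    have hpos := Real.exp_pos (√(N : ℝ) / 12)
    have hpos' := Real.exp_pos (-√(N : ℝ) / 6)
    have hmul : Real.exp (√(N : ℝ) / 12) * (Real.exp (√(N : ℝ) / 12) *
        Real.exp (-√(N : ℝ) / 6)) = 1 := by
      rw [← Real.exp_add, ← Real.exp_add, ← Real.exp_zero]
      congr 1; ring
    calc (N : ℝ) ^ (19 * d ^ 2) * η
        ≤ Real.exp (√(N : ℝ) / 12) * (C₀ * Real.exp (-√(N : ℝ) / 6)) :=
          mul_le_mul hE hη hη0 hpos.le
      _ < Real.exp (√(N : ℝ) / 12) * (Real.exp (√(N : ℝ) / 12) * Real.exp (-√(N : ℝ) / 6)) :=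
          mul_lt_mul_of_pos_left (mul_lt_mul_of_pos_right hlt hpos') hpos
      _ = 1 := hmul
  have hdd : d ≤ d ^ 2 := Nat.le_self_pow (by norm_num) d
  refine ⟨?_, ?_⟩
  · have : (N : ℝ) ^ d ≤ (N : ℝ) ^ (19 * d ^ 2) := pow_le_pow_right₀ hN1 (by omega)
    exact (mul_le_mul_of_nonneg_right (hdN'.trans this) hη0).trans hkey.le
  · refine lt_of_le_of_lt ?_ hkey
    have hexp : 2 * d + 5 * d * (2 * d) + (5 * d + d) ≤ 19 * d ^ 2 := by nlinarith
    calc _ ≤ (N : ℝ) ^ (2 * d) * (N : ℝ) ^ (5 * d * (2 * d)) *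
          ((N : ℝ) ^ (5 * d) * ((N : ℝ) ^ d * η)) :=
          mul_le_mul (mul_le_mul hF hHp (by positivity) (by positivity)) hL (by positivity)
            (by positivity)
      _ = (N : ℝ) ^ (2 * d + 5 * d * (2 * d) + (5 * d + d)) * η := by
          rw [pow_add, pow_add, pow_add]; ring
      _ ≤ (N : ℝ) ^ (19 * d ^ 2) * η :=
          mul_le_mul_of_nonneg_right (pow_le_pow_right₀ hN1 hexp) hη0

end PNF
end

-- part Pool.Agent.P.MP_373cf5_nt.Count
section

namespace PNF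

/-- The uniform counting theorem. -/
theorem count : ∃ C : ℝ, 0 < C ∧ ∀ D X : ℕ, D % 24 = 23 → 2 ≤ X → ∀ (S : Finset ℕ) (ρ : ℝ),
    ρ = ((S.card : ℝ) + 1) * Real.log ((D * X ^ 2 : ℕ) : ℝ) / Real.log X →
    C * ρ ^ 2 * Real.log ((D * X ^ 2 : ℕ) : ℝ) ≤ √((D * X ^ 2 : ℕ) : ℝ) →
    (((Finset.Ioc X (8 * X)).filter
      fun x => x.Prime ∧ (pn (nx D x)).primeFactors ⊆ S).card : ℝ) ≤ C * (ρ ^ 2 + √(X : ℝ)) := by
  obtain ⟨C₀, hC₀, hr⟩ := hr_rel
  refine ⟨30000 + 12 * C₀, by linarith, fun D X hD hX S ρ hρ hC => ?_⟩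
  by_contra hM
  rw [not_le] at hM
  set V := (Finset.Ioc X (8 * X)).filter fun x => x.Prime ∧ (pn (nx D x)).primeFactors ⊆ S
    with hVdef
  have hV7 : V.card ≤ 7 * X := by
    have := Finset.card_filter_le (Finset.Ioc X (8 * X))
      fun x => x.Prime ∧ (pn (nx D x)).primeFactors ⊆ S
    rw [Nat.card_Ioc] at this
    exact this.trans (by omega)
  have hD23 : 23 ≤ D := by omega
  have hNe : ((D * X ^ 2 : ℕ) : ℝ) = (D : ℝ) * (X : ℝ) ^ 2 := by push_cast; ring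
  have hN : 92 ≤ D * X ^ 2 := by nlinarith
  have hXN : X ≤ D * X ^ 2 := by nlinarith
  generalize hNd : D * X ^ 2 = N at *
  have hX2 : (2 : ℝ) ≤ X := by exact_mod_cast hX
  have hNr : (92 : ℝ) ≤ N := by exact_mod_cast hN
  have hL : 1 ≤ Real.log N := by
    rw [Real.le_log_iff_exp_le (by linarith)]
    linarith [Real.exp_one_lt_d9]
  have hlX : 0 < Real.log X := Real.log_pos (by linarith)
  have hρ1 : 1 ≤ ρ := by
    rw [hρ, le_div_iff₀ hlX]
    have : Real.log X ≤ Real.log N := Real.log_le_log (by linarith) (by exact_mod_cast hXN)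
    nlinarith [(Nat.cast_nonneg S.card : (0 : ℝ) ≤ S.card)]
  have hDr : (23 : ℝ) ≤ D := by exact_mod_cast hD23
  have hσ : 4 ≤ √(D : ℝ) := Real.le_sqrt_of_sq_le (by linarith)
  have hs : √(N : ℝ) = √(D : ℝ) * X := by
    rw [hNe, Real.sqrt_mul (by linarith), Real.sqrt_sq (by linarith)]
  have hss : √(N : ℝ) * √(N : ℝ) = N := Real.mul_self_sqrt (by linarith)
  have hκ2 : 2 ≤ kap D := by unfold kap; nlinarith [Real.pi_gt_three]
  have hκe : kap D * X = Real.pi * √(N : ℝ) / 6 := by rw [hs, kap]; ring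
  have hXs : (X : ℝ) ≤ √(N : ℝ) := by rw [hs]; nlinarith
  have hc : 0 < 12 * √3 / (Real.pi * (D * √(D : ℝ))) := by
    have : (0 : ℝ) < D := by linarith
    positivity
  generalize √(N : ℝ) = s at *
  have hρ2 : ρ ≤ ρ ^ 2 := le_self_pow₀ hρ1 two_ne_zero
  have hρL : ρ ^ 2 ≤ ρ ^ 2 * Real.log N := le_mul_of_one_le_right (by positivity) hL
  have hC1 : 30000 * (ρ ^ 2 * Real.log N) + 12 * C₀ ≤ s := by
    have : C₀ ≤ C₀ * (ρ ^ 2 * Real.log N) := le_mul_of_one_le_right (by linarith) (by linarith)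
    linarith
  have hs0 : 30000 ≤ s := by linarith
  have hκa : s / 2 ≤ kap D * X := by
    have := mul_le_mul_of_nonneg_right Real.pi_gt_three.le (show 0 ≤ s by linarith)
    linarith
  have hκb : kap D * X ≤ 0.53 * s := by
    have := mul_le_mul_of_nonneg_right Real.pi_lt_d2.le (show 0 ≤ s by linarith)
    linarith
  have hsX := Real.sqrt_nonneg (X : ℝ)
  have hM1 : 30000 * ρ ^ 2 + 30000 * √(X : ℝ) < V.card := by
    have : 0 ≤ C₀ * (ρ ^ 2 + √(X : ℝ)) := by positivity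
    linarith
  have hs9 : 30000 * s ≤ N := hss ▸ mul_le_mul_of_nonneg_right hs0 (by linarith)
  have hX16 : 16 ≤ X := by
    have h1 : (V.card : ℝ) ≤ 7 * X := by exact_mod_cast hV7
    have h2 : (16 : ℝ) ≤ X := by linarith
    exact_mod_cast h2
  obtain ⟨d, hd1, hd2⟩ : ∃ d : ℕ, 9 * ρ ≤ d ∧ (d : ℝ) ≤ 10 * ρ :=
    ⟨⌈9 * ρ⌉₊, Nat.le_ceil _, by linarith [Nat.ceil_lt_add_one (show 0 ≤ 9 * ρ by linarith)]⟩
  obtain ⟨B, hB1, hB2⟩ : ∃ B : ℕ, 2 * C₀ + 12 * (kap D * X) ≤ B ∧ (B : ℝ) ≤ 8 * s :=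
    ⟨⌈2 * C₀ + 12 * (kap D * X)⌉₊, Nat.le_ceil _, by
      linarith [Nat.ceil_lt_add_one (show 0 ≤ 2 * C₀ + 12 * (kap D * X) by linarith)]⟩
  have hd : 1 ≤ d := by
    have : (1 : ℝ) ≤ d := by linarith
    exact_mod_cast this
  have hd0 : (0 : ℝ) ≤ d := Nat.cast_nonneg d
  have hds : (d : ℝ) ≤ s := by linarith
  have hdd : (d : ℝ) ^ 2 ≤ 100 * ρ ^ 2 := (pow_le_pow_left₀ hd0 hd2 2).trans_eq (by ring)
  have hmem : ∀ x ∈ V, x.Prime ∧ X < x ∧ x ≤ 8 * X ∧ (pn (nx D x)).primeFactors ⊆ S := by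
    intro x hx
    rw [hVdef, Finset.mem_filter, Finset.mem_Ioc] at hx
    tauto
  have hr' := fun x (hx : x ∈ V) => hr D x hD (hmem x hx).1 (by have := (hmem x hx).2.1; omega)
  choose! e he using fun x hx => (hr' x hx).2
  have hsm := num_small N X d (kap D) C₀ (C₀ * Real.exp (-√(N : ℝ) / 6)) hN hd hC₀ (by linarith)
  have hsN : √(N : ℝ) = s := by rw [← hss, Real.sqrt_mul_self (by linarith)]
  rw [hsN] at hsm
  obtain ⟨k1, k2⟩ := hsm (by linarith)
    (by have : (8 * X : ℝ) ≤ N := by linarith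
        exact_mod_cast this)
    (by have : (2 * d : ℝ) ≤ N := by linarith
        exact_mod_cast this) (by positivity) le_rfl
    (by linarith [mul_le_mul_of_nonneg_right hdd (show 0 ≤ Real.log N by linarith)]) (by linarith)
  refine core (kap D) _ _ (by linarith) hc (by positivity) X d B hX16 hd V S (fun x => pn (nx D x)) e
    (fun x hx => ⟨(hmem x hx).1, (hmem x hx).2.1, (hmem x hx).2.2.1⟩)
    (fun x hx => ⟨(pn_pos _).ne', ?_, (hmem x hx).2.2.2⟩) (fun x hx => ⟨(he x hx).2, ?_⟩) k1 ?_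
    (num_pigeon N X V.card d B S.card ρ hX hN hd hρ hd1 ?_ ?_ (by linarith)) k2
  · have h1 : (x : ℝ) ≤ 8 * X := by exact_mod_cast (hmem x hx).2.2.1
    have h2 : C₀ ≤ Real.exp C₀ := by linarith [Real.add_one_le_exp C₀]
    have h3 : (pn (nx D x) : ℝ) ≤ 2 ^ B := by
      refine (hr' x hx).1.trans ((mul_le_mul_of_nonneg_right h2 (Real.exp_pos _).le).trans ?_)
      rw [← Real.exp_add, ← Real.exp_log two_pos, ← Real.exp_nat_mul, Real.exp_le_exp]
      have h4 := mul_le_mul_of_nonneg_left h1 (show 0 ≤ kap D by linarith)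
      have h5 : (B : ℝ) * 0.69 ≤ B * Real.log 2 :=
        mul_le_mul_of_nonneg_left (by linarith [Real.log_two_gt_d9]) (Nat.cast_nonneg B)
      linarith
    exact_mod_cast h3
  · refine (he x hx).1.trans (mul_le_mul_of_nonneg_left (Real.exp_le_exp.2 ?_) (by linarith))
    have h1 : (X : ℝ) ≤ x := by exact_mod_cast (hmem x hx).2.1.le
    have h4 := mul_le_mul_of_nonneg_left h1 (show 0 ≤ kap D by linarith)
    linarith
  · have : (200 * d ^ 2 : ℝ) ≤ V.card := by linarith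
    exact_mod_cast this
  · have : (d * B : ℝ) ≤ 8 * N := by
      have := mul_le_mul hds hB2 (Nat.cast_nonneg B) (by linarith)
      linarith
    exact_mod_cast this
  · have : (d * X : ℝ) ≤ N := by
      have := mul_le_mul hds hXs (Nat.cast_nonneg X) (by linarith)
      linarith
    exact_mod_cast this

end PNF
end

-- part Pool.Agent.P.MP_373cf5_nt.Primes
section

namespace PNF

theorem primes_theta_split (X : ℕ) :
    Chebyshev.theta ((8 * X : ℕ) : ℝ) = Chebyshev.theta (X : ℝ) +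
      ∑ p ∈ (Finset.Ioc X (8 * X)).filter Nat.Prime, Real.log p := by
  unfold Chebyshev.theta
  rw [Nat.floor_natCast, Nat.floor_natCast, Finset.sum_filter, Finset.sum_filter,
    Finset.sum_filter]
  exact (Finset.sum_Ioc_consecutive _ (Nat.zero_le X) (by omega)).symm

theorem primes_log_small : ∀ᶠ y : ℝ in Filter.atTop, Real.log y ≤ 1 / 16 * √y := by
  have h := (isLittleO_log_rpow_atTop (r := 1 / 2) (by norm_num)).bound
    (c := 1 / 16) (by norm_num)
  filter_upwards [h, Filter.eventually_ge_atTop 0] with y hy hy0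
  rw [Real.norm_of_nonneg (Real.rpow_nonneg hy0 _), ← Real.sqrt_eq_rpow] at hy
  exact (le_abs_self _).trans hy

theorem primes_Ioc : ∀ᶠ X : ℕ in Filter.atTop,
    (X : ℝ) / Real.log X ≤ (((Finset.Ioc X (8 * X)).filter Nat.Prime).card : ℝ) := by
  have ht : Filter.Tendsto (fun X : ℕ => ((8 * X : ℕ) : ℝ)) Filter.atTop Filter.atTop :=
    tendsto_natCast_atTop_atTop.comp
      (Filter.tendsto_id.const_mul_atTop' (by norm_num : 0 < 8))
  filter_upwards [ht.eventually primes_log_small, Filter.eventually_ge_atTop 8] with X h1 hX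
  have hX' : (8 : ℝ) ≤ X := by exact_mod_cast hX
  have hsplit := primes_theta_split X
  have hlow := Chebyshev.theta_ge (8 * X)
  have hup := Chebyshev.theta_le_log4_mul_x (x := (X : ℝ)) (by positivity)
  have hy : ((8 * X : ℕ) : ℝ) = 8 * (X : ℝ) := by push_cast; ring
  have hsum : ∑ p ∈ (Finset.Ioc X (8 * X)).filter Nat.Prime, Real.log p
      ≤ (((Finset.Ioc X (8 * X)).filter Nat.Prime).card : ℝ) * (2 * Real.log X) := by
    have := Finset.sum_le_card_nsmul ((Finset.Ioc X (8 * X)).filter Nat.Prime)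
      (fun p : ℕ => Real.log p) (2 * Real.log X) (fun p hp => by
        have hp' := Finset.mem_Ioc.1 (Finset.mem_filter.1 hp).1
        have h2 : (p : ℝ) ≤ 8 * X := by exact_mod_cast hp'.2
        have h3 : (0 : ℝ) < p := by exact_mod_cast (lt_of_le_of_lt (Nat.zero_le X) hp'.1)
        have h4 : Real.log p ≤ Real.log ((X : ℝ) ^ 2) :=
          Real.log_le_log h3 (by nlinarith)
        rw [Real.log_pow] at h4
        exact_mod_cast h4)
    simpa [nsmul_eq_mul] using this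
  rw [hy] at h1 hlow hsplit
  have hs0 : 0 ≤ √(8 * (X : ℝ)) := Real.sqrt_nonneg _
  have hss : √(8 * (X : ℝ)) * √(8 * (X : ℝ)) = 8 * X := Real.mul_self_sqrt (by positivity)
  have hs1 : √(8 * (X : ℝ)) ≤ X := by
    rw [Real.sqrt_le_left (by positivity)]
    nlinarith
  have h5 : 2 * √(8 * (X : ℝ)) * Real.log (8 * X) ≤ X := by nlinarith
  have h6 : Real.log (8 * (X : ℝ) + 1) ≤ X := by
    have h7 : Real.log (8 * (X : ℝ) + 1) ≤ Real.log (2 * (8 * X)) :=
      Real.log_le_log (by positivity) (by linarith)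
    rw [Real.log_mul (by norm_num) (by positivity)] at h7
    have := Real.log_two_lt_d9
    linarith
  have h4 : Real.log 4 = 2 * Real.log 2 := by
    rw [show (4 : ℝ) = 2 ^ 2 by norm_num, Real.log_pow]; norm_num
  have hl2 := Real.log_two_gt_d9
  have hlogX : 0 < Real.log X := Real.log_pos (by linarith)
  rw [div_le_iff₀ hlogX]
  have h8 : (2 / 3 : ℝ) * X ≤ Real.log 2 * X := mul_le_mul_of_nonneg_right (by linarith) (by linarith)
  rw [h4] at hup
  nlinarith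

theorem primes_le : ∀ᶠ y : ℝ in Filter.atTop,
    (((Finset.range (⌊y⌋₊ + 1)).filter Nat.Prime).card : ℝ) + 1 ≤ 3 * y / Real.log y := by
  filter_upwards [Chebyshev.eventually_primeCounting_le (ε := 1 / 2) (by norm_num),
    Filter.eventually_gt_atTop 1] with y h1 hy
  have hc : ((Finset.range (⌊y⌋₊ + 1)).filter Nat.Prime).card = Nat.primeCounting ⌊y⌋₊ := by
    rw [Nat.primeCounting, Nat.primeCounting', Nat.count_eq_card_filter_range]
  have hlog : 0 < Real.log y := Real.log_pos hy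
  have h2 : 1 ≤ y / Real.log y := by
    rw [le_div_iff₀ hlog]
    have := Real.log_le_sub_one_of_pos (by linarith : 0 < y)
    linarith
  have h4 : Real.log 4 = 2 * Real.log 2 := by
    rw [show (4 : ℝ) = 2 ^ 2 by norm_num, Real.log_pow]; norm_num
  have hl2 := Real.log_two_lt_d9
  rw [hc, mul_div_assoc]
  rw [mul_div_assoc, h4] at h1
  nlinarith

end PNF
end
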