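import Pool.Agent.K.MP_373cf5_nt.C0

-- part Pool.Agent.P.MP_373cf5_nt.DensComb
section

namespace PNF

open Classical

/-- Double counting of the pairs `(D, x)`. -/
theorem dens_comb (N X J : ℕ) (hX : 4 ≤ X) (hJ : (24 * N : ℝ) ≤ (X : ℝ) ^ J) (𝒟 : Finset ℕ)
    (h𝒟 : ∀ D ∈ 𝒟, D % 24 = 23 ∧ 4 * D * X ^ 2 ≤ N) (G : ℕ → Prop) (m : ℝ)
    (hm : ∀ D ∈ 𝒟, m ≤ (((Finset.Ioc X (8 * X)).filter fun x => x.Prime ∧ G (nx D x)).card : ℝ)) :
    𝒟.card * m ≤ J * (((Finset.Icc 1 N).filter G).card : ℝ) := by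
  set T : Finset (Σ _ : ℕ, ℕ) :=
    𝒟.sigma fun D => (Finset.Ioc X (8 * X)).filter fun x => x.Prime ∧ G (nx D x) with hT
  have h1 : 𝒟.card * m ≤ (T.card : ℝ) := by
    rw [hT, Finset.card_sigma]
    push_cast
    rw [← nsmul_eq_mul]
    exact Finset.card_nsmul_le_sum _ _ _ hm
  have hmem : ∀ a ∈ T, a.1 % 24 = 23 ∧ 4 * a.1 * X ^ 2 ≤ N ∧ X < a.2 ∧ a.2 ≤ 8 * X ∧ a.2.Prime ∧
      G (nx a.1 a.2) ∧ 24 * nx a.1 a.2 = a.1 * a.2 ^ 2 + 1 := by
    intro a ha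
    rw [hT, Finset.mem_sigma, Finset.mem_filter, Finset.mem_Ioc] at ha
    obtain ⟨a1, ⟨a2, a3⟩, a4, a5⟩ := ha
    exact ⟨(h𝒟 _ a1).1, (h𝒟 _ a1).2, a2, a3, a4, a5, nx_spec _ _ (h𝒟 _ a1).1 a4 (by omega)⟩
  have h2 : T.card ≤ J * ((Finset.Icc 1 N).filter G).card := by
    apply Finset.card_le_mul_card_image_of_maps_to (f := fun a => nx a.1 a.2)
    · intro a ha
      obtain ⟨a1, a2, a3, a4, a5, a6, a7⟩ := hmem a ha
      rw [Finset.mem_filter, Finset.mem_Icc]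
      have b1 : a.2 ^ 2 ≤ 64 * X ^ 2 := by nlinarith
      have b2 : a.1 * a.2 ^ 2 ≤ a.1 * (64 * X ^ 2) := Nat.mul_le_mul_left _ b1
      have b3 : a.1 * (64 * X ^ 2) = 16 * (4 * a.1 * X ^ 2) := by ring
      have b4 : 0 < 4 * a.1 * X ^ 2 := by
        have : 0 < a.1 := by omega
        have : 0 < X := by omega
        positivity
      refine ⟨⟨by omega, by omega⟩, a6⟩
    · intro n hn
      rw [Finset.mem_filter, Finset.mem_Icc] at hn
      have hinj : Set.InjOn (fun a : (Σ _ : ℕ, ℕ) => a.2)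
          ((T.filter fun a => nx a.1 a.2 = n : Finset (Σ _ : ℕ, ℕ)) : Set (Σ _ : ℕ, ℕ)) := by
        intro a ha b hb hab
        rw [Finset.mem_coe, Finset.mem_filter] at ha hb
        obtain ⟨-, -, a3, -, -, -, a7⟩ := hmem a ha.1
        obtain ⟨-, -, -, -, -, -, b7⟩ := hmem b hb.1
        have hab' : a.2 = b.2 := hab
        rw [ha.2] at a7
        rw [hb.2, ← hab'] at b7
        have hpos : 0 < a.2 ^ 2 := by
          have : 0 < a.2 := by omega
          positivity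
        have : a.1 = b.1 := Nat.eq_of_mul_eq_mul_right hpos (by omega)
        exact Sigma.ext this (heq_of_eq hab')
      rw [← Finset.card_image_of_injOn hinj]
      apply card_big_primes (24 * (n : ℤ) - 1) (by omega) X J (by omega)
      · have n1 : (1 : ℝ) ≤ n := by exact_mod_cast hn.1.1
        have n2 : (n : ℝ) ≤ N := by exact_mod_cast hn.1.2
        push_cast
        rw [abs_of_nonneg (by linarith)]
        linarith
      · intro l hl
        obtain ⟨a, ha, rfl⟩ := Finset.mem_image.mp hl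
        rw [Finset.mem_filter] at ha
        obtain ⟨-, -, a3, -, a5, -, a7⟩ := hmem a ha.1
        refine ⟨a5, a3, ⟨a.1 * a.2, ?_⟩⟩
        rw [ha.2] at a7
        have : (24 * (n : ℤ)) = a.1 * (a.2 : ℤ) ^ 2 + 1 := by exact_mod_cast a7
        rw [this]; ring
  refine h1.trans ?_
  exact_mod_cast h2

/-- Many admissible `D`. -/
theorem exists_Ds (N X : ℕ) (hX : 1 ≤ X) (h : 800 * X ^ 2 ≤ N) :
    ∃ 𝒟 : Finset ℕ, (∀ D ∈ 𝒟, D % 24 = 23 ∧ 4 * D * X ^ 2 ≤ N ∧ N ≤ 16 * D * X ^ 2) ∧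
      (N : ℝ) / (400 * (X : ℝ) ^ 2) ≤ 𝒟.card := by
  have hX2 : 0 < X ^ 2 := by positivity
  set q := N / X ^ 2 with hq
  have hq1 : 800 ≤ q := (Nat.le_div_iff_mul_le hX2).mpr h
  have hq2 : q * X ^ 2 ≤ N := Nat.div_mul_le_self _ _
  have hq3 : N < (q + 1) * X ^ 2 := by
    have := Nat.lt_div_mul_add (a := N) hX2
    rw [add_mul, one_mul]; exact this
  refine ⟨(Finset.Ico (q / 384 + 1) (q / 96)).image fun j => 24 * j + 23, ?_, ?_⟩
  · intro D hD
    obtain ⟨j, hj, rfl⟩ := Finset.mem_image.mp hD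
    rw [Finset.mem_Ico] at hj
    refine ⟨by omega, ?_, ?_⟩
    · exact (Nat.mul_le_mul_right _ (by omega)).trans hq2
    · exact hq3.le.trans (Nat.mul_le_mul_right _ (by omega))
  · rw [Finset.card_image_of_injective _ (fun a b hab => by simpa using hab), Nat.card_Ico]
    have h1 : q + 1 ≤ 400 * (q / 96 - (q / 384 + 1)) := by omega
    have h2 : N ≤ (q / 96 - (q / 384 + 1)) * (400 * X ^ 2) := by
      calc N ≤ (q + 1) * X ^ 2 := hq3.le
        _ ≤ 400 * (q / 96 - (q / 384 + 1)) * X ^ 2 := Nat.mul_le_mul_right _ h1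
        _ = _ := by ring
    rw [div_le_iff₀ (by positivity)]
    exact_mod_cast h2

end PNF
end

-- part Pool.Agent.P.MP_373cf5_nt.DensNum
section

namespace PNF

open Filter

theorem densNum_log_le (a b : ℝ) (ha : 0 < a) (hb : 0 < b) :
    ∀ᶠ x : ℝ in atTop, Real.log x ≤ b * x ^ a := by
  have h := (isLittleO_log_rpow_atTop ha).bound hb
  filter_upwards [h, eventually_ge_atTop (1 : ℝ)] with x hx hx1
  rw [Real.norm_eq_abs, Real.norm_eq_abs, abs_of_nonneg (Real.log_nonneg hx1),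
    abs_of_nonneg (by positivity)] at hx
  exact hx

theorem densNum_sqrt (C : ℝ) (hC : 0 < C) :
    ∀ᶠ X : ℕ in atTop, C * √(X : ℝ) ≤ (X : ℝ) / Real.log X / 4 := by
  have h := tendsto_natCast_atTop_atTop.eventually
    (densNum_log_le (1 / 2) (1 / (4 * C)) (by norm_num) (by positivity))
  filter_upwards [h, eventually_ge_atTop 2] with X hX hX2
  have hX' : (2 : ℝ) ≤ X := by exact_mod_cast hX2
  have hl : 0 < Real.log X := Real.log_pos (by linarith)
  rw [← Real.sqrt_eq_rpow] at hX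
  have hs : 0 < √(X : ℝ) := Real.sqrt_pos.mpr (by linarith)
  have hss : √(X : ℝ) * √(X : ℝ) = X := Real.mul_self_sqrt (by linarith)
  rw [le_div_iff₀ (by norm_num), le_div_iff₀ hl]
  calc C * √(X : ℝ) * 4 * Real.log X ≤ C * √(X : ℝ) * 4 * (1 / (4 * C) * √(X : ℝ)) := by gcongr
    _ = √(X : ℝ) * √(X : ℝ) := by field_simp
    _ = X := hss

/-- Choice of `X` for the density theorem. -/
theorem dens_num (θ C : ℝ) (h0 : 0 < θ) (hC : 0 < C) :
    ∃ c₀ : ℝ, 0 < c₀ ∧ ∃ A : ℝ, 0 < A ∧ ∃ J : ℕ, 0 < J ∧ ∀ᶠ N : ℕ in Filter.atTop, ∀ y : ℝ,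
      (N : ℝ) ^ θ ≤ y → y ≤ c₀ * (N : ℝ) ^ (1 / 4 : ℝ) * √(Real.log N) → ∃ X : ℕ, 4 ≤ X ∧
      800 * X ^ 2 ≤ N ∧ (24 * N : ℝ) ≤ (X : ℝ) ^ J ∧
      (X : ℝ) * Real.log X ≤ A * y ^ 2 ∧
      (X : ℝ) / Real.log X ≤ (((Finset.Ioc X (8 * X)).filter Nat.Prime).card : ℝ) ∧
      ∀ N' : ℕ, N ≤ 16 * N' → 1 ≤ N' → N' ≤ N → ∀ ρ : ℝ,
        ρ = ((((Finset.range (⌊y⌋₊ + 1)).filter Nat.Prime).card : ℝ) + 1) *
          Real.log N' / Real.log X →
        C * ρ ^ 2 * Real.log N' ≤ √(N' : ℝ) ∧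
        C * (ρ ^ 2 + √(X : ℝ)) ≤ (X : ℝ) / Real.log X / 2 := by
  set A₀ : ℝ := 36 * C / θ ^ 4 with hA₀
  have hA : 0 < A₀ := by positivity
  refine ⟨1 / √(60 * A₀), by positivity, 2 * A₀, by positivity, ⌈2 / θ⌉₊,
    Nat.ceil_pos.mpr (by positivity), ?_⟩
  obtain ⟨X₀, hX₀⟩ := eventually_atTop.mp (primes_Ioc.and (densNum_sqrt C hC))
  obtain ⟨y₀, hy₀⟩ := eventually_atTop.mp primes_le
  have ty : Tendsto (fun N : ℕ => (N : ℝ) ^ θ) atTop atTop :=
    (tendsto_rpow_atTop h0).comp tendsto_natCast_atTop_atTop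
  have e1 := tendsto_natCast_atTop_atTop.eventually (densNum_log_le θ A₀ h0 hA)
  filter_upwards [e1, ty.eventually_ge_atTop y₀, ty.eventually_ge_atTop (X₀ + 4 : ℝ),
    eventually_ge_atTop 24] with N f1 f2' f3 f5 y hy hyu
  have f2 := hy₀ y (f2'.trans hy)
  set L : ℝ := Real.log N with hL
  have hN : (24 : ℝ) ≤ N := by exact_mod_cast f5
  have hN0 : (0 : ℝ) < N := by linarith
  have hX₀0 : (0 : ℝ) ≤ X₀ := Nat.cast_nonneg _
  have hy4 : 4 ≤ y := by linarith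
  have hy0 : 0 < y := by linarith
  have hL0 : 0 < L := Real.log_pos (by linarith)
  have hlogy : θ * L ≤ Real.log y := by
    rw [hL, ← Real.log_rpow hN0]
    exact Real.log_le_log (by positivity) hy
  have hsq : ((N : ℝ) ^ (1 / 4 : ℝ)) ^ 2 = √(N : ℝ) := by
    rw [← Real.rpow_natCast, ← Real.rpow_mul hN0.le, Real.sqrt_eq_rpow]; norm_num
  have hy2s : y ^ 2 ≤ √(N : ℝ) * L / (60 * A₀) := by
    calc y ^ 2 ≤ (1 / √(60 * A₀) * (N : ℝ) ^ (1 / 4 : ℝ) * √L) ^ 2 := by gcongr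
      _ = √(N : ℝ) * L / (60 * A₀) := by
        rw [mul_pow, mul_pow, div_pow, hsq, Real.sq_sqrt hL0.le, Real.sq_sqrt (by positivity)]
        ring
  have hsN : √(N : ℝ) * √(N : ℝ) = N := Real.mul_self_sqrt hN0.le
  have f1' : L ≤ A₀ * y := f1.trans (mul_le_mul_of_nonneg_left hy hA.le)
  set z : ℝ := A₀ * y ^ 2 / L with hz
  have hzy : y ≤ z := by
    rw [hz, le_div_iff₀ hL0]; nlinarith
  set X : ℕ := ⌈z⌉₊ with hX
  have hzX : z ≤ X := Nat.le_ceil z
  have hX2z : (X : ℝ) ≤ 2 * z := by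
    have := Nat.ceil_lt_add_one (show 0 ≤ z by linarith)
    linarith
  have hyX : y ≤ X := hzy.trans hzX
  have hX4 : (4 : ℝ) ≤ X := by linarith
  have hXX₀ : X₀ ≤ X := by
    have : (X₀ : ℝ) ≤ X := by linarith
    exact_mod_cast this
  obtain ⟨g1, g2⟩ := hX₀ X hXX₀
  have hzs : z ≤ √(N : ℝ) / 60 := by
    calc z ≤ A₀ * (√(N : ℝ) * L / (60 * A₀)) / L := by rw [hz]; gcongr
      _ = √(N : ℝ) / 60 := by field_simp
  have h800 : (800 * (X : ℝ) ^ 2) ≤ N := by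
    have hX0 : (0 : ℝ) ≤ X := Nat.cast_nonneg _
    have : (X : ℝ) ≤ √(N : ℝ) / 30 := by linarith
    nlinarith
  have hXN : (X : ℝ) ≤ N := by nlinarith
  have hlX : Real.log X ≤ L := Real.log_le_log (by linarith) hXN
  have hlX0 : 0 < Real.log X := Real.log_pos (by linarith)
  have hlX1 : θ * L ≤ Real.log X := hlogy.trans (Real.log_le_log hy0 hyX)
  refine ⟨X, by exact_mod_cast hX4, by exact_mod_cast h800, ?_, ?_, g1, ?_⟩
  · have a1 : ((N : ℝ) ^ θ) ^ ⌈2 / θ⌉₊ ≤ (X : ℝ) ^ ⌈2 / θ⌉₊ :=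
      pow_le_pow_left₀ (by positivity) (hy.trans hyX) _
    have a2 : (N : ℝ) ^ (2 : ℝ) ≤ ((N : ℝ) ^ θ) ^ ⌈2 / θ⌉₊ := by
      rw [← Real.rpow_natCast, ← Real.rpow_mul hN0.le]
      apply Real.rpow_le_rpow_of_exponent_le (by linarith)
      have := Nat.le_ceil (2 / θ)
      rw [div_le_iff₀ h0] at this
      linarith
    rw [Real.rpow_two] at a2
    nlinarith
  · calc (X : ℝ) * Real.log X ≤ (2 * z) * L := by gcongr
      _ = 2 * A₀ * y ^ 2 := by rw [hz]; field_simp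
  · intro N' b1 b2 b3 ρ hρ
    have b1' : (N : ℝ) ≤ 16 * N' := by exact_mod_cast b1
    have b2' : (1 : ℝ) ≤ N' := by exact_mod_cast b2
    have b3' : (N' : ℝ) ≤ N := by exact_mod_cast b3
    have c0 : 0 ≤ Real.log N' := Real.log_nonneg b2'
    have c1 : Real.log N' ≤ L := Real.log_le_log (by linarith) b3'
    have f2'' : 3 * y / Real.log y ≤ 3 * y / (θ * L) :=
      div_le_div_of_nonneg_left (by linarith) (by positivity) hlogy
    replace f2 := f2.trans f2''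
    have hρ0 : 0 ≤ ρ := by rw [hρ]; positivity
    have hρ1 : ρ ≤ 3 * y / (θ ^ 2 * L) := by
      rw [hρ]
      calc _ ≤ (3 * y / (θ * L)) * L / (θ * L) := by gcongr
        _ = 3 * y / (θ ^ 2 * L) := by field_simp
    have hρ2 : C * ρ ^ 2 ≤ z / (4 * L) := by
      calc C * ρ ^ 2 ≤ C * (3 * y / (θ ^ 2 * L)) ^ 2 := by gcongr
        _ = z / (4 * L) := by rw [hz, hA₀]; field_simp; ring
    constructor
    · have d1 : √(N : ℝ) ≤ 4 * √(N' : ℝ) := by
        calc √(N : ℝ) ≤ √(16 * (N' : ℝ)) := Real.sqrt_le_sqrt b1'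
          _ = 4 * √(N' : ℝ) := by
            rw [Real.sqrt_mul (by norm_num), show (16 : ℝ) = 4 ^ 2 by norm_num,
              Real.sqrt_sq (by norm_num)]
      have d2 : C * ρ ^ 2 * Real.log N' ≤ z / (4 * L) * L := by gcongr
      have d3 : z / (4 * L) * L = z / 4 := by field_simp
      have d4 : 0 ≤ √(N' : ℝ) := Real.sqrt_nonneg _
      linarith
    · have d1 : z / (4 * L) ≤ (X : ℝ) / Real.log X / 4 := by
        rw [div_div (X : ℝ), mul_comm (Real.log X)]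
        gcongr
      linarith

end PNF
end

-- part Pool.Agent.P.MP_373cf5_nt.Dens
section

namespace PNF

open Classical

theorem density (θ : ℝ) (h0 : 0 < θ) :
    ∃ c : ℝ, 0 < c ∧ ∀ᶠ N : ℕ in Filter.atTop, ∀ y : ℝ, (N : ℝ) ^ θ ≤ y →
      y ≤ c * (N : ℝ) ^ (1 / 4 : ℝ) * √(Real.log N) →
      c * (N : ℝ) / y ^ 2 ≤ (((Finset.Icc 1 N).filter
        fun n => ∃ l : ℕ, l.Prime ∧ l ∣ pn n ∧ y < l).card : ℝ) := by
  obtain ⟨C, hC, hcount⟩ := count
  obtain ⟨c₀, hc₀, A, hA, J, hJ, hev⟩ := dens_num θ C h0 hC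
  have hJ' : (0 : ℝ) < J := by exact_mod_cast hJ
  refine ⟨min c₀ (1 / (800 * A * J)), lt_min hc₀ (by positivity), ?_⟩
  filter_upwards [hev] with N hN y hy1 hy2
  obtain ⟨X, hX4, hXN, hXJ, hXA, hprimes, hρ⟩ := hN y hy1
    (hy2.trans (by gcongr; exact min_le_left _ _))
  obtain ⟨𝒟, h𝒟, hcard⟩ := exists_Ds N X (by omega) hXN
  set S := (Finset.range (⌊y⌋₊ + 1)).filter Nat.Prime with hS
  set G : ℕ → Prop := fun n => ∃ l : ℕ, l.Prime ∧ l ∣ pn n ∧ y < l with hG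
  have hX' : (4 : ℝ) ≤ X := by exact_mod_cast hX4
  have hlog : 0 < Real.log X := Real.log_pos (by linarith)
  have hX2 : 0 < X ^ 2 := by positivity
  have hN0 : (0 : ℝ) < N := by
    have : 0 < N := by omega
    exact_mod_cast this
  have hm : ∀ D ∈ 𝒟, (X : ℝ) / Real.log X / 2 ≤
      (((Finset.Ioc X (8 * X)).filter fun x => x.Prime ∧ G (nx D x)).card : ℝ) := by
    intro D hD
    obtain ⟨hD1, hD2, hD3⟩ := h𝒟 D hD
    have hD0 : 0 < D := by omega
    have hDX : 0 < D * X ^ 2 := by positivity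
    obtain ⟨r1, r2⟩ := hρ (D * X ^ 2) (by rw [← mul_assoc]; exact hD3) hDX
      (by rw [mul_assoc] at hD2; omega) _ rfl
    have r3 := hcount D X hD1 (by omega) S _ rfl r1
    have hsub : (Finset.Ioc X (8 * X)).filter Nat.Prime ⊆
        ((Finset.Ioc X (8 * X)).filter fun x => x.Prime ∧ G (nx D x)) ∪
        ((Finset.Ioc X (8 * X)).filter
          fun x => x.Prime ∧ (pn (nx D x)).primeFactors ⊆ S) := by
      intro x hx
      rw [Finset.mem_filter] at hx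
      rw [Finset.mem_union, Finset.mem_filter, Finset.mem_filter]
      by_cases hg : G (nx D x)
      · exact Or.inl ⟨hx.1, hx.2, hg⟩
      · refine Or.inr ⟨hx.1, hx.2, fun l hl => ?_⟩
        have hlp := Nat.prime_of_mem_primeFactors hl
        have hld := Nat.dvd_of_mem_primeFactors hl
        rw [hS, Finset.mem_filter, Finset.mem_range]
        refine ⟨Nat.lt_succ_of_le (Nat.le_floor ?_), hlp⟩
        by_contra hlt
        exact hg ⟨l, hlp, hld, not_le.mp hlt⟩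
    have h5 := (Finset.card_le_card hsub).trans (Finset.card_union_le _ _)
    have h6 : ((((Finset.Ioc X (8 * X)).filter Nat.Prime).card : ℕ) : ℝ) ≤
        (((Finset.Ioc X (8 * X)).filter fun x => x.Prime ∧ G (nx D x)).card : ℝ) +
        (((Finset.Ioc X (8 * X)).filter
          fun x => x.Prime ∧ (pn (nx D x)).primeFactors ⊆ S).card : ℝ) := by
      exact_mod_cast h5
    linarith
  have hcomb := dens_comb N X J hX4 hXJ 𝒟 (fun D hD => ⟨(h𝒟 D hD).1, (h𝒟 D hD).2.1⟩) G _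
    (fun D hD => by convert hm D hD)
  have hp0 : 0 < y := (Real.rpow_pos_of_pos hN0 _).trans_le hy1
  have h7 : (N : ℝ) / (800 * A * y ^ 2) ≤
      (N : ℝ) / (400 * (X : ℝ) ^ 2) * ((X : ℝ) / Real.log X / 2) := by
    have : (N : ℝ) / (400 * (X : ℝ) ^ 2) * ((X : ℝ) / Real.log X / 2) =
        N / (800 * (X * Real.log X)) := by
      field_simp
      ring
    rw [this]
    apply div_le_div_of_nonneg_left hN0.le (by positivity)
    linarith
  have h8 : (N : ℝ) / (400 * (X : ℝ) ^ 2) * ((X : ℝ) / Real.log X / 2) ≤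
      𝒟.card * ((X : ℝ) / Real.log X / 2) :=
    mul_le_mul_of_nonneg_right hcard (by positivity)
  have h9 : 1 / (800 * A * J) * (N : ℝ) / y ^ 2 = (N : ℝ) / (800 * A * y ^ 2) / J := by
    field_simp
  have h10 : min c₀ (1 / (800 * A * J)) * (N : ℝ) / y ^ 2 ≤ 1 / (800 * A * J) * (N : ℝ) / y ^ 2 := by
    gcongr; exact min_le_right _ _
  refine h10.trans ?_
  rw [h9, div_le_iff₀ hJ', mul_comm _ (J : ℝ)]
  refine h7.trans (h8.trans ?_)
  convert hcomb

end PNF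
end
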