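import Pool.Agent.K.MP_373cf5_nt.C0

-- part Pool.Agent.P.MP_373cf5_nt.Local
section

namespace PNF

open Filter

theorem local_log_le (a b : ℝ) (ha : 0 < a) (hb : 0 < b) :
    ∀ᶠ X : ℕ in atTop, Real.log X ≤ b * (X : ℝ) ^ a := by
  have h := (isLittleO_log_rpow_atTop ha).bound hb
  apply tendsto_natCast_atTop_atTop.eventually (p := fun x : ℝ => Real.log x ≤ b * x ^ a)
  filter_upwards [h, eventually_ge_atTop (1 : ℝ)] with x hx hx1
  rw [Real.norm_eq_abs, Real.norm_eq_abs, abs_of_nonneg (Real.log_nonneg hx1),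
    abs_of_nonneg (by positivity)] at hx
  exact hx

theorem local_X : ∃ C : ℝ, 0 < C ∧ ∀ᶠ X : ℕ in atTop, ∀ S : Finset ℕ,
    (∀ x : ℕ, x.Prime → X < x → x ≤ 8 * X → (pn (nx 23 x)).primeFactors ⊆ S) →
    (X : ℝ) ≤ C * (S.card : ℝ) ^ 2 * Real.log X := by
  obtain ⟨C, hC, h⟩ := count
  refine ⟨108 * C, by positivity, ?_⟩
  filter_upwards [primes_Ioc, local_log_le (1 / 2) (1 / (2 * C)) (by norm_num) (by positivity),
    local_log_le 1 (1 / (54 * C)) (by norm_num) (by positivity), eventually_ge_atTop 23]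
    with X f1 f2 f3 f4 S hS
  have hX : (23 : ℝ) ≤ X := by exact_mod_cast f4
  have hl : 0 < Real.log X := Real.log_pos (by linarith)
  set r : ℝ := (S.card : ℝ) with hr
  have hr0 : 0 ≤ r := Nat.cast_nonneg _
  have hN : ((23 * X ^ 2 : ℕ) : ℝ) = 23 * (X : ℝ) ^ 2 := by push_cast; ring
  have hlN : Real.log ((23 * X ^ 2 : ℕ) : ℝ) ≤ 3 * Real.log X := by
    have : (3 : ℝ) * Real.log X = Real.log ((X : ℝ) ^ 3) := by rw [Real.log_pow]; norm_num
    rw [this, hN]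
    apply Real.log_le_log (by positivity)
    nlinarith [sq_nonneg (X : ℝ)]
  have hlN0 : 0 ≤ Real.log ((23 * X ^ 2 : ℕ) : ℝ) := Real.log_natCast_nonneg _
  set ρ : ℝ := (r + 1) * Real.log ((23 * X ^ 2 : ℕ) : ℝ) / Real.log X with hρ
  have hρ0 : 0 ≤ ρ := by positivity
  have hρ1 : ρ ≤ 3 * (r + 1) := by
    rw [hρ, div_le_iff₀ hl]; nlinarith
  have hρ2 : ρ ^ 2 ≤ 9 * (r + 1) ^ 2 := by nlinarith
  have key : (X : ℝ) ≤ 27 * C * (r + 1) ^ 2 * Real.log X := by
    by_cases hc : C * ρ ^ 2 * Real.log ((23 * X ^ 2 : ℕ) : ℝ) ≤ √((23 * X ^ 2 : ℕ) : ℝ)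
    · have h1 := h 23 X (by norm_num) (by omega) S ρ rfl hc
      have h2 : (Finset.Ioc X (8 * X)).filter
          (fun x => x.Prime ∧ (pn (nx 23 x)).primeFactors ⊆ S) =
          (Finset.Ioc X (8 * X)).filter Nat.Prime := by
        apply Finset.filter_congr
        intro x hx
        rw [Finset.mem_Ioc] at hx
        exact ⟨fun a => a.1, fun a => ⟨a, hS x a hx.1 hx.2⟩⟩
      rw [h2] at h1
      rw [← Real.sqrt_eq_rpow] at f2
      have hss : √(X : ℝ) * √(X : ℝ) = X := Real.mul_self_sqrt (by linarith)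
      have h3 : C * √(X : ℝ) * Real.log X ≤ X / 2 := by
        calc C * √(X : ℝ) * Real.log X ≤ C * √(X : ℝ) * (1 / (2 * C) * √(X : ℝ)) := by gcongr
          _ = √(X : ℝ) * √(X : ℝ) / 2 := by field_simp
          _ = X / 2 := by rw [hss]
      have h4 := f1.trans h1
      rw [div_le_iff₀ hl] at h4
      have h5 : C * ρ ^ 2 * Real.log X ≤ C * (9 * (r + 1) ^ 2) * Real.log X := by gcongr
      have h6 : 0 ≤ C * (r + 1) ^ 2 * Real.log X := by positivity
      nlinarith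
    · have h1 : (X : ℝ) ≤ √((23 * X ^ 2 : ℕ) : ℝ) := by
        apply Real.le_sqrt_of_sq_le
        rw [hN]; nlinarith [sq_nonneg (X : ℝ)]
      have h2 : C * ρ ^ 2 * Real.log ((23 * X ^ 2 : ℕ) : ℝ) ≤
          C * (9 * (r + 1) ^ 2) * (3 * Real.log X) := by gcongr
      linarith [not_le.mp hc]
  have hr1 : 1 ≤ r := by
    rcases Nat.eq_zero_or_pos S.card with h0 | h0
    · exfalso
      have : r = 0 := by rw [hr, h0]; simp
      rw [this] at key
      rw [Real.rpow_one] at f3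
      have h7 : 27 * C * Real.log X ≤ 27 * C * (1 / (54 * C) * X) := by gcongr
      have h8 : 27 * C * (1 / (54 * C) * X) = (X : ℝ) / 2 := by field_simp; ring
      linarith
    · rw [hr]; exact_mod_cast h0
  have h9 : (r + 1) ^ 2 ≤ 4 * r ^ 2 := by nlinarith
  calc (X : ℝ) ≤ 27 * C * (r + 1) ^ 2 * Real.log X := key
    _ ≤ 27 * C * (4 * r ^ 2) * Real.log X := by gcongr
    _ = 108 * C * r ^ 2 * Real.log X := by ring

theorem local_bound : ∃ c : ℝ, 0 < c ∧ ∀ᶠ n : ℕ in Filter.atTop, ∀ S : Finset ℕ,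
    (∀ k : ℕ, n ≤ 100 * k → k ≤ n → (pn k).primeFactors ⊆ S) →
    c * (n : ℝ) ^ (1 / 4 : ℝ) / √(Real.log n) ≤ S.card := by
  obtain ⟨C, hC, h⟩ := local_X
  obtain ⟨X₀, hX₀⟩ := eventually_atTop.mp h
  refine ⟨1 / √(16 * C), by positivity, ?_⟩
  filter_upwards [eventually_ge_atTop ((8 * (X₀ + 4)) ^ 2)] with n hn S hS
  set m := Nat.sqrt n with hm
  have m1 : 8 * (X₀ + 4) ≤ m := Nat.le_sqrt'.mpr hn
  have m2 : m ^ 2 ≤ n := Nat.sqrt_le' n
  have m3 : n < (m + 1) ^ 2 := Nat.lt_succ_sqrt' n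
  set X := m / 8 with hX
  have key := hX₀ X (by omega) S (by
    intro x hx h1 h2
    have h3 := nx_spec 23 x (by norm_num) hx (by omega)
    have h4 : x ^ 2 ≤ m ^ 2 := Nat.pow_le_pow_left (by omega) 2
    have h5 : (m + 1) ^ 2 ≤ (8 * x) ^ 2 := Nat.pow_le_pow_left (by omega) 2
    have h6 : (8 * x) ^ 2 = 64 * x ^ 2 := by ring
    have h7 : 0 < x ^ 2 := pow_pos hx.pos 2
    apply hS <;> omega)
  have hX4 : (4 : ℝ) ≤ X := by
    have : 4 ≤ X := by omega
    exact_mod_cast this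
  have hn16 : (n : ℝ) ≤ (16 * X) ^ 2 := by
    have : n ≤ (16 * X) ^ 2 := m3.le.trans (Nat.pow_le_pow_left (by omega) 2)
    exact_mod_cast this
  have hXn : (X : ℝ) ≤ n := by
    have : X ≤ n := by nlinarith [Nat.div_le_self m 8]
    exact_mod_cast this
  have hl : Real.log X ≤ Real.log n := Real.log_le_log (by linarith) hXn
  have hL : 0 < Real.log n := Real.log_pos (by linarith)
  have hsq : ((n : ℝ) ^ (1 / 4 : ℝ)) ^ 2 = √(n : ℝ) := by
    rw [← Real.rpow_natCast, ← Real.rpow_mul (by linarith), Real.sqrt_eq_rpow]; norm_num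
  have hs : √(n : ℝ) ≤ 16 * X := Real.sqrt_le_iff.mpr ⟨by linarith, hn16⟩
  apply le_of_sq_le_sq _ (Nat.cast_nonneg _)
  rw [div_pow, mul_pow, div_pow, hsq, Real.sq_sqrt hL.le, Real.sq_sqrt (by positivity),
    div_le_iff₀ hL, one_pow, div_mul_eq_mul_div, one_mul, div_le_iff₀ (by positivity)]
  have : C * (S.card : ℝ) ^ 2 * Real.log X ≤ C * (S.card : ℝ) ^ 2 * Real.log n := by gcongr
  nlinarith

end PNF
end

-- part Pool.Agent.P.MP_373cf5_nt.Large
section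

namespace PNF

open Filter

theorem omega_bound : ∃ c : ℝ, 0 < c ∧ ∀ᶠ n : ℕ in Filter.atTop,
    c * (n : ℝ) ^ (1 / 4 : ℝ) / √(Real.log n) ≤
      ((∏ k ∈ Finset.Icc (n / 100) n, pn k).primeFactors.card : ℝ) := by
  obtain ⟨c, hc, h⟩ := local_bound
  refine ⟨c, hc, ?_⟩
  filter_upwards [h] with n hn
  apply hn
  intro k hk1 hk2
  apply Nat.primeFactors_mono
  · exact Finset.dvd_prod_of_mem _ (Finset.mem_Icc.mpr ⟨by omega, hk2⟩)
  · exact Finset.prod_ne_zero_iff.mpr fun a _ => (pn_pos a).ne'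

end PNF
end
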